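import Pool.Agent.H525.NF.Ideals
import Pool.Agent.H525.AC.Asum
import Pool.Graph.R_seed8.H474R2.PG.HomsLower

set_option autoImplicit false
set_option linter.unusedSectionVars false

/-! # Sums over the prime ideals of degree one -/

namespace Pool.Agent.H525.NF

open Finset NumberField Filter Topology
open Pool.Agent.H474R2.PG
open Pool.Agent.H921R2.TatePole

open scoped Classical

variable {K : Type} [Field K] [NumberField K]

theorem mem_PR {w : ℝ} {p : ℕ} : p ∈ PR w ↔ p.Prime ∧ (p : ℝ) ≤ w := by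
  unfold PR
  rw [mem_filter, mem_Icc]
  constructor
  · rintro ⟨⟨h1, h2⟩, h3⟩
    refine ⟨h3, ?_⟩
    rcases le_or_gt 0 w with hw | hw
    · exact (Nat.cast_le.2 h2).trans (Nat.floor_le hw)
    · rw [Nat.floor_of_nonpos hw.le] at h2
      omega
  · rintro ⟨h1, h2⟩
    exact ⟨⟨h1.pos, Nat.le_floor h2⟩, h1⟩

theorem card_homs (p : ℕ) (hp : p.Prime) :
    Nat.card (𝓞 K →+* ZMod p) = Nat.card {P : Ideal (𝓞 K) // Ideal.absNorm P = p} := by
  have : Fact p.Prime := ⟨hp⟩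
  have hk : ∀ φ : 𝓞 K →+* ZMod p, Ideal.absNorm (RingHom.ker φ) = p := by
    intro φ
    have e := RingHom.quotientKerEquivOfSurjective (ZMod.ringHom_surjective φ)
    have h1 : Nat.card (𝓞 K ⧸ RingHom.ker φ) = Nat.card (ZMod p) := Nat.card_congr e.toEquiv
    rw [Nat.card_zmod] at h1
    exact h1
  refine Nat.card_eq_of_bijective
    (fun φ => (⟨RingHom.ker φ, hk φ⟩ : {P : Ideal (𝓞 K) // Ideal.absNorm P = p})) ⟨?_, ?_⟩
  · intro φ ψ h
    exact hom_ext_of_ker (congrArg Subtype.val h)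
  · rintro ⟨P, hP⟩
    have hcard : Nat.card (𝓞 K ⧸ P) = p := hP
    have hfin : Finite (𝓞 K ⧸ P) := Nat.finite_of_card_ne_zero (by rw [hcard]; exact hp.ne_zero)
    have := Fintype.ofFinite (𝓞 K ⧸ P)
    have hc' : Fintype.card (𝓞 K ⧸ P) = p := by
      rw [← Nat.card_eq_fintype_card]; exact hcard
    set e := ZMod.ringEquivOfPrime (𝓞 K ⧸ P) hp hc' with he
    refine ⟨(e.symm : 𝓞 K ⧸ P →+* ZMod p).comp (Ideal.Quotient.mk P), ?_⟩
    apply Subtype.ext
    change RingHom.ker ((e.symm : 𝓞 K ⧸ P →+* ZMod p).comp (Ideal.Quotient.mk P)) = P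
    ext x
    rw [RingHom.mem_ker, RingHom.comp_apply]
    rw [RingEquiv.coe_toRingHom, map_eq_zero_iff _ e.symm.injective]
    exact Ideal.Quotient.eq_zero_iff_mem

theorem card_fiber {a b : ℝ} {p : ℕ} (hp : p.Prime) (ha : a < p) (hb : (p : ℝ) ≤ b) :
    ((PI K a b).filter (fun P => Ideal.absNorm P = p)).card = Nat.card (𝓞 K →+* ZMod p) := by
  rw [card_homs p hp]
  have h1 : ∀ P : Ideal (𝓞 K), P ∈ (PI K a b).filter (fun P => Ideal.absNorm P = p) ↔
      Ideal.absNorm P = p := by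
    intro P
    rw [mem_filter, mem_PI]
    constructor
    · exact fun h => h.2
    · intro h
      rw [h]
      exact ⟨⟨hp, ha, hb⟩, rfl⟩
  exact (Nat.subtype_card _ h1).symm

/-- sums over the prime ideals of degree one -/
theorem sum_PI (a b : ℝ) (φ : ℕ → ℝ) : ∑ P ∈ PI K a b, φ (Ideal.absNorm P) =
    ∑ p ∈ (PR b).filter (fun p : ℕ => a < p), (Nat.card (𝓞 K →+* ZMod p) : ℝ) * φ p := by
  rw [← Finset.sum_fiberwise_of_maps_to (g := fun P : Ideal (𝓞 K) => Ideal.absNorm P)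
    (t := (PR b).filter (fun p : ℕ => a < p))]
  · apply Finset.sum_congr rfl
    intro p hp
    rw [mem_filter, mem_PR] at hp
    rw [Finset.sum_congr rfl (fun P hP => by rw [(mem_filter.1 hP).2] :
      ∀ P ∈ (PI K a b).filter (fun P => Ideal.absNorm P = p), φ (Ideal.absNorm P) = φ p),
      Finset.sum_const, card_fiber hp.1.1 hp.2 hp.1.2, nsmul_eq_mul]
  · intro P hP
    rw [mem_PI] at hP
    rw [mem_filter, mem_PR]
    exact ⟨⟨hP.1, hP.2.2⟩, hP.2.1⟩

theorem homs_le (p : ℕ) (hp : p.Prime) :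
    Nat.card (𝓞 K →+* ZMod p) ≤ Module.finrank ℚ K := by
  have h1 : p < p + 1 := by omega
  rw [← card_fiber (K := K) (a := 0) (b := p) hp (by exact_mod_cast hp.pos) le_rfl]
  apply card_over p hp
  intro P hP
  rw [mem_filter, mem_PI] at hP
  refine ⟨isPrime_of hP.1.1, ?_⟩
  rw [← hP.2]
  exact Ideal.absNorm_mem P

theorem sum_PI_le {a b : ℝ} {φ : ℕ → ℝ} (hφ : ∀ p, 0 ≤ φ p) :
    ∑ P ∈ PI K a b, φ (Ideal.absNorm P) ≤
    Module.finrank ℚ K * ∑ p ∈ (PR b).filter (fun p : ℕ => a < p), φ p := by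
  rw [sum_PI, Finset.mul_sum]
  apply Finset.sum_le_sum
  intro p hp
  rw [mem_filter, mem_PR] at hp
  apply mul_le_mul_of_nonneg_right _ (hφ p)
  exact_mod_cast homs_le p hp.1.1

theorem card_PI_le (a b : ℝ) (hb : 0 ≤ b) :
    ((PI K a b).card : ℝ) ≤ Module.finrank ℚ K * b := by
  have h1 := sum_PI_le (K := K) (a := a) (b := b) (φ := fun _ => 1) (fun _ => zero_le_one)
  rw [Finset.sum_const, Finset.sum_const, nsmul_eq_mul, nsmul_eq_mul, mul_one, mul_one] at h1
  refine h1.trans ?_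
  apply mul_le_mul_of_nonneg_left _ (Nat.cast_nonneg _)
  have h2 : ((PR b).filter (fun p : ℕ => a < p)).card ≤ ⌊b⌋₊ := by
    refine (Finset.card_filter_le _ _).trans ?_
    unfold PR
    refine (Finset.card_filter_le _ _).trans ?_
    rw [Nat.card_Icc]
    omega
  exact (Nat.cast_le.2 h2).trans (Nat.floor_le hb)

/-- Mertens' upper bound -/
theorem homs_upper (K : Type) [Field K] [NumberField K] : ∃ C : ℝ, 0 ≤ C ∧ ∃ w₀ : ℝ, ∀ w : ℝ,
    w₀ ≤ w → ∑ p ∈ PR w, (Nat.card (𝓞 K →+* ZMod p) : ℝ) / (p : ℝ) ≤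
      Real.log (Real.log w) + C := by
  obtain ⟨CR, hCR⟩ := sum_R_bdd (K := K)
  obtain ⟨CW, hCW⟩ := W_sub_Lam_bdd
  obtain ⟨M1, hM1⟩ := Pool.Agent.Helper256.KM.mertens_log
  have hM10 : 0 ≤ M1 := (abs_nonneg _).trans (hM1 1 le_rfl)
  have hboth := hCR.and hCW
  obtain ⟨u, hu1, hu⟩ := mem_nhdsGT_iff_exists_Ioo_subset.1 hboth
  simp only [Set.mem_Ioi] at hu1
  set n : ℝ := (Module.finrank ℚ K : ℝ) with hn
  have hn0 : 0 ≤ n := by positivity
  refine ⟨|CR + CW + 2 * n * (1 + M1)|, abs_nonneg _, max 3 (Real.exp (1 / (u - 1) + 1)),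
    fun w hw => ?_⟩
  have hw3 : 3 ≤ w := (le_max_left _ _).trans hw
  have hlog1 : 1 ≤ Real.log w := by
    have h1 : Real.exp 1 ≤ w := by
      have := Real.exp_one_lt_d9
      linarith
    have := Real.log_le_log (Real.exp_pos 1) h1
    rwa [Real.log_exp] at this
  have hlog0 : 0 < Real.log w := by linarith
  have hsm : 1 / (u - 1) < Real.log w := by
    have h1 : Real.exp (1 / (u - 1) + 1) ≤ w := (le_max_right _ _).trans hw
    have h2 := Real.log_le_log (Real.exp_pos _) h1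
    rw [Real.log_exp] at h2
    linarith
  have hu0 : 0 < u - 1 := by linarith
  set x : ℝ := 1 + 1 / Real.log w with hx
  have hx1 : 1 < x := by rw [hx]; linarith [show (0 : ℝ) < 1 / Real.log w by positivity]
  have hxu : x < u := by
    have : 1 / Real.log w < u - 1 := by
      rw [div_lt_iff₀ hlog0]
      rw [div_lt_iff₀ hu0] at hsm
      linarith
    rw [hx]; linarith
  obtain ⟨hA, hB⟩ := hu ⟨hx1, hxu⟩
  rw [abs_le] at hA hB
  simp only at hA hB
  have hLam : Lam x = Real.log (Real.log w) := by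
    unfold Lam
    rw [hx]
    congr 1
    field_simp
    ring
  rw [hLam] at hB
  obtain ⟨hN3, hNlow, hNlog⟩ := P1_floor hw3
  set N := ⌊w⌋₊ with hNdef
  set s : Finset Nat.Primes := Finset.subtype Nat.Prime (Finset.Icc 1 N) with hs
  have htrans : ∀ f : ℕ → ℝ, ∑ p ∈ s, f p = ∑ p ∈ PR w, f p := by
    intro f
    exact Finset.sum_subtype_eq_sum_filter (s := Finset.Icc 1 N) (p := Nat.Prime) f
  have hwsum := w_summable hx1
  have hRsum : Summable (fun p : Nat.Primes => (R K p : ℝ) * Pool.Agent.H921R2.TatePole.w x p) :=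
    bddmul_summable hx1 (C := Module.finrank ℚ K) fun p => by
      rw [abs_of_nonneg (by positivity)]; exact_mod_cast R_le p
  have hSR : ∑' p : Nat.Primes, ((R K p : ℝ) - 1) * Pool.Agent.H921R2.TatePole.w x p =
      ∑' p : Nat.Primes, (R K p : ℝ) * Pool.Agent.H921R2.TatePole.w x p - W x := by
    have e : ∀ p : Nat.Primes, ((R K p : ℝ) - 1) * Pool.Agent.H921R2.TatePole.w x p =
      (R K p : ℝ) * Pool.Agent.H921R2.TatePole.w x p - Pool.Agent.H921R2.TatePole.w x p :=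
      fun p => by ring
    rw [tsum_congr e, Summable.tsum_sub hRsum hwsum]
    rfl
  rw [hSR] at hA
  -- (a)
  have ha : ∑ p ∈ PR w, (Nat.card (𝓞 K →+* ZMod p) : ℝ) * (p : ℝ) ^ (-x) ≤
      Real.log (Real.log w) + CW + CR := by
    have h1 : ∑ p ∈ s, (R K p : ℝ) * Pool.Agent.H921R2.TatePole.w x p ≤
        ∑' p : Nat.Primes, (R K p : ℝ) * Pool.Agent.H921R2.TatePole.w x p :=
      Summable.sum_le_tsum s (fun p _ => mul_nonneg (Nat.cast_nonneg _) (w_nonneg _ _)) hRsum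
    have h2 : ∑ p ∈ s, (R K p : ℝ) * Pool.Agent.H921R2.TatePole.w x p =
        ∑ p ∈ PR w, (Nat.card (𝓞 K →+* ZMod p) : ℝ) * (p : ℝ) ^ (-x) := by
      rw [← htrans (fun p => (Nat.card (𝓞 K →+* ZMod p) : ℝ) * (p : ℝ) ^ (-x))]
      apply Finset.sum_congr rfl
      intro p _
      rw [R_eq_hc]
      rfl
    linarith [hA.2, hB.2]
  -- (b)
  have hb : ∀ p ∈ PR w, (Nat.card (𝓞 K →+* ZMod p) : ℝ) / (p : ℝ) ≤
      (Nat.card (𝓞 K →+* ZMod p) : ℝ) * (p : ℝ) ^ (-x) +
        2 * n / Real.log w * (Real.log p / p) := by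
    intro p hp
    rw [mem_PR] at hp
    have hp1 : (1:ℝ) ≤ p := by exact_mod_cast hp.1.one_lt.le
    have hp0 : (0:ℝ) < p := by linarith
    set v : ℝ := Real.log p / Real.log w with hv
    have hv0 : 0 ≤ v := div_nonneg (Real.log_nonneg hp1) hlog0.le
    have hv1 : v ≤ 1 := by
      rw [hv, div_le_one hlog0]
      exact Real.log_le_log hp0 hp.2
    have e1 : (p : ℝ) ^ (-x) = (1 / p) * Real.exp (-v) := by
      rw [Real.rpow_def_of_pos hp0, hx,
        show Real.log p * -(1 + 1 / Real.log w) = -Real.log p + -(Real.log p / Real.log w) by ring,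
        Real.exp_add, Real.exp_neg, Real.exp_log hp0]
      simp [hv]
    rw [e1]
    have h1 : 1 ≤ Real.exp (-v) + 2 * v := by
      have := Real.add_one_le_exp (-v)
      linarith
    have hh : (Nat.card (𝓞 K →+* ZMod p) : ℝ) ≤ n := by
      rw [hn]; exact_mod_cast homs_le p hp.1
    have hh0 : (0:ℝ) ≤ (Nat.card (𝓞 K →+* ZMod p) : ℝ) := Nat.cast_nonneg _
    calc (Nat.card (𝓞 K →+* ZMod p) : ℝ) / (p : ℝ)
        = (Nat.card (𝓞 K →+* ZMod p) : ℝ) * (1 / p) * 1 := by ring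
      _ ≤ (Nat.card (𝓞 K →+* ZMod p) : ℝ) * (1 / p) * (Real.exp (-v) + 2 * v) :=
          mul_le_mul_of_nonneg_left h1 (by positivity)
      _ = (Nat.card (𝓞 K →+* ZMod p) : ℝ) * (1 / p * Real.exp (-v)) +
          (Nat.card (𝓞 K →+* ZMod p) : ℝ) * (2 * v / p) := by ring
      _ ≤ (Nat.card (𝓞 K →+* ZMod p) : ℝ) * (1 / p * Real.exp (-v)) +
          n * (2 * v / p) := by
          have : (Nat.card (𝓞 K →+* ZMod p) : ℝ) * (2 * v / p) ≤ n * (2 * v / p) :=
            mul_le_mul_of_nonneg_right hh (by positivity)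
          linarith
      _ = _ := by rw [hv]; ring
  have hc := Finset.sum_le_sum hb
  rw [Finset.sum_add_distrib, ← Finset.mul_sum] at hc
  have h4 := (abs_le.1 (hM1 N (by omega))).2
  have e4 : ∑ p ∈ PR w, Real.log p / p = ∑ p ∈ (Finset.Icc 1 N).filter Nat.Prime, Real.log p / p :=
    rfl
  rw [← e4] at h4
  have h5 : 2 * n / Real.log w * ∑ p ∈ PR w, Real.log p / p ≤ 2 * n * (1 + M1) := by
    rw [div_mul_eq_mul_div, div_le_iff₀ hlog0]
    have h6 : ∑ p ∈ PR w, Real.log p / p ≤ (1 + M1) * Real.log w := by nlinarith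
    calc 2 * n * ∑ p ∈ PR w, Real.log p / p ≤ 2 * n * ((1 + M1) * Real.log w) :=
          mul_le_mul_of_nonneg_left h6 (by positivity)
      _ = _ := by ring
  have h7 := le_abs_self (CR + CW + 2 * n * (1 + M1))
  linarith

/-- the three bounds -/
theorem mertens_PI (K : Type) [Field K] [NumberField K] : ∃ A C : ℝ, 0 ≤ A ∧ 0 ≤ C ∧ ∃ w₀ : ℝ,
    3 ≤ w₀ ∧ (∀ a b : ℝ, w₀ ≤ b →
      ∑ P ∈ PI K a b, Real.log (Ideal.absNorm P) / Ideal.absNorm P ≤ A * Real.log b) ∧
    (∀ a b : ℝ, w₀ ≤ a → a ≤ b →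
      Real.log (Real.log b) - Real.log (Real.log a) - C ≤
        ∑ P ∈ PI K a b, 1 / (Ideal.absNorm P : ℝ)) ∧
    (∀ a b : ℝ, w₀ ≤ b → ∑ P ∈ PI K a b, 1 / (Ideal.absNorm P : ℝ) ≤ Real.log (Real.log b) + C) ∧
    (∀ b : ℝ, w₀ ≤ b → Real.log (Real.log b) - C ≤ ∑ P ∈ PI K 0 b, 1 / (Ideal.absNorm P : ℝ)) := by
  obtain ⟨C₁, hC₁⟩ := homs_lower K
  obtain ⟨C₂, hC₂, w₀, hw₀⟩ := homs_upper K
  obtain ⟨M1, hM1⟩ := Pool.Agent.Helper256.KM.mertens_log
  have hM10 : 0 ≤ M1 := (abs_nonneg _).trans (hM1 1 le_rfl)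
  set n : ℝ := (Module.finrank ℚ K : ℝ) with hn
  have hn0 : 0 ≤ n := by positivity
  have hall : ∀ b, ∑ P ∈ PI K 0 b, 1 / (Ideal.absNorm P : ℝ) =
      ∑ p ∈ PR b, (Nat.card (𝓞 K →+* ZMod p) : ℝ) / (p : ℝ) := by
    intro b
    have h1 := sum_PI (K := K) 0 b (fun p => 1 / (p:ℝ))
    rw [h1]
    have h2 : (PR b).filter (fun p : ℕ => (0:ℝ) < p) = PR b := by
      rw [Finset.filter_true_of_mem]
      intro p hp
      rw [mem_PR] at hp
      exact_mod_cast hp.1.pos
    rw [h2]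
    apply Finset.sum_congr rfl
    intro p _
    ring
  have hsub : ∀ a b, 0 ≤ a → a ≤ b → PI K 0 b = PI K 0 a ∪ PI K a b := by
    intro a b ha hab
    ext P
    rw [mem_union, mem_PI, mem_PI, mem_PI]
    constructor
    · rintro ⟨h1, h2, h3⟩
      rcases le_or_gt ((Ideal.absNorm P : ℕ) : ℝ) a with h | h
      · exact Or.inl ⟨h1, h2, h⟩
      · exact Or.inr ⟨h1, h, h3⟩
    · rintro (⟨h1, h2, h3⟩ | ⟨h1, h2, h3⟩)
      · exact ⟨h1, h2, h3.trans hab⟩
      · exact ⟨h1, lt_of_le_of_lt ha h2, h3⟩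
  refine ⟨n * (1 + M1), |C₁| + C₂, by positivity, by positivity, max 3 w₀, le_max_left _ _,
    ?_, ?_, ?_, ?_⟩
  · intro a b hb
    have hb3 : 3 ≤ b := (le_max_left _ _).trans hb
    have hlog1 : 1 ≤ Real.log b := by
      have h1 : Real.exp 1 ≤ b := by
        have := Real.exp_one_lt_d9
        linarith
      have := Real.log_le_log (Real.exp_pos 1) h1
      rwa [Real.log_exp] at this
    have h1 := sum_PI_le (K := K) (a := a) (b := b) (φ := fun p => Real.log p / p)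
      (fun p => div_nonneg (Real.log_natCast_nonneg p) (Nat.cast_nonneg p))
    refine h1.trans ?_
    rw [mul_assoc]
    apply mul_le_mul_of_nonneg_left _ hn0
    obtain ⟨hN3, hNlow, hNlog⟩ := P1_floor hb3
    have h4 := (abs_le.1 (hM1 ⌊b⌋₊ (by omega))).2
    have e4 : ∑ p ∈ PR b, Real.log p / p =
      ∑ p ∈ (Finset.Icc 1 ⌊b⌋₊).filter Nat.Prime, Real.log p / p := rfl
    rw [← e4] at h4
    have h5 : ∑ p ∈ (PR b).filter (fun p : ℕ => a < p), Real.log p / p ≤
        ∑ p ∈ PR b, Real.log p / p :=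
      Finset.sum_le_sum_of_subset_of_nonneg (Finset.filter_subset _ _)
        (fun p _ _ => div_nonneg (Real.log_natCast_nonneg p) (Nat.cast_nonneg p))
    nlinarith
  · intro a b ha hab
    have ha3 : 3 ≤ a := (le_max_left _ _).trans ha
    have haw : w₀ ≤ a := (le_max_right _ _).trans ha
    have h1 := hC₁ b (ha3.trans hab)
    have h2 := hw₀ a haw
    rw [← hall] at h1 h2
    have hdis : Disjoint (PI K 0 a) (PI K a b) := by
      rw [Finset.disjoint_left]
      intro P h3 h4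
      rw [mem_PI] at h3 h4
      linarith [h3.2.2, h4.2.1]
    rw [hsub a b (by linarith) hab, Finset.sum_union hdis] at h1
    have := le_abs_self C₁
    linarith
  · intro a b hb
    have hbw : w₀ ≤ b := (le_max_right _ _).trans hb
    have h2 := hw₀ b hbw
    rw [← hall] at h2
    have h3 : ∑ P ∈ PI K a b, 1 / (Ideal.absNorm P : ℝ) ≤
        ∑ P ∈ PI K 0 b, 1 / (Ideal.absNorm P : ℝ) := by
      apply Finset.sum_le_sum_of_subset_of_nonneg
      · intro P hP
        rw [mem_PI] at hP ⊢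
        exact ⟨hP.1, by exact_mod_cast hP.1.pos, hP.2.2⟩
      · intro P _ _
        positivity
    have := abs_nonneg C₁
    linarith
  · intro b hb
    have hb3 : 3 ≤ b := (le_max_left _ _).trans hb
    have h1 := hC₁ b hb3
    rw [← hall] at h1
    have := le_abs_self C₁
    linarith

end Pool.Agent.H525.NF
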