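import Pool.Agent.H525.NF.Lat

set_option autoImplicit false
set_option linter.unusedSectionVars false

/-! # Norm forms: basic facts -/

namespace Pool.Agent.H525.NF

open Finset NumberField

open scoped Classical

variable {K : Type} [Field K] [NumberField K] {ι : Type} [Fintype ι]

/-- the integer of `K` with the coordinates `x` -/
noncomputable def th (α : ι → 𝓞 K) : (ι → ℤ) →ₗ[ℤ] 𝓞 K := Fintype.linearCombination ℤ α

theorem th_apply (α : ι → 𝓞 K) (x : ι → ℤ) : th α x = ∑ i, x i • α i :=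
  Fintype.linearCombination_apply ℤ α x

theorem th_inj {α : ι → 𝓞 K} (h : LinearIndependent ℤ α) : Function.Injective (th α) :=
  linearIndependent_iff_injective_fintypeLinearCombination.1 h

theorem exists_D {α : ι → 𝓞 K} (h : LinearIndependent ℤ α)
    (hc : Fintype.card ι = Module.finrank ℚ K) :
    ∃ D : ℕ, 0 < D ∧ ∀ t : 𝓞 K, ∃ x, th α x = (D : ℤ) • t := by
  have h1 : Module.finrank ℤ (LinearMap.range (th α)) = Module.finrank ℤ (𝓞 K) := by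
    rw [LinearMap.finrank_range_of_inj (th_inj h), RingOfIntegers.rank, ← hc,
      Module.finrank_fintype_fun_eq_card]
  have h2 : Finite (𝓞 K ⧸ LinearMap.range (th α)) := Submodule.finiteQuotientOfFreeOfRankEq _ h1
  refine ⟨Nat.card (𝓞 K ⧸ LinearMap.range (th α)), Nat.card_pos, fun t => ?_⟩
  have h3 := AddSubgroup.nsmul_index_mem (LinearMap.range (th α)).toAddSubgroup t
  obtain ⟨x, hx⟩ := h3
  refine ⟨x, ?_⟩
  rw [hx, natCast_zsmul]
  rfl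

theorem norm_eq (x : 𝓞 K) : |((Algebra.norm ℤ x : ℤ) : ℝ)| = ∏ σ : K →ₐ[ℚ] ℂ, ‖σ x‖ := by
  have h1 := Algebra.norm_eq_prod_embeddings ℚ ℂ (x : K)
  have h2 : algebraMap ℚ ℂ (Algebra.norm ℚ (x : K)) = ((Algebra.norm ℤ x : ℤ) : ℂ) := by
    rw [← Algebra.coe_norm_int]
    simp
  rw [h2] at h1
  have h3 := congrArg norm h1
  rw [norm_prod] at h3
  rw [← h3, Complex.norm_intCast]

theorem card_emb : Fintype.card (K →ₐ[ℚ] ℂ) = Module.finrank ℚ K := AlgHom.card ℚ K ℂ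

theorem emb_bound (α : ι → 𝓞 K) : ∃ C₁ : ℝ, 1 ≤ C₁ ∧ ∀ (σ : K →ₐ[ℚ] ℂ) (x : ι → ℤ) (r : ℝ),
    0 ≤ r → (∀ i, |((x i : ℤ) : ℝ)| ≤ r) → ‖σ (th α x : 𝓞 K)‖ ≤ C₁ * r := by
  set C₁ : ℝ := 1 + ∑ σ : K →ₐ[ℚ] ℂ, ∑ i, ‖σ (α i : K)‖ with hC₁
  refine ⟨C₁, ?_, ?_⟩
  · have : 0 ≤ ∑ σ : K →ₐ[ℚ] ℂ, ∑ i, ‖σ (α i : K)‖ :=
      Finset.sum_nonneg (fun _ _ => Finset.sum_nonneg (fun _ _ => norm_nonneg _))
    linarith
  · intro σ x r hr hx
    have h1 : (σ (th α x : 𝓞 K) : ℂ) = ∑ i, (x i : ℂ) * σ (α i : K) := by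
      rw [th_apply]
      simp
    rw [h1]
    have h2 : ‖∑ i, (x i : ℂ) * σ (α i : K)‖ ≤ ∑ i, r * ‖σ (α i : K)‖ := by
      refine norm_sum_le_of_le _ (fun i _ => ?_)
      rw [norm_mul, Complex.norm_intCast]
      exact mul_le_mul_of_nonneg_right (hx i) (norm_nonneg _)
    refine h2.trans ?_
    rw [← Finset.mul_sum, mul_comm]
    apply mul_le_mul_of_nonneg_right _ hr
    have h3 : ∑ i, ‖σ (α i : K)‖ ≤ ∑ σ : K →ₐ[ℚ] ℂ, ∑ i, ‖σ (α i : K)‖ :=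
      Finset.single_le_sum (f := fun σ : K →ₐ[ℚ] ℂ => ∑ i, ‖σ (α i : K)‖)
        (fun _ _ => Finset.sum_nonneg (fun _ _ => norm_nonneg _)) (mem_univ σ)
    linarith

theorem norm_le {α : ι → 𝓞 K} (hc : Fintype.card ι = Module.finrank ℚ K) {C₁ : ℝ}
    (h : ∀ (σ : K →ₐ[ℚ] ℂ) (x : ι → ℤ) (r : ℝ),
    0 ≤ r → (∀ i, |((x i : ℤ) : ℝ)| ≤ r) → ‖σ (th α x : 𝓞 K)‖ ≤ C₁ * r) (x : ι → ℤ) (r : ℝ)
    (hr : 0 ≤ r) (hx : ∀ i, |((x i : ℤ) : ℝ)| ≤ r) :
    |((Algebra.norm ℤ (th α x) : ℤ) : ℝ)| ≤ (C₁ * r) ^ Fintype.card ι := by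
  rw [norm_eq, hc, ← card_emb (K := K), ← Finset.card_univ, ← Finset.prod_const]
  exact Finset.prod_le_prod (fun _ _ => norm_nonneg _) (fun σ _ => h σ x r hr hx)

/-- embeddings do not vanish -/
theorem emb_ne {α : ι → 𝓞 K} (h : LinearIndependent ℤ α) : ∃ δ : ℝ, 0 < δ ∧
    ∀ (σ : K →ₐ[ℚ] ℂ) (i : ι), δ ≤ ‖σ (α i : K)‖ := by
  have hpos : ∀ (σ : K →ₐ[ℚ] ℂ) (i : ι), 0 < ‖σ (α i : K)‖ := by
    intro σ i
    rw [norm_pos_iff]
    intro h0
    have h1 : (α i : K) = 0 := (map_eq_zero σ).1 h0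
    exact h.ne_zero i (by exact_mod_cast h1)
  rcases isEmpty_or_nonempty ((K →ₐ[ℚ] ℂ) × ι) with he | hne
  · exact ⟨1, one_pos, fun σ i => (he.false (σ, i)).elim⟩
  · obtain ⟨a, ha⟩ := Finite.exists_min (fun q : (K →ₐ[ℚ] ℂ) × ι => ‖q.1 (α q.2 : K)‖)
    exact ⟨‖a.1 (α a.2 : K)‖, hpos _ _, fun σ i => ha (σ, i)⟩

/-- the norm of an ideal is at most the norm of its nonzero elements -/
theorem absNorm_le_of_mem {I : Ideal (𝓞 K)} {x : 𝓞 K} (hx : x ∈ I) (hx0 : x ≠ 0) :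
    (Ideal.absNorm I : ℝ) ≤ |((Algebra.norm ℤ x : ℤ) : ℝ)| := by
  have h1 := Ideal.absNorm_dvd_norm_of_mem hx
  have h2 : Algebra.norm ℤ x ≠ 0 := by
    rwa [Ne, Algebra.norm_eq_zero_iff]
  have h3 := Int.le_of_dvd (abs_pos.2 h2) ((dvd_abs _ _).2 h1)
  exact_mod_cast h3

theorem one_le_norm {x : 𝓞 K} (hx0 : x ≠ 0) : 1 ≤ |((Algebra.norm ℤ x : ℤ) : ℝ)| := by
  have h2 : Algebra.norm ℤ x ≠ 0 := by
    rwa [Ne, Algebra.norm_eq_zero_iff]
  have := Int.one_le_abs h2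
  exact_mod_cast this

/-- the points of the cube in an ideal -/
theorem ideal_count {α : ι → 𝓞 K} (hα : LinearIndependent ℤ α)
    (hc : Fintype.card ι = Module.finrank ℚ K) : ∃ C : ℝ, 0 < C ∧ ∀ (I : Ideal (𝓞 K)) (R : ℕ),
      I ≠ ⊥ → ∀ S : Finset (ι → ℤ), (∀ w ∈ S, (∀ i, |w i| ≤ R) ∧ w ≠ 0 ∧ th α w ∈ I) →
      (S.card : ℝ) ≤ C * ((R : ℝ) ^ Fintype.card ι / Ideal.absNorm I) := by
  obtain ⟨C₁, hC₁, hemb⟩ := emb_bound α
  have hC₁0 : 0 < C₁ := by linarith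
  set d := Fintype.card ι with hd
  have hd0 : 0 < d := by rw [hc]; exact Module.finrank_pos
  refine ⟨(8 * C₁) ^ d, by positivity, ?_⟩
  intro I R hI S hS
  have hN0 : (0:ℝ) < Ideal.absNorm I := by
    have : Ideal.absNorm I ≠ 0 := by rwa [Ne, Ideal.absNorm_eq_zero_iff]
    exact_mod_cast Nat.pos_of_ne_zero this
  set N : ℝ := ((Ideal.absNorm I : ℕ) : ℝ) with hN
  rcases S.eq_empty_or_nonempty with h0 | ⟨w₀, hw₀⟩
  · rw [h0, Finset.card_empty, Nat.cast_zero]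
    positivity
  have hNR : N ≤ (C₁ * R) ^ d := by
    obtain ⟨h1, h2, h3⟩ := hS w₀ hw₀
    have h4 : th α w₀ ≠ 0 := fun h => h2 (th_inj hα (by rw [h, map_zero]))
    refine (absNorm_le_of_mem h3 h4).trans ?_
    apply norm_le hc hemb w₀ R (Nat.cast_nonneg _)
    intro i
    have := h1 i
    exact_mod_cast this
  set u : ℝ := N ^ ((1:ℝ) / d) with hu
  have hu0 : 0 < u := Real.rpow_pos_of_pos hN0 _
  have hud : u ^ d = N := by
    rw [hu, ← Real.rpow_natCast, ← Real.rpow_mul hN0.le, one_div,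
      inv_mul_cancel₀ (by exact_mod_cast hd0.ne'), Real.rpow_one]
  set s : ℝ := u / (2 * C₁) with hs
  have hs0 : 0 < s := by positivity
  have hcount := packing R s hs0 S (fun w hw => (hS w hw).1) (by
    intro w hw w' hw' hne
    by_contra hcon
    push Not at hcon
    have h4 : th α (w - w') ≠ 0 := fun h => hne (by
      have := th_inj hα (by rw [h, map_zero] : th α (w - w') = th α 0)
      exact sub_eq_zero.1 this)
    have h5 : th α (w - w') ∈ I := by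
      rw [map_sub]
      exact I.sub_mem (hS w hw).2.2 (hS w' hw').2.2
    have h6 := absNorm_le_of_mem h5 h4
    have h7 := norm_le hc hemb (w - w') s hs0.le (fun i => by
      have := (hcon i).le
      push_cast [Pi.sub_apply]
      exact this)
    have h8 : (C₁ * s) ^ d < N := by
      have h9 : C₁ * s = u / 2 := by rw [hs]; field_simp
      rw [h9, ← hud]
      exact pow_lt_pow_left₀ (by linarith) (by positivity) hd0.ne'
    linarith)
  refine hcount.trans ?_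
  have huR : u ≤ C₁ * R := by
    by_contra hcon
    push Not at hcon
    have := pow_lt_pow_left₀ hcon (by positivity) hd0.ne'
    rw [hud] at this
    linarith
  have h1 : 2 * (R:ℝ) / s + 2 ≤ 8 * C₁ * (R / u) := by
    have h2 : 2 * (R:ℝ) / s = 4 * C₁ * (R / u) := by rw [hs]; field_simp; ring
    have h3 : 1 ≤ C₁ * (R / u) := by
      rw [← mul_div_assoc, le_div_iff₀ hu0]
      linarith
    rw [h2]
    nlinarith
  calc (2 * (R:ℝ) / s + 2) ^ d ≤ (8 * C₁ * (R / u)) ^ d :=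
        pow_le_pow_left₀ (by positivity) h1 d
    _ = (8 * C₁) ^ d * ((R:ℝ) ^ d / N) := by rw [mul_pow, div_pow, hud]

end Pool.Agent.H525.NF
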