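import Pool.Agent.H525.NF.Sieve

set_option autoImplicit false
set_option linter.unusedSectionVars false

/-! # The survivors of the first stage -/

namespace Pool.Agent.H525.NF

open Finset NumberField Filter
open Pool.Agent.H474R2.PG
open Pool.Agent.H921R2.TatePole

open scoped Classical

variable {K : Type} [Field K] [NumberField K] {ι : Type} [Fintype ι]

/-- residues modulo prime ideals of degree one -/
theorem exists_res {P : Ideal (𝓞 K)} (hP : (Ideal.absNorm P).Prime) (x : 𝓞 K) :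
    ∃ r : ℕ, r < Ideal.absNorm P ∧ x - (r : 𝓞 K) ∈ P := by
  set p := Ideal.absNorm P with hp
  have : Fact p.Prime := ⟨hP⟩
  have hcard : Nat.card (𝓞 K ⧸ P) = p := rfl
  have hfin : Finite (𝓞 K ⧸ P) := Nat.finite_of_card_ne_zero (by rw [hcard]; exact hP.ne_zero)
  have := Fintype.ofFinite (𝓞 K ⧸ P)
  have hc' : Fintype.card (𝓞 K ⧸ P) = p := by
    rw [← Nat.card_eq_fintype_card]; exact hcard
  set e := ZMod.ringEquivOfPrime (𝓞 K ⧸ P) hP hc' with he
  set v : ZMod p := e.symm (Ideal.Quotient.mk P x) with hv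
  refine ⟨v.val, ZMod.val_lt v, ?_⟩
  have h1 : e v = Ideal.Quotient.mk P x := by rw [hv]; exact e.apply_symm_apply _
  have h2 : e v = Ideal.Quotient.mk P ((v.val : ℕ) : 𝓞 K) := by
    conv_lhs => rw [← ZMod.natCast_zmod_val v]
    rw [map_natCast, map_natCast]
  rw [h1] at h2
  exact Ideal.Quotient.eq.1 h2

/-- the residue -/
noncomputable def res (P : Ideal (𝓞 K)) (x : 𝓞 K) : ℕ :=
  if h : (Ideal.absNorm P).Prime then (exists_res h x).choose else 0

theorem res_spec {P : Ideal (𝓞 K)} (hP : (Ideal.absNorm P).Prime) (x : 𝓞 K) :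
    res P x < Ideal.absNorm P ∧ x - (res P x : 𝓞 K) ∈ P := by
  unfold res
  rw [dif_pos hP]
  exact (exists_res hP x).choose_spec

theorem survivors (α : ι → 𝓞 K) (hα : LinearIndependent ℤ α)
    (hc : Fintype.card ι = Module.finrank ℚ K) (D : ℕ) (hD0 : 0 < D)
    (hD : ∀ t : 𝓞 K, ∃ x, th α x = (D : ℤ) • t) : ∃ C y₀ : ℝ, 0 < C ∧ ∀ y : ℝ, y₀ ≤ y →
    ∀ R : ℕ, y ≤ (R : ℝ) ^ Fintype.card ι →
      (R : ℝ) ^ Fintype.card ι ≤ y * (Real.log y) ^ 3 → ∃ b : ι → ℤ, ∀ S : Finset (ι → ℤ),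
        (∀ h ∈ S, (∀ i, |h i| ≤ R) ∧ ∀ P : Ideal (𝓞 K), (Ideal.absNorm P).Prime →
          (Ideal.absNorm P : ℝ) ≤ y → ¬ Ideal.absNorm P ∣ D → th α (b + h) ∉ P) →
        (S.card : ℝ) ≤ C * ((R : ℝ) ^ Fintype.card ι * (Real.log (Real.log y)) ^ 2 /
          ((Real.log y) ^ 2 * Real.log (Real.log (Real.log y)))) := by
  obtain ⟨C, A₀, B, hC, hA₀, hT⟩ := T_card α hα hc
  obtain ⟨A, C', hA, hC', w₀, hw₀, -, -, -, hmert⟩ := mertens_PI K
  set E : ℝ := C' + Module.finrank ℚ K * D with hE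
  obtain ⟨y₀, hy₀⟩ := ev_sieve (max (max B A₀) (max (Real.log w₀) (Real.log D)))
  refine ⟨C * (A₀ * Real.exp E), y₀, by positivity, ?_⟩
  intro y hy R hyR hRy
  obtain ⟨f1, f2, f3, f4, f5⟩ := hy₀ y hy _ _ _ rfl rfl rfl
  set l1 := Real.log y with hl1
  set l2 := Real.log l1 with hl2
  set l3 := Real.log l2 with hl3
  set BB := max (max B A₀) (max (Real.log w₀) (Real.log D)) with hBB
  have hBB1 : B ≤ BB := (le_max_left _ _).trans (le_max_left _ _)
  have hBB2 : A₀ ≤ BB := (le_max_right _ _).trans (le_max_left _ _)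
  have hBB3 : Real.log w₀ ≤ BB := (le_max_left _ _).trans (le_max_right _ _)
  have hBB4 : Real.log D ≤ BB := (le_max_right _ _).trans (le_max_right _ _)
  have h1l2 : 1 ≤ l2 := by linarith
  have hl20 : 0 < l2 := by linarith
  have hl2sq : l2 ≤ l2 ^ 2 := by nlinarith only [h1l2]
  have hBB0 : 1 ≤ BB := by linarith
  have hl12 : l2 ≤ l1 := by nlinarith only [hl2sq, hBB0, f4]
  have h1l1 : 1 ≤ l1 := by linarith
  have hl10 : 0 < l1 := by linarith
  have hy0 : 0 < y := by linarith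
  have hA₀0 : 0 < A₀ := by linarith
  set z : ℝ := Real.exp (l1 * l3 / (A₀ * l2)) with hz
  have hlz : Real.log z = l1 * l3 / (A₀ * l2) := by rw [hz, Real.log_exp]
  have hlz1 : BB ≤ Real.log z := by
    rw [hlz, le_div_iff₀ (by positivity)]
    have h1 : A₀ * l2 ≤ l2 ^ 2 := by nlinarith only [hBB2, f1, f3, hl20]
    nlinarith only [h1, hBB0, f4, f2, hl10]
  have hlzy : Real.log z ≤ l1 := by
    rw [hlz, div_le_iff₀ (by positivity)]
    have : l3 ≤ A₀ * l2 := by nlinarith only [f3, hA₀, hl20]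
    nlinarith only [this, hl10]
  have hz0 : 0 < z := Real.exp_pos _
  have hzy : z ≤ y := (Real.log_le_log_iff hz0 hy0).1 hlzy
  have hzw : w₀ ≤ z := (Real.log_le_log_iff (by linarith) hz0).1 (hBB3.trans hlz1)
  have hDR : (0:ℝ) < D := by exact_mod_cast hD0
  have hzD : (D:ℝ) ≤ z := (Real.log_le_log_iff hDR hz0).1 (hBB4.trans hlz1)
  -- the set `T`
  set T : Finset (ι → ℤ) := (Box (fun _ => -(R:ℤ)) (2 * R + 1)).filter
    (fun w => ∀ P ∈ PI K z y, th α w ∉ P) with hTdef
  have hTcard := hT y l1 l2 l3 R f5 hl1 hl2 hl3 f2 f3 ((hBB1.trans f1).trans f3)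
    ((mul_le_mul_of_nonneg_right hBB1 (sq_nonneg _)).trans f4) hyR hRy T (by
      intro w hw i
      rw [hTdef, mem_filter, mem_Box] at hw
      have := hw.1 i
      rw [abs_le]
      push_cast at this
      omega) (by
      intro w hw
      rw [hTdef, mem_filter] at hw
      exact hw.2)
  -- the small primes
  set S₁ := (PI K 0 z).filter (fun P => ¬ Ideal.absNorm P ∣ D) with hS₁
  have hS₁p : ∀ P ∈ S₁, (Ideal.absNorm P).Prime := by
    intro P hP
    rw [hS₁, mem_filter, mem_PI] at hP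
    exact hP.1.1
  obtain ⟨c, hc1, hc2⟩ := Pool.Agent.H525.AC.greedy' T S₁ (fun P h => res P (th α h))
    (fun P => Finset.range (Ideal.absNorm P))
    (by
      intro P hP h _
      rw [Finset.mem_range]
      exact (res_spec (hS₁p P hP) _).1)
    (by
      intro P hP
      exact ⟨0, Finset.mem_range.2 (hS₁p P hP).pos⟩)
  have hprod : ∏ P ∈ S₁, (1 - 1 / (((Finset.range (Ideal.absNorm P)).card : ℕ) : ℝ)) ≤
      Real.exp E / Real.log z := by
    have h1 : ∏ P ∈ S₁, (1 - 1 / (((Finset.range (Ideal.absNorm P)).card : ℕ) : ℝ)) =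
        ∏ P ∈ S₁, (1 - 1 / ((Ideal.absNorm P : ℕ) : ℝ)) := by
      apply Finset.prod_congr rfl
      intro P _
      rw [Finset.card_range]
    rw [h1]
    refine (Pool.Agent.H525.AC.prod_le_exp S₁ (fun P => ((Ideal.absNorm P : ℕ) : ℝ))
      (fun P hP => by exact_mod_cast (hS₁p P hP).one_lt.le)).trans ?_
    have hlz0 : 0 < Real.log z := by linarith
    have h2 : Real.exp E / Real.log z = Real.exp (E - Real.log (Real.log z)) := by
      rw [Real.exp_sub, Real.exp_log hlz0]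
    rw [h2]
    apply Real.exp_le_exp.2
    have h3 := hmert z hzw
    have h4 := Finset.sum_filter_add_sum_filter_not (PI K 0 z) (fun P => ¬ Ideal.absNorm P ∣ D)
      (fun P => 1 / ((Ideal.absNorm P : ℕ) : ℝ))
    have h5 : ∑ P ∈ (PI K 0 z).filter (fun P => ¬ ¬ Ideal.absNorm P ∣ D),
        1 / ((Ideal.absNorm P : ℕ) : ℝ) ≤ Module.finrank ℚ K * D := by
      have h6 : (PI K 0 z).filter (fun P => ¬ ¬ Ideal.absNorm P ∣ D) ⊆ PI K 0 D := by
        intro P hP
        rw [mem_filter, mem_PI, not_not] at hP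
        rw [mem_PI]
        exact ⟨hP.1.1, hP.1.2.1, by exact_mod_cast Nat.le_of_dvd hD0 hP.2⟩
      calc ∑ P ∈ (PI K 0 z).filter (fun P => ¬ ¬ Ideal.absNorm P ∣ D),
          1 / ((Ideal.absNorm P : ℕ) : ℝ) ≤ ∑ P ∈ PI K 0 D, 1 / ((Ideal.absNorm P : ℕ) : ℝ) :=
            Finset.sum_le_sum_of_subset_of_nonneg h6 (fun _ _ _ => by positivity)
        _ ≤ ∑ P ∈ PI K 0 D, (1:ℝ) := by
            apply Finset.sum_le_sum
            intro P hP
            rw [mem_PI] at hP
            have h7 : (1:ℝ) ≤ Ideal.absNorm P := by exact_mod_cast hP.1.one_lt.le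
            rw [div_le_one (by linarith)]
            exact h7
        _ = ((PI K 0 D).card : ℝ) := by rw [Finset.sum_const, nsmul_eq_mul, mul_one]
        _ ≤ _ := card_PI_le 0 D hDR.le
    rw [← hS₁] at h4
    linarith
  -- the residue class
  set S₂ := S₁ ∪ PI K z y with hS₂
  have hS₂p : ∀ P ∈ S₂, (Ideal.absNorm P).Prime ∧ ¬ (Ideal.absNorm P : ℤ) ∣ 1 * D := by
    intro P hP
    rw [hS₂, mem_union] at hP
    rw [one_mul, Int.natCast_dvd_natCast]
    rcases hP with hP | hP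
    · rw [hS₁, mem_filter, mem_PI] at hP
      exact ⟨hP.1.1, hP.2⟩
    · rw [mem_PI] at hP
      refine ⟨hP.1, fun h => ?_⟩
      have h1 : (Ideal.absNorm P : ℝ) ≤ D := by exact_mod_cast Nat.le_of_dvd hD0 h
      linarith [hP.2.1]
  obtain ⟨b, hb⟩ := lift_crt α D hD 1 S₂ (fun P => P) (fun P hP => (hS₂p P hP).1)
    (fun P _ Q _ h => h) (fun P hP => (hS₂p P hP).2)
    (fun P => if P ∈ S₁ then -(c P : 𝓞 K) else 0)
  refine ⟨b, ?_⟩
  intro S hS
  have hsub : ∀ h ∈ S, h ∈ T ∧ ∀ P ∈ S₁, res P (th α h) ≠ c P := by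
    intro h hh
    obtain ⟨h1, h2⟩ := hS h hh
    rw [hTdef, mem_filter, mem_Box]
    refine ⟨⟨fun i => ?_, ?_⟩, ?_⟩
    · have := h1 i
      rw [abs_le] at this
      push_cast
      omega
    · intro P hP hhP
      have h3 := hb P (mem_union_right _ hP)
      have h4 : P ∉ S₁ := by
        intro h5
        rw [hS₁, mem_filter, mem_PI] at h5
        rw [mem_PI] at hP
        linarith [h5.1.2.2, hP.2.1]
      simp only [if_neg h4, sub_zero, one_smul] at h3
      rw [mem_PI] at hP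
      have h6 := (hS₂p P (mem_union_right _ (mem_PI.2 hP))).2
      rw [one_mul, Int.natCast_dvd_natCast] at h6
      apply h2 P hP.1 hP.2.2 h6
      rw [map_add]
      exact P.add_mem h3 hhP
    · intro P hP hPc
      have h3 := hb P (mem_union_left _ hP)
      simp only [if_pos hP, one_smul, sub_neg_eq_add] at h3
      have h4 := (res_spec (hS₁p P hP) (th α h)).2
      rw [hPc] at h4
      have hP' := hP
      rw [hS₁, mem_filter, mem_PI] at hP'
      apply h2 P hP'.1.1 (hP'.1.2.2.trans hzy) hP'.2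
      rw [map_add]
      have h5 : th α b + th α h = (th α b + (c P : 𝓞 K)) + (th α h - (c P : 𝓞 K)) := by ring
      rw [h5]
      exact P.add_mem h3 h4
  refine (hc2 S hsub).trans ?_
  calc (T.card : ℝ) * ∏ P ∈ S₁, (1 - 1 / (((Finset.range (Ideal.absNorm P)).card : ℕ) : ℝ))
      ≤ (T.card : ℝ) * (Real.exp E / Real.log z) :=
        mul_le_mul_of_nonneg_left hprod (Nat.cast_nonneg _)
    _ ≤ (C * ((R : ℝ) ^ Fintype.card ι * l2 / l1)) * (Real.exp E / Real.log z) := by
        apply mul_le_mul_of_nonneg_right hTcard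
        exact div_nonneg (Real.exp_pos _).le (by linarith)
    _ = C * (A₀ * Real.exp E) * ((R : ℝ) ^ Fintype.card ι * l2 ^ 2 / (l1 ^ 2 * l3)) := by
        rw [hlz]
        have : l3 ≠ 0 := by linarith
        field_simp

end Pool.Agent.H525.NF
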