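import Mathlib

set_option autoImplicit false

/-! # Counting points of boxes -/

namespace Pool.Agent.H525.NF

open Finset

open scoped Classical

variable {ι : Type} [Fintype ι]

/-- the box `∏ [a_i, a_i + W)` -/
noncomputable def Box (a : ι → ℤ) (W : ℕ) : Finset (ι → ℤ) :=
  Fintype.piFinset (fun i => Finset.Ico (a i) (a i + W))

theorem mem_Box {a w : ι → ℤ} {W : ℕ} : w ∈ Box a W ↔ ∀ i, a i ≤ w i ∧ w i < a i + W := by
  unfold Box
  rw [Fintype.mem_piFinset]
  simp only [Finset.mem_Ico]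

theorem card_Box (a : ι → ℤ) (W : ℕ) : (Box a W).card = W ^ Fintype.card ι := by
  unfold Box
  rw [Fintype.card_piFinset]
  simp

/-- translation -/
theorem count_shift {G : Type} [AddCommGroup G] (π : (ι → ℤ) →+ G) (Q : ℕ) (a v : ι → ℤ) (W : ℕ)
    (hv : ∀ i, 0 ≤ v i ∧ v i ≤ Q) (g g' : G) (hg : π v = g' - g) :
    (((Box a W).filter (fun w => π w = g)).card : ℝ) ≤
      ((Box a W).filter (fun w => π w = g')).card + (((W : ℝ) + Q) ^ Fintype.card ι -
        (W : ℝ) ^ Fintype.card ι) := by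
  -- the points of the translated box
  have h1 : ((Box a W).filter (fun w => π w = g)).card ≤
      ((Box a (W + Q)).filter (fun w => π w = g')).card := by
    apply Finset.card_le_card_of_injOn (fun w => w + v)
    · intro w hw
      rw [Finset.mem_coe, mem_filter, mem_Box] at hw
      rw [Finset.mem_coe, mem_filter, mem_Box]
      refine ⟨fun i => ?_, ?_⟩
      · have h2 := hw.1 i
        have h3 := hv i
        push_cast
        rw [Pi.add_apply]
        omega
      · rw [map_add, hw.2, hg]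
        abel
    · intro w _ w' _ h
      exact add_right_cancel h
  have h2 : ((Box a (W + Q)).filter (fun w => π w = g')).card ≤
      ((Box a W).filter (fun w => π w = g')).card + (Box a (W + Q) \ Box a W).card := by
    rw [← Finset.card_union_of_disjoint]
    · apply Finset.card_le_card
      intro w hw
      rw [mem_filter] at hw
      rw [mem_union, mem_filter, mem_sdiff]
      by_cases h : w ∈ Box a W
      · exact Or.inl ⟨h, hw.2⟩
      · exact Or.inr ⟨hw.1, h⟩
    · rw [Finset.disjoint_left]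
      intro w hw hw'
      rw [mem_filter] at hw
      rw [mem_sdiff] at hw'
      exact hw'.2 hw.1
  have h3 : Box a W ⊆ Box a (W + Q) := by
    intro w hw
    rw [mem_Box] at hw ⊢
    intro i
    have := hw i
    push_cast
    omega
  have h4 := Finset.card_sdiff_add_card_eq_card h3
  rw [card_Box, card_Box] at h4
  have h5 : ((Box a (W + Q) \ Box a W).card : ℝ) = ((W : ℝ) + Q) ^ Fintype.card ι -
        (W : ℝ) ^ Fintype.card ι := by
    have : ((Box a (W + Q) \ Box a W).card : ℝ) + (W : ℝ) ^ Fintype.card ι =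
        ((W : ℝ) + Q) ^ Fintype.card ι := by exact_mod_cast h4
    linarith
  rw [← h5]
  exact_mod_cast h1.trans h2

/-- equidistribution of the classes of a finite quotient of `ℤ^d` in a box -/
theorem count_hom {G : Type} [AddCommGroup G] [Fintype G] (π : (ι → ℤ) →+ G)
    (hπ : Function.Surjective π) (Q : ℕ) (hQ0 : 0 < Q) (hQ : ∀ v, π ((Q : ℤ) • v) = 0)
    (a : ι → ℤ) (W : ℕ) (g : G) :
    |(((Box a W).filter (fun w => π w = g)).card : ℝ) -
      (W : ℝ) ^ Fintype.card ι / Fintype.card G| ≤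
      ((W : ℝ) + Q) ^ Fintype.card ι - (W : ℝ) ^ Fintype.card ι := by
  set E : ℝ := ((W : ℝ) + Q) ^ Fintype.card ι - (W : ℝ) ^ Fintype.card ι with hE
  set N : G → ℝ := fun g => (((Box a W).filter (fun w => π w = g)).card : ℝ) with hN
  have hv : ∀ x : G, ∃ v : ι → ℤ, (∀ i, 0 ≤ v i ∧ v i ≤ Q) ∧ π v = x := by
    intro x
    obtain ⟨v, hv⟩ := hπ x
    refine ⟨fun i => v i % Q, fun i => ⟨Int.emod_nonneg _ (by omega),
      (Int.emod_lt_of_pos _ (by omega)).le⟩, ?_⟩
    have h1 : v = (fun i => v i % Q) + (Q : ℤ) • (fun i => v i / Q) := by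
      ext i
      simp only [Pi.add_apply, Pi.smul_apply, smul_eq_mul]
      rw [Int.emod_add_mul_ediv]
    have h2 := congrArg π h1
    rw [map_add, hQ, add_zero] at h2
    rw [← h2, hv]
  have hcmp : ∀ x y : G, N x ≤ N y + E := by
    intro x y
    obtain ⟨v, hv1, hv2⟩ := hv (y - x)
    exact count_shift π Q a v W hv1 x y hv2
  have hsum : ∑ x : G, N x = (W : ℝ) ^ Fintype.card ι := by
    have h1 := Finset.card_eq_sum_card_fiberwise (f := π) (s := Box a W) (t := univ)
      (fun w _ => Finset.mem_coe.2 (Finset.mem_univ _))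
    rw [card_Box] at h1
    have h2 : ((W ^ Fintype.card ι : ℕ) : ℝ) = ∑ x : G, N x := by
      rw [h1]
      push_cast
      rfl
    rw [← h2]
    push_cast
    rfl
  have hG : (0:ℝ) < Fintype.card G := by
    have : Nonempty G := ⟨0⟩
    exact_mod_cast Fintype.card_pos
  have hup : Fintype.card G * N g ≤ (W : ℝ) ^ Fintype.card ι + Fintype.card G * E := by
    have h1 : ∑ x : G, N g ≤ ∑ x : G, (N x + E) := Finset.sum_le_sum (fun x _ => hcmp g x)
    rw [Finset.sum_add_distrib, hsum, Finset.sum_const, Finset.sum_const, Finset.card_univ,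
      nsmul_eq_mul, nsmul_eq_mul] at h1
    exact h1
  have hlo : (W : ℝ) ^ Fintype.card ι ≤ Fintype.card G * N g + Fintype.card G * E := by
    have h1 : ∑ x : G, N x ≤ ∑ x : G, (N g + E) := Finset.sum_le_sum (fun x _ => hcmp x g)
    rw [Finset.sum_add_distrib, hsum, Finset.sum_const, Finset.sum_const, Finset.card_univ,
      nsmul_eq_mul, nsmul_eq_mul] at h1
    exact h1
  rw [abs_le]
  constructor
  · rw [neg_le_sub_iff_le_add, div_le_iff₀ hG]
    linarith
  · rw [sub_le_iff_le_add]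
    have h1 : N g ≤ E + (W : ℝ) ^ Fintype.card ι / Fintype.card G := by
      have h2 : N g = (Fintype.card G * N g) / Fintype.card G := by field_simp
      rw [h2, div_le_iff₀ hG, add_mul, div_mul_cancel₀ _ hG.ne']
      linarith
    exact h1

theorem count_hom' {G : Type} [AddCommGroup G] [Fintype G] (π : (ι → ℤ) →+ G)
    (hπ : Function.Surjective π) (Q : ℕ) (hQ0 : 0 < Q) (hQ : ∀ v, π ((Q : ℤ) • v) = 0)
    (a : ι → ℤ) (W : ℕ) (g : G) (T : Finset (ι → ℤ)) (hT : ∀ w, w ∈ T ↔ w ∈ Box a W ∧ π w = g) :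
    |(T.card : ℝ) - (W : ℝ) ^ Fintype.card ι / Fintype.card G| ≤
      ((W : ℝ) + Q) ^ Fintype.card ι - (W : ℝ) ^ Fintype.card ι := by
  have h1 : T = (Box a W).filter (fun w => π w = g) := by
    ext w
    rw [hT, mem_filter]
  rw [h1]
  exact count_hom π hπ Q hQ0 hQ a W g

theorem pow_add_sub_pow_le (d : ℕ) (W Q : ℝ) (hW : 0 ≤ W) (hQ : 0 ≤ Q) (hQW : Q ≤ W) :
    (W + Q) ^ d - W ^ d ≤ d * 2 ^ d * Q * W ^ (d - 1) := by
  induction d with
  | zero => simp
  | succ d ih =>
    rcases Nat.eq_zero_or_pos d with rfl | hd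
    · simp
      nlinarith
    have h1 : (W + Q) ^ (d + 1) - W ^ (d + 1) = (W + Q) * ((W + Q) ^ d - W ^ d) + Q * W ^ d := by
      ring
    rw [h1]
    have h2 : (W + Q) * ((W + Q) ^ d - W ^ d) ≤ (2 * W) * (d * 2 ^ d * Q * W ^ (d - 1)) := by
      apply mul_le_mul (by linarith) ih _ (by linarith)
      have : W ^ d ≤ (W + Q) ^ d := pow_le_pow_left₀ hW (by linarith) d
      linarith
    have h3 : (2 * W) * (d * 2 ^ d * Q * W ^ (d - 1)) = d * 2 ^ (d + 1) * Q * W ^ d := by
      obtain ⟨e, rfl⟩ : ∃ e, d = e + 1 := ⟨d - 1, by omega⟩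
      rw [Nat.add_sub_cancel]
      ring
    rw [h3] at h2
    have h4 : Q * W ^ d ≤ 2 ^ (d + 1) * Q * W ^ d := by
      have : 0 ≤ Q * W ^ d := by positivity
      have h5 : (1:ℝ) ≤ 2 ^ (d + 1) := one_le_pow₀ (by norm_num)
      nlinarith
    rw [Nat.add_sub_cancel]
    push_cast
    linarith

/-- slabs: a subset of the box whose points that agree outside `j` have `j`-th coordinates at
distance at most `m` -/
theorem slab (a : ι → ℤ) (W m : ℕ) (j : ι) (S : Finset (ι → ℤ)) (hS : S ⊆ Box a W)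
    (h : ∀ w ∈ S, ∀ w' ∈ S, (∀ i, i ≠ j → w i = w' i) → |w j - w' j| ≤ m) :
    S.card ≤ (m + 1) * W ^ (Fintype.card ι - 1) := by
  set f : (ι → ℤ) → (ι → ℤ) := fun w => Function.update w j (a j) with hf
  have h1 : S.card ≤ (m + 1) * (S.image f).card := by
    apply Finset.card_le_mul_card_image
    intro b hb
    set F := S.filter (fun w => f w = b) with hF
    rcases F.eq_empty_or_nonempty with h0 | ⟨w₀, hw₀⟩
    · rw [h0]; simp
    -- the minimal `j`-th coordinate
    obtain ⟨w₁, hw₁, hmin⟩ := F.exists_min_image (fun w => w j) ⟨w₀, hw₀⟩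
    have h2 : F.card ≤ (Finset.Icc (w₁ j) (w₁ j + m)).card := by
      apply Finset.card_le_card_of_injOn (fun w => w j)
      · intro w hw
        have hw' := hmin w hw
        rw [Finset.mem_coe] at hw
        rw [Finset.mem_coe, Finset.mem_Icc]
        refine ⟨hw', ?_⟩
        rw [hF, mem_filter] at hw hw₁
        have h3 := h w hw.1 w₁ hw₁.1 (fun i hi => by
          have h4 : f w i = f w₁ i := by rw [hw.2, hw₁.2]
          rw [hf] at h4
          simp only [Function.update_of_ne hi] at h4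
          exact h4)
        rw [abs_le] at h3
        linarith [h3.2]
      · intro w hw w' hw' hww
        rw [Finset.mem_coe, hF, mem_filter] at hw hw'
        ext i
        by_cases hi : i = j
        · rw [hi]; exact hww
        · have h4 : f w i = f w' i := by rw [hw.2, hw'.2]
          rw [hf] at h4
          simp only [Function.update_of_ne hi] at h4
          exact h4
    rw [Int.card_Icc] at h2
    omega
  have h2 : (S.image f).card ≤ W ^ (Fintype.card ι - 1) := by
    have h3 : S.image f ⊆ Fintype.piFinset (fun i => if i = j then {a j} else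
        Finset.Ico (a i) (a i + W)) := by
      intro b hb
      rw [mem_image] at hb
      obtain ⟨w, hw, rfl⟩ := hb
      rw [Fintype.mem_piFinset]
      intro i
      by_cases hi : i = j
      · subst hi
        simp [hf]
      · rw [if_neg hi, hf]
        simp only [Function.update_of_ne hi]
        have := (mem_Box.1 (hS hw)) i
        rw [Finset.mem_Ico]
        exact this
    refine (Finset.card_le_card h3).trans ?_
    rw [Fintype.card_piFinset]
    have h4 : ∀ i, (if i = j then ({a j} : Finset ℤ) else Finset.Ico (a i) (a i + W)).card =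
        if i = j then 1 else W := by
      intro i
      split_ifs <;> simp
    rw [Finset.prod_congr rfl (fun i _ => h4 i), Finset.prod_ite]
    simp only [Finset.prod_const_one, one_mul, Finset.prod_const]
    apply le_of_eq
    congr 1
    rw [Finset.filter_ne' univ j, Finset.card_erase_of_mem (mem_univ _), Finset.card_univ]
  exact h1.trans (Nat.mul_le_mul_left _ h2)

/-- packing: a subset of the cube whose distinct points are at distance at least `s` -/
theorem packing (R : ℕ) (s : ℝ) (hs : 0 < s) (S : Finset (ι → ℤ))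
    (hS : ∀ w ∈ S, ∀ i, |w i| ≤ R)
    (h : ∀ w ∈ S, ∀ w' ∈ S, w ≠ w' → ∃ i, s ≤ |((w i : ℤ) : ℝ) - w' i|) :
    (S.card : ℝ) ≤ (2 * (R : ℝ) / s + 2) ^ Fintype.card ι := by
  set f : (ι → ℤ) → (ι → ℤ) := fun w i => ⌊(w i : ℝ) / s⌋ with hf
  have h1 : S.card ≤ (Fintype.piFinset (fun _ : ι =>
      Finset.Icc ⌊-(R : ℝ) / s⌋ ⌊(R : ℝ) / s⌋)).card := by
    apply Finset.card_le_card_of_injOn f
    · intro w hw
      rw [Finset.mem_coe, Fintype.mem_piFinset]
      intro i
      have h2 := hS w hw i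
      rw [abs_le] at h2
      rw [Finset.mem_Icc]
      have h3 : (-(R:ℝ)) ≤ w i := by exact_mod_cast h2.1
      have h4 : (w i : ℝ) ≤ R := by exact_mod_cast h2.2
      exact ⟨Int.floor_le_floor (div_le_div_of_nonneg_right h3 hs.le),
        Int.floor_le_floor (div_le_div_of_nonneg_right h4 hs.le)⟩
    · intro w hw w' hw' hww
      by_contra hne
      obtain ⟨i, hi⟩ := h w hw w' hw' hne
      have h2 : ⌊(w i : ℝ) / s⌋ = ⌊(w' i : ℝ) / s⌋ := congrFun hww i
      have h3 := Int.abs_sub_lt_one_of_floor_eq_floor h2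
      rw [← sub_div, abs_div, abs_of_pos hs, div_lt_one hs] at h3
      linarith
  have h2 : (S.card : ℝ) ≤ ((Fintype.piFinset (fun _ : ι =>
      Finset.Icc ⌊-(R : ℝ) / s⌋ ⌊(R : ℝ) / s⌋)).card : ℝ) := by exact_mod_cast h1
  refine h2.trans ?_
  rw [Fintype.card_piFinset, Finset.prod_const, Finset.card_univ, Nat.cast_pow]
  apply pow_le_pow_left₀ (Nat.cast_nonneg _)
  rw [Int.card_Icc]
  have h3 : -(R:ℝ) / s < ⌊-(R : ℝ) / s⌋ + 1 := Int.lt_floor_add_one _
  have h4 : (⌊(R : ℝ) / s⌋ : ℝ) ≤ (R : ℝ) / s := Int.floor_le _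
  have h5 : ⌊-(R : ℝ) / s⌋ ≤ ⌊(R : ℝ) / s⌋ := by
    apply Int.floor_le_floor
    apply div_le_div_of_nonneg_right _ hs.le
    linarith [Nat.cast_nonneg (α := ℝ) R]
  have h6 : (((⌊(R : ℝ) / s⌋ + 1 - ⌊-(R : ℝ) / s⌋).toNat : ℕ) : ℝ) =
      ⌊(R : ℝ) / s⌋ + 1 - ⌊-(R : ℝ) / s⌋ := by
    have h7 : 0 ≤ ⌊(R : ℝ) / s⌋ + 1 - ⌊-(R : ℝ) / s⌋ := by linarith
    have h8 := Int.toNat_of_nonneg h7
    have h9 : (((⌊(R : ℝ) / s⌋ + 1 - ⌊-(R : ℝ) / s⌋).toNat : ℤ) : ℝ) =
      ((⌊(R : ℝ) / s⌋ + 1 - ⌊-(R : ℝ) / s⌋ : ℤ) : ℝ) := by rw [h8]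
    push_cast at h9
    rw [← h9]
  rw [h6]
  have h7 : -(R:ℝ) / s = -((R:ℝ)/s) := by ring
  have h8 : 2 * (R:ℝ) / s = 2 * ((R:ℝ)/s) := by ring
  rw [h7] at h3 ⊢
  rw [h8]
  linarith

end Pool.Agent.H525.NF
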