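import Pool.Agent.H525.NF.Sieve
import Pool.Agent.H525.AC.Cov

set_option autoImplicit false
set_option linter.unusedSectionVars false

/-! # The covering theorem for the lattice -/

namespace Pool.Agent.H525.NF

open Finset NumberField Filter Pool.Agent.H256R2.SC

open scoped Classical

section Enum

variable {γ : Type}

/-- enumeration of a finite set -/
noncomputable def enum (S : Finset γ) (i : Fin S.card) : γ := (S.equivFin.symm i : γ)

theorem enum_mem (S : Finset γ) (i : Fin S.card) : enum S i ∈ S := (S.equivFin.symm i).2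

theorem enum_inj (S : Finset γ) : Function.Injective (enum S) := by
  intro i j h
  exact S.equivFin.symm.injective (Subtype.ext h)

theorem sum_enum (S : Finset γ) (φ : γ → ℝ) : ∑ i, φ (enum S i) = ∑ x ∈ S, φ x := by
  rw [← Finset.sum_coe_sort S]
  exact Fintype.sum_equiv S.equivFin.symm _ _ (fun i => rfl)

end Enum

section Col

variable {R : Type} [CommRing R] {κ : Type}

/-- the shift `k` such that `u + sh k` is in `P` -/
noncomputable def colI (P : Ideal R) (sh : κ → R) (u : R) : Option κ :=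
  if h : ∃ k, u + sh k ∈ P then some (Classical.choose h) else none

theorem colI_eq {P : Ideal R} {sh : κ → R} (hinj : ∀ k l, k ≠ l → sh k - sh l ∉ P) (u : R)
    (k : κ) : colI P sh u = some k ↔ u + sh k ∈ P := by
  unfold colI
  constructor
  · intro h
    split_ifs at h with h1
    have h2 : Classical.choose h1 = k := Option.some.inj h
    rw [← h2]
    exact Classical.choose_spec h1
  · intro h
    have h1 : ∃ k, u + sh k ∈ P := ⟨k, h⟩
    rw [dif_pos h1]
    congr 1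
    by_contra hne
    apply hinj _ _ hne
    have h2 := P.sub_mem (Classical.choose_spec h1) h
    rwa [add_sub_add_left_eq_sub] at h2

end Col

variable {K : Type} [Field K] [NumberField K] {ι : Type} [Fintype ι]

/-- counting the points with given colours -/
theorem event_card (α : ι → 𝓞 K) (D : ℕ) (hD : ∀ t : 𝓞 K, ∃ x, th α x = (D : ℤ) • t)
    {n : ℕ} {κ : Type} (P : Fin n → Ideal (𝓞 K)) (hP : ∀ i, (Ideal.absNorm (P i)).Prime)
    (hPinj : Function.Injective P) (sh : κ → 𝓞 K)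
    (hinj : ∀ i, ∀ k l, k ≠ l → sh k - sh l ∉ P i) (M : ℕ) (c : 𝓞 K)
    (hDm : ∀ i, ¬ (Ideal.absNorm (P i) : ℤ) ∣ (M : ℤ) * D) (a : ι → ℤ) (W : ℕ)
    (𝒜 : Finset (ι → ℤ)) (h𝒜 : 𝒜 ⊆ Box a W) (E₂ : ℝ) (hE₂ : ((Box a W \ 𝒜).card : ℝ) ≤ E₂)
    (Dc : Col n κ) (Q : ℝ) (hQW : Q ≤ W)
    (hQ : ∏ i with Dc i ≠ none, (Ideal.absNorm (P i) : ℝ) ≤ Q) :
    |((𝒜.filter (fun w => ∀ i, Dc i ≠ none →
      colI (P i) sh (c + (M : ℤ) • th α w) = Dc i)).card : ℝ) -
      (W : ℝ) ^ Fintype.card ι * (1 / ∏ i with Dc i ≠ none, (Ideal.absNorm (P i) : ℝ))| ≤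
      Fintype.card ι * 2 ^ Fintype.card ι * Q * (W : ℝ) ^ (Fintype.card ι - 1) + E₂ := by
  set S : Finset (Fin n) := univ.filter (fun i => Dc i ≠ none) with hS
  set t : Fin n → 𝓞 K := fun i => match Dc i with
    | none => 0
    | some k => -(c + sh k) with ht
  have hiff : ∀ w : ι → ℤ, (∀ i ∈ S, (M : ℤ) • th α w - t i ∈ P i) ↔
      (∀ i, Dc i ≠ none → colI (P i) sh (c + (M : ℤ) • th α w) = Dc i) := by
    intro w
    constructor
    · intro h i hi
      have h2 := h i (Finset.mem_filter.2 ⟨Finset.mem_univ _, hi⟩)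
      obtain ⟨k, hk⟩ := Option.ne_none_iff_exists'.1 hi
      rw [hk, colI_eq (hinj i)]
      rw [ht] at h2
      simp only [hk, sub_neg_eq_add] at h2
      have h3 : c + (M : ℤ) • th α w + sh k = (M : ℤ) • th α w + (c + sh k) := by ring
      rw [h3]
      exact h2
    · intro h i hi
      have hDi : Dc i ≠ none := (Finset.mem_filter.1 hi).2
      have h2 := h i hDi
      obtain ⟨k, hk⟩ := Option.ne_none_iff_exists'.1 hDi
      rw [hk, colI_eq (hinj i)] at h2
      rw [ht]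
      simp only [hk, sub_neg_eq_add]
      have h3 : c + (M : ℤ) • th α w + sh k = (M : ℤ) • th α w + (c + sh k) := by ring
      rw [h3] at h2
      exact h2
  set F := (Box a W).filter (fun w => ∀ i ∈ S, (M : ℤ) • th α w - t i ∈ P i) with hF
  have h1 := count_ideals α D hD M S P (fun i _ => hP i) (fun i _ j _ hij h => hij (hPinj h))
    (fun i _ => hDm i) t a W F (fun w => by rw [hF, mem_filter])
  set G := 𝒜.filter (fun w => ∀ i, Dc i ≠ none →
      colI (P i) sh (c + (M : ℤ) • th α w) = Dc i) with hG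
  have hGF : G ⊆ F := by
    intro w hw
    rw [hG, mem_filter] at hw
    rw [hF, mem_filter]
    exact ⟨h𝒜 hw.1, (hiff w).2 hw.2⟩
  have hFG : F ⊆ G ∪ (Box a W \ 𝒜) := by
    intro w hw
    rw [hF, mem_filter] at hw
    rw [Finset.mem_union, Finset.mem_sdiff, hG, mem_filter]
    by_cases h : w ∈ 𝒜
    · exact Or.inl ⟨h, (hiff w).1 hw.2⟩
    · exact Or.inr ⟨hw.1, h⟩
  have h2 : (G.card : ℝ) ≤ F.card := by exact_mod_cast Finset.card_le_card hGF
  have h3 : (F.card : ℝ) ≤ G.card + E₂ := by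
    have h4 := (Finset.card_le_card hFG).trans (Finset.card_union_le _ _)
    have h5 : (F.card : ℝ) ≤ G.card + (Box a W \ 𝒜).card := by exact_mod_cast h4
    linarith
  have hW0 : (0:ℝ) ≤ W := Nat.cast_nonneg _
  have hprod : ((∏ i ∈ S, Ideal.absNorm (P i) : ℕ) : ℝ) =
      ∏ i ∈ S, (Ideal.absNorm (P i) : ℝ) := by push_cast; rfl
  have hQ1 : (1:ℝ) ≤ Q := by
    refine le_trans ?_ hQ
    rw [← hprod]
    exact_mod_cast Finset.prod_pos (fun i _ => (hP i).pos)
  have h4 : ((W : ℝ) + ((∏ i ∈ S, Ideal.absNorm (P i) : ℕ) : ℝ)) ^ Fintype.card ι -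
        (W : ℝ) ^ Fintype.card ι ≤
        Fintype.card ι * 2 ^ Fintype.card ι * Q * (W : ℝ) ^ (Fintype.card ι - 1) := by
    have h5 := pow_add_sub_pow_le (Fintype.card ι) W Q hW0 (by linarith) hQW
    refine le_trans ?_ h5
    rw [hprod]
    have h6 : ((W : ℝ) + ∏ i ∈ S, (Ideal.absNorm (P i) : ℝ)) ^ Fintype.card ι ≤
        ((W : ℝ) + Q) ^ Fintype.card ι := by
      apply pow_le_pow_left₀
      · have : (0:ℝ) ≤ ∏ i ∈ S, (Ideal.absNorm (P i) : ℝ) :=
          Finset.prod_nonneg (fun _ _ => Nat.cast_nonneg _)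
        linarith
      · linarith
    linarith
  rw [div_eq_mul_one_div] at h1
  rw [abs_le] at h1 ⊢
  have hE0 : 0 ≤ E₂ := le_trans (Nat.cast_nonneg _) hE₂
  constructor <;> linarith [h1.1, h1.2]

theorem nf_cover (α : ι → 𝓞 K) (hα : LinearIndependent ℤ α)
    (hc : Fintype.card ι = Module.finrank ℚ K) (D : ℕ) (hD0 : 0 < D)
    (hD : ∀ t : 𝓞 K, ∃ x, th α x = (D : ℤ) • t) : ∃ c L₁ : ℝ, 0 < c ∧ ∀ L : ℝ, L₁ ≤ L →
    ∀ (κ : Type) [Fintype κ] (sh : κ → 𝓞 K), (Fintype.card κ : ℝ) ≤ c * L →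
    (∀ P : Ideal (𝓞 K), (Ideal.absNorm P).Prime → L ^ 2 < (Ideal.absNorm P : ℝ) →
      ∀ k l, k ≠ l → sh k - sh l ∉ P) →
    ∀ (M : ℕ) (c : 𝓞 K), 0 < M → (∀ p : ℕ, p.Prime → L ^ 2 < p → ¬ p ∣ M) →
    ∀ (a : ι → ℤ) (W : ℕ), Real.exp (17 / 20 * L) ≤ W →
    ∃ w ∈ Box a W, (∀ σ : K →ₐ[ℚ] ℂ,
      Real.exp (L / 2) < ‖σ ((c + (M : ℤ) • th α w : 𝓞 K) : K)‖) ∧
      ∀ k, ∃ P : Ideal (𝓞 K), (Ideal.absNorm P).Prime ∧ L ^ 2 < (Ideal.absNorm P : ℝ) ∧
        Real.log (Ideal.absNorm P) ≤ L / (1000 * Real.log L) ∧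
        c + (M : ℤ) • th α w + sh k ∈ P := by
  obtain ⟨A, C, hA, hC, w₀, hw₀, hm1, hm2, hm3, -⟩ := mertens_PI K
  obtain ⟨c₀, hc₀, L₀, hcov⟩ := Pool.Agent.H525.AC.abscov A C hA hC
  obtain ⟨δ, hδ, hδ2⟩ := emb_ne hα
  set dn := Fintype.card ι with hdn
  set d : ℝ := (dn : ℝ) with hd
  have hfin : (Module.finrank ℚ K : ℝ) = d := by rw [hd, hc]
  have hdn0 : 0 < dn := by rw [hc]; exact Module.finrank_pos
  have hd1 : 1 ≤ d := by rw [hd]; exact_mod_cast hdn0
  have hne : Nonempty ι := Fintype.card_pos_iff.1 hdn0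
  set C₅ : ℝ := d * 2 ^ dn + d * (2 / δ + 1) with hC₅
  have hC₅0 : 0 < C₅ := by positivity
  refine ⟨c₀, max (max L₀ 100) (max (w₀ + D + d) (10 * Real.log C₅)), hc₀, ?_⟩
  intro L hL κ _ sh hκ hsh M c hM0 hMp a W hW
  have hLL₀ : L₀ ≤ L := ((le_max_left _ _).trans (le_max_left _ _)).trans hL
  have hL100 : 100 ≤ L := ((le_max_right _ _).trans (le_max_left _ _)).trans hL
  have hLw : w₀ + D + d ≤ L := ((le_max_left _ _).trans (le_max_right _ _)).trans hL
  have hLC : 10 * Real.log C₅ ≤ L := ((le_max_right _ _).trans (le_max_right _ _)).trans hL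
  have hDR : (0:ℝ) ≤ D := Nat.cast_nonneg _
  have hL0 : 0 < L := by linarith
  have hLsq : L ≤ L ^ 2 := by nlinarith only [hL100]
  obtain ⟨z, hz1, hz2, hz0, hz3, hmain⟩ := hcov L hLL₀
  have hzL : L ≤ z := hLsq.trans hz3
  have hlogL : 1 ≤ Real.log L := by
    rw [Real.le_log_iff_exp_le hL0]
    have := Real.exp_one_lt_d9
    linarith
  have hlogL2 : 1 ≤ Real.log (L ^ 2) := by
    rw [Real.log_pow]; push_cast; linarith
  set PP := PI K (L ^ 2) z with hPP
  set p : Fin PP.card → ℝ := fun i => (Ideal.absNorm (enum PP i) : ℝ) with hp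
  set g : Fin PP.card → ℝ := fun i => 1 / (Ideal.absNorm (enum PP i) : ℝ) with hg
  have hmem : ∀ i, (Ideal.absNorm (enum PP i)).Prime ∧ L ^ 2 < (Ideal.absNorm (enum PP i) : ℝ) ∧
      (Ideal.absNorm (enum PP i) : ℝ) ≤ z := fun i => mem_PI.1 (enum_mem PP i)
  have hp0 : ∀ i, 0 < p i := fun i => by
    have := (hmem i).1.pos
    change (0:ℝ) < (Ideal.absNorm (enum PP i) : ℝ)
    exact_mod_cast this
  -- the sums
  have hsum : ∀ (w : ℝ), w ≤ z → ∀ φ : ℕ → ℝ,
      ∑ i with p i ≤ w, φ (Ideal.absNorm (enum PP i)) =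
        ∑ P ∈ PI K (L ^ 2) w, φ (Ideal.absNorm P) := by
    intro w hw φ
    rw [Finset.sum_filter]
    have h1 := sum_enum PP (fun P => if (Ideal.absNorm P : ℝ) ≤ w then φ (Ideal.absNorm P) else 0)
    rw [h1, ← Finset.sum_filter]
    congr 1
    ext P
    rw [mem_filter, hPP, mem_PI, mem_PI]
    constructor
    · rintro ⟨⟨h2, h3, _⟩, h4⟩
      exact ⟨h2, h3, h4⟩
    · rintro ⟨h2, h3, h4⟩
      exact ⟨⟨h2, h3, h4.trans hw⟩, h4⟩
  have hM1 : ∀ w, L ^ 2 ≤ w → w ≤ z →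
      ∑ i with p i ≤ w, g i * Real.log (p i) ≤ A * Real.log w := by
    intro w hw1 hw2
    have h1 := hsum w hw2 (fun q => 1 / (q:ℝ) * Real.log q)
    have h2 := hm1 (L ^ 2) w (by linarith)
    calc ∑ i with p i ≤ w, g i * Real.log (p i)
        = ∑ i with p i ≤ w, (fun q : ℕ => 1 / (q:ℝ) * Real.log q) (Ideal.absNorm (enum PP i)) :=
          rfl
      _ = ∑ P ∈ PI K (L ^ 2) w, 1 / (Ideal.absNorm P : ℝ) * Real.log (Ideal.absNorm P) := h1
      _ = ∑ P ∈ PI K (L ^ 2) w, Real.log (Ideal.absNorm P) / Ideal.absNorm P := by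
          apply Finset.sum_congr rfl
          intro P _
          ring
      _ ≤ _ := h2
  have hM2 : ∀ w, L ^ 2 ≤ w → w ≤ z →
      Real.log (Real.log w / Real.log (L ^ 2)) - C ≤ ∑ i with p i ≤ w, g i := by
    intro w hw1 hw2
    have h1 := hsum w hw2 (fun q => 1 / (q:ℝ))
    have h2 := hm2 (L ^ 2) w (by linarith) hw1
    have h3 : Real.log (L ^ 2) ≤ Real.log w := Real.log_le_log (by positivity) hw1
    rw [Real.log_div (by linarith) (by linarith)]
    refine h2.trans (le_of_eq ?_)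
    rw [← h1]
  have hM3 : ∑ i, g i ≤ Real.log L + C := by
    have h1 : ∑ i, g i = ∑ P ∈ PP, 1 / (Ideal.absNorm P : ℝ) :=
      sum_enum PP (fun P => 1 / (Ideal.absNorm P : ℝ))
    rw [h1]
    have h2 := hm3 (L ^ 2) z (by linarith)
    refine h2.trans ?_
    have h3 : Real.log (Real.log z) ≤ Real.log L := by
      apply Real.log_le_log
      · apply Real.log_pos; linarith
      · refine hz2.trans ?_
        rw [div_le_iff₀ (by positivity)]
        nlinarith only [hlogL, hL0]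
    linarith
  have hM4 : ((PP.card : ℕ) : ℝ) + 1 ≤ z ^ 2 := by
    have h1 := card_PI_le (K := K) (L ^ 2) z hz0.le
    rw [hfin] at h1
    have h2 : d ≤ L - 3 := by linarith
    have h3 : d * z ≤ (z - 3) * z := mul_le_mul_of_nonneg_right (by linarith) hz0.le
    have h4 : 100 ≤ z := by linarith
    nlinarith only [h1, h3, h4]
  -- the family
  have hirr : ∀ i, ∀ k l, k ≠ l → sh k - sh l ∉ enum PP i := fun i =>
    hsh (enum PP i) (hmem i).1 (hmem i).2.1
  set ρ : ℝ := Real.exp (L / 2) with hρ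
  have hρ1 : 1 ≤ ρ := Real.one_le_exp (by linarith)
  set 𝒜 := (Box a W).filter (fun w => ∀ σ : K →ₐ[ℚ] ℂ,
    ρ < ‖σ ((c + (M : ℤ) • th α w : 𝓞 K) : K)‖) with h𝒜
  have hWR : (0:ℝ) < W := lt_of_lt_of_le (Real.exp_pos _) hW
  set E₂ : ℝ := d * ((2 / δ + 1) * ρ) * (W:ℝ) ^ (dn - 1) with hE₂
  have hMR : (1:ℝ) ≤ M := by exact_mod_cast hM0
  have hbad : ((Box a W \ 𝒜).card : ℝ) ≤ E₂ := by
    have h1 : Box a W \ 𝒜 ⊆ (Finset.univ : Finset (K →ₐ[ℚ] ℂ)).biUnion
        (fun σ => (Box a W).filter (fun w => ‖σ ((c + (M : ℤ) • th α w : 𝓞 K) : K)‖ ≤ ρ)) := by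
      intro w hw
      rw [Finset.mem_sdiff, h𝒜, mem_filter] at hw
      rw [Finset.mem_biUnion]
      by_contra hcon
      push Not at hcon
      apply hw.2
      refine ⟨hw.1, fun σ => ?_⟩
      have h4 := hcon σ (mem_univ σ)
      rw [Finset.mem_filter, not_and] at h4
      exact not_le.1 (h4 hw.1)
    have h2 : ((Box a W \ 𝒜).card : ℝ) ≤ ∑ σ : K →ₐ[ℚ] ℂ, (((Box a W).filter
        (fun w => ‖σ ((c + (M : ℤ) • th α w : 𝓞 K) : K)‖ ≤ ρ)).card : ℝ) := by
      exact_mod_cast (Finset.card_le_card h1).trans Finset.card_biUnion_le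
    have h3 : ∀ σ : K →ₐ[ℚ] ℂ, (((Box a W).filter
        (fun w => ‖σ ((c + (M : ℤ) • th α w : 𝓞 K) : K)‖ ≤ ρ)).card : ℝ) ≤
        (2 / δ + 1) * ρ * (W:ℝ) ^ (dn - 1) := by
      intro σ
      have h4 := emb_slab α σ δ hδ (hδ2 σ) a W c M hM0 ρ (by linarith) ((Box a W).filter
        (fun w => ‖σ ((c + (M : ℤ) • th α w : 𝓞 K) : K)‖ ≤ ρ)) (Finset.filter_subset _ _)
        (fun w hw => (mem_filter.1 hw).2)
      refine h4.trans ?_
      apply mul_le_mul_of_nonneg_right _ (by positivity)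
      have h5 : 2 * ρ / (M * δ) ≤ 2 / δ * ρ := by
        rw [div_mul_eq_mul_div]
        apply div_le_div_of_nonneg_left (by positivity) hδ
        nlinarith only [hMR, hδ]
      linarith
    refine h2.trans ((Finset.sum_le_sum (fun σ _ => h3 σ)).trans ?_)
    rw [Finset.sum_const, nsmul_eq_mul, Finset.card_univ, card_emb, hfin, hE₂]
    apply le_of_eq
    ring
  set N : ℝ := (W:ℝ) ^ dn with hN
  set Err : ℝ := d * 2 ^ dn * Real.exp (L / 10) * (W:ℝ) ^ (dn - 1) + E₂ with hErr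
  have hN0 : 0 < N := by positivity
  have hErr0 : 0 ≤ Err := by
    rw [hErr, hE₂]
    positivity
  have hErrN : Err * Real.exp (L / 4) ≤ N := by
    have h1 : Err ≤ C₅ * ρ * (W:ℝ) ^ (dn - 1) := by
      rw [hErr, hE₂, hC₅]
      have h2 : Real.exp (L / 10) ≤ ρ := Real.exp_le_exp.2 (by linarith)
      have h3 : d * 2 ^ dn * Real.exp (L / 10) * (W:ℝ) ^ (dn - 1) ≤
          d * 2 ^ dn * ρ * (W:ℝ) ^ (dn - 1) := by
        apply mul_le_mul_of_nonneg_right _ (by positivity)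
        exact mul_le_mul_of_nonneg_left h2 (by positivity)
      have h4 : (d * 2 ^ dn + d * (2 / δ + 1)) * ρ * (W:ℝ) ^ (dn - 1) =
          d * 2 ^ dn * ρ * (W:ℝ) ^ (dn - 1) + d * ((2 / δ + 1) * ρ) * (W:ℝ) ^ (dn - 1) := by ring
      rw [h4]
      linarith
    have h2 : C₅ ≤ Real.exp (L / 10) := by
      rw [← Real.exp_log hC₅0, Real.exp_le_exp]
      linarith
    have h3 : C₅ * ρ * Real.exp (L / 4) ≤ W := by
      refine le_trans ?_ hW
      calc C₅ * ρ * Real.exp (L / 4) ≤ Real.exp (L / 10) * ρ * Real.exp (L / 4) := by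
            apply mul_le_mul_of_nonneg_right _ (Real.exp_pos _).le
            exact mul_le_mul_of_nonneg_right h2 (by linarith)
        _ = Real.exp (17 / 20 * L) := by
            rw [hρ, ← Real.exp_add, ← Real.exp_add]
            congr 1
            ring
    calc Err * Real.exp (L / 4) ≤ C₅ * ρ * (W:ℝ) ^ (dn - 1) * Real.exp (L / 4) :=
          mul_le_mul_of_nonneg_right h1 (Real.exp_pos _).le
      _ = (C₅ * ρ * Real.exp (L / 4)) * (W:ℝ) ^ (dn - 1) := by ring
      _ ≤ W * (W:ℝ) ^ (dn - 1) := mul_le_mul_of_nonneg_right h3 (by positivity)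
      _ = N := by
          rw [hN, ← pow_succ']
          congr 1
          omega
  obtain ⟨w, hw, hcol⟩ := hmain PP.card p g (fun i => (hmem i).2.1) (fun i => (hmem i).2.2)
    (fun i => le_rfl)
    (fun i => div_le_div_of_nonneg_right (by norm_num) (hp0 i).le) hM1 hM2 hM3 hM4 κ hκ (ι → ℤ)
    𝒜 (fun w i => colI (enum PP i) sh (c + (M : ℤ) • th α w)) N Err hN0 hErr0 hErrN
    (by
      intro Dc hDc
      have hqq : qq p Dc = ∏ i with Dc i ≠ none, (Ideal.absNorm (enum PP i) : ℝ) := by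
        unfold qq
        rw [prod_nu1]
        rfl
      have hnu : nu g Dc = 1 / ∏ i with Dc i ≠ none, (Ideal.absNorm (enum PP i) : ℝ) := by
        unfold nu
        rw [prod_nu1, hg]
        simp only [one_div, Finset.prod_inv_distrib]
        rfl
      rw [hnu]
      refine event_card α D hD (enum PP) (fun i => (hmem i).1) (enum_inj PP) sh hirr M c ?_ a W 𝒜
        (Finset.filter_subset _ _) E₂ hbad Dc (Real.exp (L / 10)) ?_ ?_
      · intro i hdvd
        have hpr := (hmem i).1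
        have h1 : (Ideal.absNorm (enum PP i)) ∣ M * D := by
          have : ((Ideal.absNorm (enum PP i) : ℕ) : ℤ) ∣ ((M * D : ℕ) : ℤ) := by
            push_cast
            exact hdvd
          exact Int.natCast_dvd_natCast.1 this
        rcases (Nat.Prime.dvd_mul hpr).1 h1 with h2 | h2
        · exact hMp _ hpr (hmem i).2.1 h2
        · have h3 : (Ideal.absNorm (enum PP i) : ℝ) ≤ D := by
            exact_mod_cast Nat.le_of_dvd hD0 h2
          linarith [(hmem i).2.1]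
      · refine le_trans (Real.exp_le_exp.2 ?_) hW
        linarith
      · rw [← hqq]
        exact hDc)
  rw [h𝒜, mem_filter] at hw
  refine ⟨w, hw.1, hw.2, ?_⟩
  intro k
  obtain ⟨i, hi⟩ := hcol k
  rw [colI_eq (hirr i)] at hi
  refine ⟨enum PP i, (hmem i).1, (hmem i).2.1, ?_, hi⟩
  exact le_trans (Real.log_le_log (hp0 i) (hmem i).2.2) hz2

end Pool.Agent.H525.NF
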