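import Pool.Agent.H525.NF.Basic

set_option autoImplicit false
set_option linter.unusedSectionVars false

/-! # Prime ideals of degree one, the Chinese remainder theorem -/

namespace Pool.Agent.H525.NF

open Finset NumberField

open scoped Classical

variable {K : Type} [Field K] [NumberField K] {ι : Type} [Fintype ι]

section

variable (K)

/-- the prime ideals of degree one with norm in `(a, b]` -/
noncomputable def PI (a b : ℝ) : Finset (Ideal (𝓞 K)) :=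
  ((Ideal.finite_setOfPred_absNorm_le (S := 𝓞 K) ⌊b⌋₊).toFinset).filter
    (fun P => (Ideal.absNorm P).Prime ∧ a < (Ideal.absNorm P : ℝ) ∧ (Ideal.absNorm P : ℝ) ≤ b)

end

theorem mem_PI {a b : ℝ} {P : Ideal (𝓞 K)} : P ∈ PI K a b ↔
    (Ideal.absNorm P).Prime ∧ a < (Ideal.absNorm P : ℝ) ∧ (Ideal.absNorm P : ℝ) ≤ b := by
  unfold PI
  rw [mem_filter, and_iff_right_of_imp]
  rintro ⟨_, _, h⟩
  rw [Set.Finite.mem_toFinset]
  exact Nat.le_floor h

theorem isPrime_of {P : Ideal (𝓞 K)} (h : (Ideal.absNorm P).Prime) : P.IsPrime :=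
  Ideal.isPrime_of_irreducible_absNorm ((Nat.irreducible_iff_nat_prime _).2 h)

theorem ne_bot_of {P : Ideal (𝓞 K)} (h : (Ideal.absNorm P).Prime) : P ≠ ⊥ := by
  rintro rfl
  rw [Ideal.absNorm_bot] at h
  exact Nat.not_prime_zero h

theorem isMaximal_of {P : Ideal (𝓞 K)} (h : (Ideal.absNorm P).Prime) : P.IsMaximal :=
  (isPrime_of h).isMaximal (ne_bot_of h)

theorem coprime_of {P Q : Ideal (𝓞 K)} (h : (Ideal.absNorm P).Prime) (h' : (Ideal.absNorm Q).Prime)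
    (hne : P ≠ Q) : IsCoprime P Q := by
  have := isMaximal_of h
  have := isMaximal_of h'
  exact Ideal.isCoprime_of_isMaximal hne

/-- an integer prime to the norm is invertible -/
theorem exists_inv {P : Ideal (𝓞 K)} (h : (Ideal.absNorm P).Prime) (e : ℤ)
    (he : ¬ (Ideal.absNorm P : ℤ) ∣ e) : ∃ f : ℤ, ((e * f - 1 : ℤ) : 𝓞 K) ∈ P := by
  have h1 : IsCoprime (Ideal.absNorm P : ℤ) e := by
    rw [(Nat.prime_iff_prime_int.1 h).irreducible.coprime_iff_not_dvd]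
    exact he
  obtain ⟨a, b, hab⟩ := h1
  refine ⟨b, ?_⟩
  have h2 : e * b - 1 = -a * (Ideal.absNorm P : ℤ) := by linarith
  rw [h2]
  push_cast
  exact Ideal.mul_mem_left _ _ (Ideal.absNorm_mem P)

section crt

variable {γ : Type}

/-- the Chinese remainder theorem for the lattice -/
theorem lift_crt (α : ι → 𝓞 K) (D : ℕ) (hD : ∀ t : 𝓞 K, ∃ x, th α x = (D : ℤ) • t) (m : ℤ)
    (S : Finset γ) (P : γ → Ideal (𝓞 K)) (hP : ∀ i ∈ S, (Ideal.absNorm (P i)).Prime)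
    (hinj : ∀ i ∈ S, ∀ j ∈ S, i ≠ j → P i ≠ P j)
    (hDm : ∀ i ∈ S, ¬ (Ideal.absNorm (P i) : ℤ) ∣ m * D) (t : γ → 𝓞 K) :
    ∃ w : ι → ℤ, ∀ i ∈ S, m • th α w - t i ∈ P i := by
  have h1 : ∀ i : S, ∃ f : ℤ, ((m * D * f - 1 : ℤ) : 𝓞 K) ∈ P i := fun i =>
    exists_inv (hP i i.2) _ (hDm i i.2)
  choose f hf using h1
  have hcop : Pairwise (Function.onFun IsCoprime (fun i : S => P i)) := by
    intro i j hij
    exact coprime_of (hP i i.2) (hP j j.2) (hinj i i.2 j j.2 (fun h => hij (Subtype.ext h)))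
  obtain ⟨r, hr⟩ := Ideal.exists_forall_sub_mem_ideal hcop (fun i : S => (f i : 𝓞 K) * t i)
  obtain ⟨w, hw⟩ := hD r
  refine ⟨w, fun i hi => ?_⟩
  have h2 := hr ⟨i, hi⟩
  have h3 := hf ⟨i, hi⟩
  have h4 : m • th α w - t i = ((m : ℤ) : 𝓞 K) * D * (r - (f ⟨i, hi⟩ : 𝓞 K) * t i) +
      ((m * D * f ⟨i, hi⟩ - 1 : ℤ) : 𝓞 K) * t i := by
    rw [hw]
    simp only [zsmul_eq_mul]
    push_cast
    ring
  rw [h4]
  exact (P i).add_mem ((P i).mul_mem_left _ h2) ((P i).mul_mem_right _ h3)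

/-- the points of a box in a class modulo several ideals -/
theorem count_ideals (α : ι → 𝓞 K) (D : ℕ) (hD : ∀ t : 𝓞 K, ∃ x, th α x = (D : ℤ) • t) (m : ℤ)
    (S : Finset γ) (P : γ → Ideal (𝓞 K)) (hP : ∀ i ∈ S, (Ideal.absNorm (P i)).Prime)
    (hinj : ∀ i ∈ S, ∀ j ∈ S, i ≠ j → P i ≠ P j)
    (hDm : ∀ i ∈ S, ¬ (Ideal.absNorm (P i) : ℤ) ∣ m * D) (t : γ → 𝓞 K) (a : ι → ℤ) (W : ℕ)
    (T : Finset (ι → ℤ)) (hT : ∀ w, w ∈ T ↔ w ∈ Box a W ∧ ∀ i ∈ S, m • th α w - t i ∈ P i) :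
    |(T.card : ℝ) -
      (W : ℝ) ^ Fintype.card ι / ∏ i ∈ S, (Ideal.absNorm (P i) : ℝ)| ≤
      ((W : ℝ) + ((∏ i ∈ S, Ideal.absNorm (P i) : ℕ) : ℝ)) ^ Fintype.card ι -
        (W : ℝ) ^ Fintype.card ι := by
  set G := (i : S) → 𝓞 K ⧸ P i with hG
  have hfin : ∀ i : S, Finite (𝓞 K ⧸ P i) := by
    intro i
    apply Nat.finite_of_card_ne_zero
    have h1 : Nat.card (𝓞 K ⧸ P i) = Ideal.absNorm (P i) := rfl
    rw [h1]
    exact (hP i i.2).ne_zero
  have hfinG : Finite G := Pi.finite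
  have hfG : Fintype G := Fintype.ofFinite G
  set π : (ι → ℤ) →+ G := AddMonoidHom.mk' (fun w i => Ideal.Quotient.mk (P i) (m • th α w))
    (fun x y => by
      ext i
      rw [Pi.add_apply, map_add, smul_add, map_add]) with hπ
  have hsurj : Function.Surjective π := by
    intro g
    choose t' ht' using fun i : S => Ideal.Quotient.mk_surjective (g i)
    obtain ⟨w, hw⟩ := lift_crt α D hD m S P hP hinj hDm
      (fun i => if h : i ∈ S then t' ⟨i, h⟩ else 0)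
    refine ⟨w, ?_⟩
    ext i
    have h1 := hw i i.2
    rw [dif_pos i.2] at h1
    have h2 : π w i = Ideal.Quotient.mk (P i) (m • th α w) := rfl
    rw [h2, ← ht' i]
    exact Ideal.Quotient.eq.2 h1
  have hQ0 : 0 < ∏ i ∈ S, Ideal.absNorm (P i) := Finset.prod_pos (fun i hi => (hP i hi).pos)
  have hQ : ∀ v, π (((∏ i ∈ S, Ideal.absNorm (P i) : ℕ) : ℤ) • v) = 0 := by
    intro v
    ext i
    have h2 : π (((∏ i ∈ S, Ideal.absNorm (P i) : ℕ) : ℤ) • v) i =
      Ideal.Quotient.mk (P i) (m • th α (((∏ i ∈ S, Ideal.absNorm (P i) : ℕ) : ℤ) • v)) := rfl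
    rw [h2, Pi.zero_apply, Ideal.Quotient.eq_zero_iff_mem, map_smul, smul_comm, zsmul_eq_mul]
    apply Ideal.mul_mem_right
    rw [← Finset.mul_prod_erase S _ i.2]
    push_cast
    exact Ideal.mul_mem_right _ _ (Ideal.absNorm_mem _)
  have hcount := count_hom' π hsurj _ hQ0 hQ a W (fun i => Ideal.Quotient.mk (P i) (t i))
    T (by
      intro w
      rw [hT]
      apply and_congr_right
      intro _
      constructor
      · intro h
        ext i
        exact Ideal.Quotient.eq.2 (h i i.2)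
      · intro h i hi
        exact Ideal.Quotient.eq.1 (congrFun h ⟨i, hi⟩))
  have hcard : (Fintype.card G : ℝ) = ∏ i ∈ S, (Ideal.absNorm (P i) : ℝ) := by
    have h1 : Fintype.card G = ∏ i : S, Ideal.absNorm (P i) := by
      rw [← Nat.card_eq_fintype_card, Nat.card_pi]
      rfl
    rw [h1, Finset.prod_coe_sort S (fun i => Ideal.absNorm (P i))]
    push_cast
    rfl
  rw [hcard] at hcount
  exact hcount

end crt

/-- the number of the prime ideals over `p` -/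
theorem card_over (p : ℕ) (hp : p.Prime) (S : Finset (Ideal (𝓞 K)))
    (hS : ∀ P ∈ S, P.IsPrime ∧ ((p : ℕ) : 𝓞 K) ∈ P) : S.card ≤ Module.finrank ℚ K := by
  have hpZ : Prime (p : ℤ) := Nat.prime_iff_prime_int.1 hp
  have hpI : (Ideal.span {(p : ℤ)}).IsPrime :=
    (Ideal.span_singleton_prime hpZ.ne_zero).2 hpZ
  have hp0 : Ideal.span {(p : ℤ)} ≠ ⊥ := by
    rw [Ne, Ideal.span_singleton_eq_bot]
    exact hpZ.ne_zero
  have hmax : (Ideal.span {(p : ℤ)}).IsMaximal := hpI.isMaximal hp0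
  refine le_trans (Finset.card_le_card ?_)
    (Ideal.card_primesOverFinset_le_finrank (R := ℤ) (S := 𝓞 K) (K := ℚ) (L := K) hp0)
  intro P hP
  rw [IsDedekindDomain.mem_primesOverFinset_iff hp0]
  obtain ⟨h1, h2⟩ := hS P hP
  refine ⟨h1, ⟨?_⟩⟩
  apply hmax.eq_of_le
  · intro h
    have h3 : (1 : ℤ) ∈ P.under ℤ := by rw [h]; trivial
    rw [Ideal.mem_comap, map_one] at h3
    exact h1.ne_top ((Ideal.eq_top_iff_one _).2 h3)
  · rw [Ideal.span_singleton_le_iff_mem, Ideal.mem_comap]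
    simpa using h2

end Pool.Agent.H525.NF
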