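import Pool.Agent.H525.NF.Surv
import Pool.Agent.H525.NF.Cover

set_option autoImplicit false
set_option linter.unusedSectionVars false

/-! # Long gaps between the prime values of norm forms -/

namespace Pool.Agent.H525.NF

open Finset NumberField Filter

open scoped Classical

/-- `x (log x)² log₃ x / (log₂ x)²` -/
noncomputable def rec (x : ℝ) : ℝ :=
  x * (Real.log x) ^ 2 * Real.log (Real.log (Real.log x)) / (Real.log (Real.log x)) ^ 2

/-- numerical facts -/
theorem ev_main (c B : ℝ) (hc : 0 < c) : ∃ L₀ : ℝ, ∀ x : ℝ, L₀ ≤ x →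
    ∀ l1 l2 l3 : ℝ, l1 = Real.log x → l2 = Real.log l1 → l3 = Real.log l2 →
    4 ≤ l3 ∧ l3 ≤ l2 ∧ 8 * l2 ≤ l1 ∧ B ≤ l1 ∧ B ≤ l3 ∧ l2 ^ 2 ≤ c * l1 ^ 2 ∧
      B * l1 ^ 3 ≤ x ∧ 16 ≤ l2 := by
  have t2 := Real.tendsto_log_atTop
  have t3 := Real.tendsto_log_atTop.comp t2
  have t4 := Real.tendsto_log_atTop.comp t3
  have a1 := t4.eventually_ge_atTop (max B 4)
  have a2 := t3.eventually_ge_atTop 16
  have a3 : ∀ᶠ y : ℝ in atTop, 8 * Real.log y ≤ y := by
    have e1 := Real.isLittleO_log_id_atTop.def (show (0:ℝ) < 1 / 8 by norm_num)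
    filter_upwards [e1, eventually_ge_atTop (1:ℝ)] with L hL hL1
    rw [Real.norm_eq_abs, abs_of_nonneg (Real.log_nonneg hL1), Real.norm_eq_abs] at hL
    simp only [id] at hL
    rw [abs_of_nonneg (by linarith)] at hL
    linarith
  have a5 := t2.eventually_ge_atTop B
  have a8 : ∀ k : ℝ, 0 < k → ∀ᶠ y : ℝ in atTop, (Real.log y) ^ 2 ≤ k * y ^ 2 := by
    intro k hk
    have e1 := Real.isLittleO_log_id_atTop.def (show (0:ℝ) < Real.sqrt k by positivity)
    filter_upwards [e1, eventually_ge_atTop (1:ℝ)] with L hL hL1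
    rw [Real.norm_eq_abs, abs_of_nonneg (Real.log_nonneg hL1), Real.norm_eq_abs] at hL
    simp only [id] at hL
    rw [abs_of_nonneg (by linarith)] at hL
    have h2 := pow_le_pow_left₀ (Real.log_nonneg hL1) hL 2
    rwa [mul_pow, Real.sq_sqrt hk.le] at h2
  have a9 : ∀ᶠ y : ℝ in atTop, B * (Real.log y) ^ 3 ≤ y := by
    have e1 : (fun L : ℝ => (Real.log L) ^ (3:ℝ)) =o[atTop] (fun L : ℝ => L ^ (1 : ℝ)) :=
      isLittleO_log_rpow_rpow_atTop 3 (by norm_num)
    have e2 := e1.def (show (0:ℝ) < 1 / (|B| + 1) by positivity)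
    filter_upwards [e2, eventually_ge_atTop (1:ℝ)] with L hL hL2
    rw [Real.norm_eq_abs, Real.norm_eq_abs,
      abs_of_nonneg (Real.rpow_nonneg (Real.log_nonneg hL2) _),
      abs_of_nonneg (Real.rpow_nonneg (by linarith) _), Real.rpow_one] at hL
    have e3 : (Real.log L) ^ (3:ℝ) = (Real.log L) ^ 3 := by
      rw [← Real.rpow_natCast]; norm_num
    rw [e3, one_div, inv_mul_eq_div, le_div_iff₀ (by positivity)] at hL
    have h1 : B ≤ |B| + 1 := by linarith [le_abs_self B]
    have h2 : 0 ≤ (Real.log L) ^ 3 := pow_nonneg (Real.log_nonneg hL2) 3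
    nlinarith
  have b1 := t3.eventually a3
  have b2 := t2.eventually a3
  have b4 := t2.eventually (a8 c hc)
  have h := ((((((a1.and a2).and b1).and b2).and a5).and b4).and a9)
  obtain ⟨N₀, hN₀⟩ := Filter.eventually_atTop.mp h
  refine ⟨N₀, ?_⟩
  rintro x hn l1 l2 l3 rfl rfl rfl
  obtain ⟨⟨⟨⟨⟨⟨c1, c2⟩, c3⟩, c4⟩, c5⟩, c8⟩, c9⟩ := hN₀ x hn
  simp only [Function.comp] at c1 c2 c3 c4 c5 c8
  have c1a := (le_max_left _ _).trans c1
  have c1b := (le_max_right _ _).trans c1
  exact ⟨c1b, by linarith, c4, c5, c1a, c8, c9, c2⟩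

variable {K : Type} [Field K] [NumberField K] {ι : Type} [Fintype ι]

theorem main (α : ι → 𝓞 K) (hα : LinearIndependent ℤ α)
    (hc : Fintype.card ι = Module.finrank ℚ K) : ∃ c : ℝ, 0 < c ∧ ∃ T₀ : ℝ, ∀ T : ℝ, T₀ ≤ T →
    ∀ u : ι → ℤ, ∃ x : ι → ℤ, (∀ i, u i ≤ x i ∧ (x i : ℝ) ≤ u i + T) ∧ ∀ v : ι → ℤ,
      (∀ i, |(v i : ℝ)| ^ Fintype.card ι ≤ c * rec (Real.log T)) →
      ∃ P : Ideal (𝓞 K), (Ideal.absNorm P).Prime ∧ th α (x + v) ∈ P ∧
        Real.log (Ideal.absNorm P) ≤ Real.log T / Real.log (Real.log T) ∧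
        (Ideal.absNorm P : ℝ) ^ Fintype.card ι <
          |((Algebra.norm ℤ (th α (x + v)) : ℤ) : ℝ)| := by
  obtain ⟨D, hD0, hD⟩ := exists_D hα hc
  obtain ⟨c₁, L₁, hc₁, hcov⟩ := nf_cover α hα hc D hD0 hD
  obtain ⟨Cs, y₀, hCs, hsurv⟩ := survivors α hα hc D hD0 hD
  obtain ⟨C₁, hC₁, hemb⟩ := emb_bound α
  set dn := Fintype.card ι with hdn
  have hdn0 : 0 < dn := by rw [hc]; exact Module.finrank_pos
  set c : ℝ := min 1 (c₁ / (8 * Cs)) with hcdef
  have hc0 : 0 < c := lt_min one_pos (by positivity)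
  have hc1 : c ≤ 1 := min_le_left _ _
  have hc2 : c ≤ c₁ / (8 * Cs) := min_le_right _ _
  set G : ℝ := (2 * C₁) ^ dn with hG
  have hG1 : 1 ≤ G := one_le_pow₀ (by linarith)
  set B : ℝ := max (max (max G 400) (max (8 * Real.log 20) L₁)) (max (max 8 (20 * y₀)) C₁)
    with hB
  have hBG : G ≤ B := (le_max_left _ _).trans ((le_max_left _ _).trans (le_max_left _ _))
  have hB400 : 400 ≤ B := (le_max_right _ _).trans ((le_max_left _ _).trans (le_max_left _ _))
  have hB20 : 8 * Real.log 20 ≤ B :=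
    (le_max_left _ _).trans ((le_max_right _ _).trans (le_max_left _ _))
  have hBL₁ : L₁ ≤ B := (le_max_right _ _).trans ((le_max_right _ _).trans (le_max_left _ _))
  have hBy₀ : 20 * y₀ ≤ B :=
    (le_max_right _ _).trans ((le_max_left _ _).trans (le_max_right _ _))
  have hBC₁ : C₁ ≤ B := (le_max_right _ _).trans (le_max_right _ _)
  obtain ⟨L₀, hL₀⟩ := ev_main (c / 2 ^ dn) B (by positivity)
  refine ⟨c, hc0, Real.exp (max L₀ 1), ?_⟩
  intro T hT u
  have hT0 : 0 < T := lt_of_lt_of_le (Real.exp_pos _) hT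
  have hLL : max L₀ 1 ≤ Real.log T := by
    rw [Real.le_log_iff_exp_le hT0]; exact hT
  obtain ⟨g1, g2, g3, g4, g5, g6, g7, g8⟩ := hL₀ (Real.log T) ((le_max_left _ _).trans hLL)
    _ _ _ rfl rfl rfl
  set L := Real.log T with hL
  set l1 := Real.log L with hl1
  set l2 := Real.log l1 with hl2
  set l3 := Real.log l2 with hl3
  have hl20 : 0 < l2 := by linarith
  have hl10 : 128 ≤ l1 := by linarith
  have hl1p : 1 ≤ l1 ^ 3 := one_le_pow₀ (by linarith)
  have hLB : B ≤ L := by nlinarith only [g7, hl1p, hB400]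
  have hL400 : 400 ≤ L := by linarith
  have hL0 : 0 < L := by linarith
  have hLl1 : 400 * l1 ^ 3 ≤ L := by nlinarith only [g7, hl1p, hB400]
  have hrec : rec L = L * l1 ^ 2 * l3 / l2 ^ 2 := rfl
  have hrec2 : rec L ≤ L * l1 ^ 2 := by
    rw [hrec, div_le_iff₀ (by positivity)]
    apply mul_le_mul_of_nonneg_left _ (by positivity)
    nlinarith only [g2, g8]
  have hrec0 : 0 < rec L := by
    rw [hrec]
    have : 0 < l3 := by linarith
    positivity
  -- `R`
  set q : ℝ := (c * rec L) ^ ((1:ℝ) / dn) with hq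
  have hq0 : 0 < q := Real.rpow_pos_of_pos (by positivity) _
  have hqd : q ^ dn = c * rec L := by
    rw [hq, ← Real.rpow_natCast, ← Real.rpow_mul (by positivity), one_div,
      inv_mul_cancel₀ (by exact_mod_cast hdn0.ne'), Real.rpow_one]
  set R : ℕ := ⌊q⌋₊ with hR
  have hRq : (R:ℝ) ≤ q := Nat.floor_le hq0.le
  have hRd : (R:ℝ) ^ dn ≤ c * rec L := by
    rw [← hqd]
    exact pow_le_pow_left₀ (Nat.cast_nonneg _) hRq _
  have hcL : 2 ^ dn * L ≤ c * rec L := by
    rw [hrec, ← mul_div_assoc, le_div_iff₀ (by positivity)]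
    have h1 : 2 ^ dn * l2 ^ 2 ≤ c * l1 ^ 2 := by
      have h2 := mul_le_mul_of_nonneg_left g6 (show (0:ℝ) ≤ 2 ^ dn by positivity)
      have h3 : (2:ℝ) ^ dn * (c / 2 ^ dn * l1 ^ 2) = c * l1 ^ 2 := by field_simp
      linarith
    have h4 : L * (2 ^ dn * l2 ^ 2) ≤ L * (c * l1 ^ 2) := mul_le_mul_of_nonneg_left h1 hL0.le
    have h5 : 0 ≤ L * (c * l1 ^ 2) := by positivity
    have h6 : L * (c * l1 ^ 2) ≤ L * (c * l1 ^ 2) * l3 := by nlinarith only [h5, g1]
    linarith
  have hq1 : 1 ≤ q := by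
    by_contra hcon
    push Not at hcon
    have h1 : q ^ dn < 1 := pow_lt_one₀ hq0.le hcon hdn0.ne'
    rw [hqd] at h1
    have h2 : (1:ℝ) ≤ 2 ^ dn := one_le_pow₀ (by norm_num)
    nlinarith only [h1, h2, hcL, hL400]
  have hRy : L ≤ (R:ℝ) ^ dn := by
    have h1 : q ≤ 2 * R := by
      have h2 := Nat.lt_floor_add_one q
      have h3 : (1:ℝ) ≤ R := by
        have : 1 ≤ R := Nat.le_floor (by exact_mod_cast hq1)
        exact_mod_cast this
      linarith
    have h2 := pow_le_pow_left₀ hq0.le h1 dn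
    rw [hqd, mul_pow] at h2
    have h3 : (2:ℝ) ^ dn * L ≤ 2 ^ dn * (R:ℝ) ^ dn := hcL.trans h2
    exact le_of_mul_le_mul_left h3 (by positivity)
  -- `y`
  set y : ℝ := L / 20 with hy
  have hyy₀ : y₀ ≤ y := by rw [hy]; linarith
  have hlog20 : 8 * Real.log 20 ≤ l1 := hB20.trans g4
  have hlogy : l1 / 2 ≤ Real.log y := by
    rw [hy, Real.log_div hL0.ne' (by norm_num)]
    have : 0 ≤ Real.log 20 := Real.log_nonneg (by norm_num)
    linarith
  have hlogy' : Real.log y ≤ l1 := by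
    rw [hl1]
    apply Real.log_le_log (by positivity)
    rw [hy]; linarith
  have hlog2 := Real.log_two_lt_d9
  have hl2y : l2 / 2 ≤ Real.log (Real.log y) := by
    have h1 := Real.log_le_log (by linarith) hlogy
    rw [Real.log_div (by linarith) (by norm_num)] at h1
    linarith
  have hl2y' : Real.log (Real.log y) ≤ l2 := Real.log_le_log (by linarith) hlogy'
  have hl3y : l3 / 2 ≤ Real.log (Real.log (Real.log y)) := by
    have h1 := Real.log_le_log (by linarith) hl2y
    rw [Real.log_div (by linarith) (by norm_num)] at h1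
    linarith
  have hRy1 : y ≤ (R:ℝ) ^ dn := by
    refine le_trans ?_ hRy
    rw [hy]; linarith
  have hRy2 : (R:ℝ) ^ dn ≤ y * (Real.log y) ^ 3 := by
    refine hRd.trans ?_
    have h1 : c * rec L ≤ L * l1 ^ 2 := by nlinarith only [hc1, hrec0, hrec2]
    refine h1.trans ?_
    have h2 := pow_le_pow_left₀ (by linarith : (0:ℝ) ≤ l1 / 2) hlogy 3
    have h3 : L * l1 ^ 2 ≤ y * (l1 / 2) ^ 3 := by
      rw [hy]
      have h4 : L / 20 * (l1 / 2) ^ 3 = L * l1 ^ 2 * (l1 / 160) := by ring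
      rw [h4]
      have h5 : 0 ≤ L * l1 ^ 2 := by positivity
      have h6 : 160 ≤ l1 := by linarith
      nlinarith only [h5, h6]
    refine h3.trans (mul_le_mul_of_nonneg_left h2 ?_)
    rw [hy]; positivity
  obtain ⟨b, hb⟩ := hsurv y hyy₀ R hRy1 hRy2
  -- the survivors
  set Sv : Finset (ι → ℤ) := (Box (fun _ => -(R:ℤ)) (2 * R + 1)).filter
    (fun h => ∀ P : Ideal (𝓞 K), (Ideal.absNorm P).Prime → (Ideal.absNorm P : ℝ) ≤ y →
      ¬ Ideal.absNorm P ∣ D → th α (b + h) ∉ P) with hSv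
  have hbox : ∀ h : ι → ℤ, h ∈ Box (fun _ => -(R:ℤ)) (2 * R + 1) ↔ ∀ i, |h i| ≤ R := by
    intro h
    rw [mem_Box]
    apply forall_congr'
    intro i
    rw [abs_le]
    push_cast
    omega
  have hSvR : ∀ h ∈ Sv, ∀ i, |h i| ≤ R := by
    intro h hh
    rw [hSv, mem_filter, hbox] at hh
    exact hh.1
  have hSvcard := hb Sv (by
    intro h hh
    rw [hSv, mem_filter, hbox] at hh
    exact hh)
  have hcard : (Fintype.card Sv : ℝ) ≤ c₁ * L := by
    rw [Fintype.card_coe]
    refine hSvcard.trans ?_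
    have h1 : (R:ℝ) ^ dn * (Real.log (Real.log y)) ^ 2 /
        ((Real.log y) ^ 2 * Real.log (Real.log (Real.log y))) ≤
        (c * rec L) * l2 ^ 2 / ((l1 / 2) ^ 2 * (l3 / 2)) := by
      apply div_le_div₀
      · positivity
      · apply mul_le_mul hRd _ (by positivity) (by positivity)
        exact pow_le_pow_left₀ (by linarith) hl2y' 2
      · have : 0 < l3 := by linarith
        positivity
      · apply mul_le_mul _ hl3y (by linarith) (by positivity)
        exact pow_le_pow_left₀ (by linarith) hlogy 2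
    have h2 : (c * rec L) * l2 ^ 2 / ((l1 / 2) ^ 2 * (l3 / 2)) = 8 * c * L := by
      rw [hrec]
      have h3 : l3 ≠ 0 := by linarith
      have h4 : l1 ≠ 0 := by linarith
      field_simp
      norm_num
    rw [h2] at h1
    calc Cs * ((R:ℝ) ^ dn * (Real.log (Real.log y)) ^ 2 /
        ((Real.log y) ^ 2 * Real.log (Real.log (Real.log y)))) ≤ Cs * (8 * c * L) :=
          mul_le_mul_of_nonneg_left h1 hCs.le
      _ ≤ Cs * (8 * (c₁ / (8 * Cs)) * L) := by
          apply mul_le_mul_of_nonneg_left _ hCs.le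
          apply mul_le_mul_of_nonneg_right _ hL0.le
          linarith
      _ = c₁ * L := by field_simp
  -- `M`
  set M : ℕ := primorial ⌊y⌋₊ with hM
  have hM0 : 0 < M := primorial_pos _
  have hy0 : 0 < y := by rw [hy]; positivity
  have hMle : (M:ℝ) ≤ Real.exp (L / 10) := by
    have h1 : (M:ℝ) ≤ (4:ℝ) ^ ⌊y⌋₊ := by exact_mod_cast primorial_le_four_pow _
    refine h1.trans ?_
    have h2 : (4:ℝ) ^ ⌊y⌋₊ = Real.exp (Real.log 4 * ⌊y⌋₊) := by
      rw [Real.exp_mul, Real.exp_log (by norm_num), Real.rpow_natCast]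
    rw [h2]
    apply Real.exp_le_exp.2
    have h3 : Real.log 4 ≤ 2 := by
      have : (4:ℝ) = 2 ^ 2 := by norm_num
      rw [this, Real.log_pow]
      push_cast
      linarith
    have h4 : (⌊y⌋₊ : ℝ) ≤ y := Nat.floor_le hy0.le
    have h5 : (0:ℝ) ≤ ⌊y⌋₊ := Nat.cast_nonneg _
    rw [hy] at h4
    nlinarith only [h3, h4, h5]
  have hMp : ∀ p : ℕ, p.Prime → L ^ 2 < p → ¬ p ∣ M := by
    intro p hp hpL hdvd
    rw [hM, hp.dvd_primorial_iff] at hdvd
    have h1 : (p:ℝ) ≤ y := (Nat.cast_le.2 hdvd).trans (Nat.floor_le hy0.le)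
    rw [hy] at h1
    nlinarith only [h1, hpL, hL400]
  have hMR : (0:ℝ) < M := by exact_mod_cast hM0
  set W : ℕ := ⌊T / M⌋₊ with hW
  have hTe : T = Real.exp L := by rw [hL, Real.exp_log hT0]
  have hWle : Real.exp (17 / 20 * L) ≤ W := by
    have h1 : T / M < (W:ℝ) + 1 := Nat.lt_floor_add_one _
    have h2 : Real.exp (9 / 10 * L) ≤ T / M := by
      rw [le_div_iff₀ hMR]
      calc Real.exp (9 / 10 * L) * M ≤ Real.exp (9 / 10 * L) * Real.exp (L / 10) :=
            mul_le_mul_of_nonneg_left hMle (Real.exp_pos _).le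
        _ = T := by rw [← Real.exp_add, hTe]; congr 1; ring
    have h3 : Real.exp (9 / 10 * L) = Real.exp (L / 20) * Real.exp (17 / 20 * L) := by
      rw [← Real.exp_add]; congr 1; ring
    have h4 : 2 ≤ Real.exp (L / 20) := by
      have := Real.add_one_le_exp (L / 20)
      linarith
    have h5 : 1 ≤ Real.exp (17 / 20 * L) := Real.one_le_exp (by linarith)
    nlinarith only [h1, h2, h3, h4, h5]
  set a : ι → ℤ := fun i => ⌈((u i - b i : ℤ) : ℝ) / M⌉ with ha
  -- the covering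
  have hdiff : ∀ P : Ideal (𝓞 K), (Ideal.absNorm P).Prime → L ^ 2 < (Ideal.absNorm P : ℝ) →
      ∀ k l : Sv, k ≠ l → th α k - th α l ∉ P := by
    intro P hP hPL k l hkl hmem
    have h1 : (k : ι → ℤ) - l ≠ 0 := fun h => hkl (Subtype.ext (sub_eq_zero.1 h))
    rw [← map_sub] at hmem
    have h2 : th α ((k : ι → ℤ) - l) ≠ 0 := fun h => h1 (th_inj hα (by rw [h, map_zero]))
    have h3 := absNorm_le_of_mem hmem h2
    have hk := hSvR k k.2
    have hl := hSvR l l.2
    have h4 := norm_le hc hemb ((k : ι → ℤ) - l) (2 * R) (by positivity) (by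
      intro i
      have e1 := hk i
      have e2 := hl i
      rw [abs_le] at e1 e2
      rw [Pi.sub_apply]
      have e3 : |(k : ι → ℤ) i - (l : ι → ℤ) i| ≤ 2 * (R:ℤ) := by
        rw [abs_le]
        constructor <;> omega
      exact_mod_cast e3)
    have h5 : (C₁ * (2 * (R:ℝ))) ^ dn ≤ L ^ 2 := by
      have h6 : (C₁ * (2 * (R:ℝ))) ^ dn = G * (R:ℝ) ^ dn := by
        rw [hG, ← mul_pow]; congr 1; ring
      rw [h6]
      have h7 : (R:ℝ) ^ dn ≤ L * l1 ^ 2 := by
        refine hRd.trans ?_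
        nlinarith only [hc1, hrec0, hrec2]
      have h8 : G * (L * l1 ^ 2) ≤ L ^ 2 := by
        have h9 : G * l1 ^ 2 ≤ B * l1 ^ 3 := by
          have : l1 ^ 2 ≤ l1 ^ 3 := pow_le_pow_right₀ (by linarith) (by norm_num)
          exact mul_le_mul hBG this (by positivity) (by linarith)
        nlinarith only [h9, g7, hL0]
      have h10 : G * (R:ℝ) ^ dn ≤ G * (L * l1 ^ 2) := mul_le_mul_of_nonneg_left h7 (by linarith)
      linarith
    linarith
  obtain ⟨w, hw1, hw2, hw3⟩ := hcov L (hBL₁.trans hLB) Sv (fun k => th α (k : ι → ℤ)) hcard hdiff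
    M (th α b) hM0 hMp a W hWle
  set x : ι → ℤ := b + (M : ℤ) • w with hx
  have hthx : th α x = th α b + (M : ℤ) • th α w := by rw [hx, map_add, map_smul]
  refine ⟨x, ?_, ?_⟩
  · intro i
    rw [mem_Box] at hw1
    obtain ⟨h1, h2⟩ := hw1 i
    have hxi : x i = b i + M * w i := by
      rw [hx, Pi.add_apply, Pi.smul_apply, smul_eq_mul]
    have h3 : ((u i - b i : ℤ) : ℝ) / M ≤ a i := Int.le_ceil _
    have h4 : (a i : ℝ) < ((u i - b i : ℤ) : ℝ) / M + 1 := Int.ceil_lt_add_one _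
    constructor
    · have h5 : ((u i - b i : ℤ) : ℝ) / M ≤ w i := h3.trans (by exact_mod_cast h1)
      rw [div_le_iff₀ hMR] at h5
      have h6 : u i - b i ≤ w i * M := by exact_mod_cast h5
      rw [hxi]
      linarith
    · have h5 : (w i : ℝ) ≤ a i + W - 1 := by
        have : w i ≤ a i + W - 1 := by omega
        exact_mod_cast this
      have h6 : (w i : ℝ) ≤ ((u i - b i : ℤ) : ℝ) / M + W := by linarith
      have h7 : (M:ℝ) * w i ≤ ((u i - b i : ℤ) : ℝ) + M * W := by
        have := mul_le_mul_of_nonneg_left h6 hMR.le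
        rw [mul_add, mul_div_cancel₀ _ hMR.ne'] at this
        exact this
      have h8 : (M:ℝ) * W ≤ T := by
        have : (W:ℝ) ≤ T / M := Nat.floor_le (by positivity)
        rw [le_div_iff₀ hMR] at this
        linarith
      rw [hxi]
      push_cast at h7 ⊢
      linarith
  · intro v hv
    have hvR : ∀ i, |v i| ≤ (R:ℤ) := by
      intro i
      have h1 := hv i
      rw [← hqd] at h1
      have h2 : |(v i : ℝ)| ≤ q := by
        by_contra hcon
        push Not at hcon
        have := pow_lt_pow_left₀ hcon hq0.le hdn0.ne'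
        linarith
      have h3 : ((v i).natAbs : ℝ) ≤ q := by
        rw [Nat.cast_natAbs]
        push_cast
        exact h2
      have h4 := Nat.le_floor h3
      rw [Int.abs_eq_natAbs]
      exact_mod_cast h4
    have hthxv : th α (x + v) = th α b + (M : ℤ) • th α w + th α v := by
      rw [map_add, hthx]
    have hlogle : L / (1000 * l1) ≤ L / l1 := by
      apply div_le_div_of_nonneg_left hL0.le (by linarith) (by linarith)
    -- the prime
    obtain ⟨P, hP1, hP2, hP3⟩ : ∃ P : Ideal (𝓞 K), (Ideal.absNorm P).Prime ∧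
        th α (x + v) ∈ P ∧ Real.log (Ideal.absNorm P) ≤ L / l1 := by
      by_cases hvS : v ∈ Sv
      · obtain ⟨P, h1, h2, h3, h4⟩ := hw3 ⟨v, hvS⟩
        refine ⟨P, h1, ?_, h3.trans hlogle⟩
        rw [hthxv]
        exact h4
      · rw [hSv, mem_filter, hbox] at hvS
        have h1 : ¬ ∀ P : Ideal (𝓞 K), (Ideal.absNorm P).Prime → (Ideal.absNorm P : ℝ) ≤ y →
          ¬ Ideal.absNorm P ∣ D → th α (b + v) ∉ P := fun h => hvS ⟨hvR, h⟩
        push Not at h1
        obtain ⟨P, h2, h3, h4, h5⟩ := h1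
        refine ⟨P, h2, ?_, ?_⟩
        · have h6 : th α (x + v) = th α (b + v) + (M : ℤ) • th α w := by
            rw [hthxv, map_add]; ring
          rw [h6]
          refine P.add_mem h5 ?_
          rw [zsmul_eq_mul]
          apply P.mul_mem_right
          have h7 : Ideal.absNorm P ∣ M := by
            rw [hM, h2.dvd_primorial_iff]
            exact Nat.le_floor h3
          obtain ⟨e, he⟩ := h7
          rw [Int.cast_natCast, he, Nat.cast_mul]
          exact P.mul_mem_right _ (Ideal.absNorm_mem P)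
        · have h6 : (0:ℝ) < Ideal.absNorm P := by exact_mod_cast h2.pos
          refine (Real.log_le_log h6 h3).trans (hlogy'.trans ?_)
          rw [le_div_iff₀ (by linarith)]
          have : l1 * l1 ≤ l1 ^ 3 := by
            rw [← sq]
            exact pow_le_pow_right₀ (by linarith) (by norm_num)
          linarith
    refine ⟨P, hP1, hP2, hP3, ?_⟩
    -- the size of the norm
    have hPe : (Ideal.absNorm P : ℝ) ≤ Real.exp (L / l1) := by
      have h6 : (0:ℝ) < Ideal.absNorm P := by exact_mod_cast hP1.pos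
      rw [← Real.exp_log h6]
      exact Real.exp_le_exp.2 hP3
    have hPe2 : (Ideal.absNorm P : ℝ) < Real.exp (L / 4) := by
      refine lt_of_le_of_lt hPe (Real.exp_lt_exp.2 ?_)
      exact div_lt_div_of_pos_left hL0 (by norm_num) (by linarith)
    rw [norm_eq]
    have hcard' : Fintype.card (K →ₐ[ℚ] ℂ) = dn := by rw [card_emb, ← hc]
    have hne : (Finset.univ : Finset (K →ₐ[ℚ] ℂ)).Nonempty := by
      rw [← Finset.card_pos, Finset.card_univ, hcard']
      exact hdn0
    rw [← hcard', ← Finset.card_univ, ← Finset.prod_const]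
    apply Finset.prod_lt_prod_of_nonempty
    · intro σ _
      exact_mod_cast hP1.pos
    · intro σ _
      refine lt_of_lt_of_le hPe2 ?_
      have h1 := hw2 σ
      rw [← hthx] at h1
      have h2 : ‖σ ((th α v : 𝓞 K) : K)‖ ≤ C₁ * R := by
        apply hemb σ v R (Nat.cast_nonneg _)
        intro i
        exact_mod_cast hvR i
      have h3 : σ ((th α (x + v) : 𝓞 K) : K) =
          σ ((th α x : 𝓞 K) : K) + σ ((th α v : 𝓞 K) : K) := by
        rw [map_add, ← map_add σ]
        congr 1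
      rw [h3]
      have h4 := norm_sub_le (σ ((th α x : 𝓞 K) : K) + σ ((th α v : 𝓞 K) : K))
        (σ ((th α v : 𝓞 K) : K))
      rw [add_sub_cancel_right] at h4
      have h5 : C₁ * R ≤ L ^ 2 := by
        have h6 : (R:ℝ) ≤ L * l1 ^ 2 := by
          have h7 : (R:ℝ) ≤ (R:ℝ) ^ dn := by
            rcases Nat.eq_zero_or_pos R with h | h
            · rw [h, Nat.cast_zero, zero_pow hdn0.ne']
            · exact le_self_pow₀ (by exact_mod_cast h) hdn0.ne'
          refine h7.trans (hRd.trans ?_)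
          nlinarith only [hc1, hrec0, hrec2]
        have h9 : C₁ * l1 ^ 2 ≤ B * l1 ^ 3 := by
          have : l1 ^ 2 ≤ l1 ^ 3 := pow_le_pow_right₀ (by linarith) (by norm_num)
          exact mul_le_mul hBC₁ this (by positivity) (by linarith)
        have h10 : C₁ * R ≤ C₁ * (L * l1 ^ 2) := mul_le_mul_of_nonneg_left h6 (by linarith)
        nlinarith only [h9, g7, hL0, h10]
      have h6 : L ^ 2 + Real.exp (L / 4) ≤ Real.exp (L / 2) := by
        have h7 : Real.exp (L / 2) = Real.exp (L / 4) * Real.exp (L / 4) := by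
          rw [← Real.exp_add]; congr 1; ring
        have h8 : (L / 4) ^ 2 / 2 ≤ Real.exp (L / 4) := by
          have := Real.quadratic_le_exp_of_nonneg (by positivity : 0 ≤ L / 4)
          linarith
        rw [h7]
        have h9 : 100 ≤ Real.exp (L / 4) := by
          have := Real.add_one_le_exp (L / 4)
          linarith
        nlinarith only [h8, h9]
      linarith
    · exact hne

end Pool.Agent.H525.NF
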