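import Pool.Agent.H525.NF.Mert

set_option autoImplicit false

/-! # Sums over primes -/

namespace Pool.Agent.H525.NF

open Finset
open Pool.Agent.H474R2.PG

open scoped Classical

/-- the first theorem of Mertens for real arguments -/
theorem mertens_real : ∃ M : ℝ, 0 ≤ M ∧ ∀ w : ℝ, 2 ≤ w →
    |∑ p ∈ PR w, Real.log p / p - Real.log w| ≤ M := by
  obtain ⟨M1, hM1⟩ := Pool.Agent.Helper256.KM.mertens_log
  have hM10 : 0 ≤ M1 := (abs_nonneg _).trans (hM1 1 le_rfl)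
  refine ⟨M1 + 1, by linarith, ?_⟩
  intro w hw
  have hw0 : 0 < w := by linarith
  have hN1 : 1 ≤ ⌊w⌋₊ := Nat.le_floor (by push_cast; linarith)
  have h4 := abs_le.1 (hM1 ⌊w⌋₊ hN1)
  have e4 : ∑ p ∈ PR w, Real.log p / p =
      ∑ p ∈ (Finset.Icc 1 ⌊w⌋₊).filter Nat.Prime, Real.log p / p := rfl
  rw [← e4] at h4
  have hN0 : (0:ℝ) < ⌊w⌋₊ := by exact_mod_cast hN1
  have h1 : Real.log ⌊w⌋₊ ≤ Real.log w := Real.log_le_log hN0 (Nat.floor_le hw0.le)
  have h2 : Real.log w - 1 ≤ Real.log ⌊w⌋₊ := by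
    have h3 : w / 2 ≤ (⌊w⌋₊ : ℝ) := by
      have := Nat.lt_floor_add_one w
      have h5 : (1:ℝ) ≤ ⌊w⌋₊ := by exact_mod_cast hN1
      linarith
    have h6 := Real.log_le_log (by positivity) h3
    rw [Real.log_div hw0.ne' (by norm_num)] at h6
    have := Real.log_two_lt_d9
    linarith
  rw [abs_le]
  constructor <;> linarith [h4.1, h4.2]

theorem sum_inv_le : ∃ M : ℝ, 0 ≤ M ∧ ∀ a b : ℝ, 2 ≤ a → a ≤ b →
    ∑ p ∈ (PR b).filter (fun p : ℕ => a < p), 1 / (p:ℝ) ≤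
      (Real.log b - Real.log a + M) / Real.log a := by
  obtain ⟨M, hM0, hM⟩ := mertens_real
  refine ⟨2 * M, by positivity, ?_⟩
  intro a b ha hab
  have hla : 0 < Real.log a := Real.log_pos (by linarith)
  rw [le_div_iff₀ hla, Finset.sum_mul]
  have h1 : ∀ p ∈ (PR b).filter (fun p : ℕ => a < p), 1 / (p:ℝ) * Real.log a ≤
      Real.log p / p := by
    intro p hp
    rw [mem_filter, mem_PR] at hp
    have hp0 : (0:ℝ) < p := by exact_mod_cast hp.1.1.pos
    rw [one_div, inv_mul_eq_div]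
    exact div_le_div_of_nonneg_right (Real.log_le_log (by linarith) hp.2.le) hp0.le
  have h2 := Finset.sum_le_sum h1
  have h3 : ∑ p ∈ (PR b).filter (fun p : ℕ => a < p), Real.log p / p =
      ∑ p ∈ PR b, Real.log p / p - ∑ p ∈ PR a, Real.log p / p := by
    have h4 := Finset.sum_filter_add_sum_filter_not (PR b) (fun p : ℕ => a < p)
      (fun p : ℕ => Real.log p / p)
    have h5 : (PR b).filter (fun p : ℕ => ¬ a < (p:ℝ)) = PR a := by
      ext p
      rw [mem_filter, mem_PR, mem_PR]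
      constructor
      · rintro ⟨⟨h, _⟩, h'⟩
        exact ⟨h, not_lt.1 h'⟩
      · rintro ⟨h, h'⟩
        exact ⟨⟨h, h'.trans hab⟩, not_lt.2 h'⟩
    rw [h5] at h4
    linarith
  have h6 := abs_le.1 (hM a ha)
  have h7 := abs_le.1 (hM b (ha.trans hab))
  linarith [h6.1, h7.2]

theorem sum_sq_le (z b : ℝ) (hz : 2 ≤ z) :
    ∑ p ∈ (PR b).filter (fun p : ℕ => z < p), 1 / (p:ℝ) ^ 2 ≤ 2 / z := by
  have h1 : (PR b).filter (fun p : ℕ => z < p) ⊆ Finset.Ioc ⌊z⌋₊ (max ⌊z⌋₊ ⌊b⌋₊) := by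
    intro p hp
    unfold PR at hp
    rw [mem_filter, mem_filter, mem_Icc] at hp
    rw [mem_Ioc]
    exact ⟨(Nat.floor_lt (by linarith)).2 hp.2, hp.1.1.2.trans (le_max_right _ _)⟩
  have hz1 : ⌊z⌋₊ ≠ 0 := by
    have : 2 ≤ ⌊z⌋₊ := Nat.le_floor (by exact_mod_cast hz)
    omega
  have h2 := sum_Ioc_inv_sq_le_sub (α := ℝ) hz1 (le_max_left ⌊z⌋₊ ⌊b⌋₊)
  have h3 : ∑ p ∈ (PR b).filter (fun p : ℕ => z < p), 1 / (p:ℝ) ^ 2 ≤
      ∑ i ∈ Finset.Ioc ⌊z⌋₊ (max ⌊z⌋₊ ⌊b⌋₊), ((i:ℝ) ^ 2)⁻¹ := by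
    simp only [one_div]
    exact Finset.sum_le_sum_of_subset_of_nonneg h1 (fun _ _ _ => by positivity)
  refine h3.trans (h2.trans ?_)
  have h4 : (0:ℝ) ≤ (((max ⌊z⌋₊ ⌊b⌋₊ : ℕ) : ℝ))⁻¹ := by positivity
  have h5 : ((⌊z⌋₊ : ℕ) : ℝ)⁻¹ ≤ 2 / z := by
    have h6 := Nat.lt_floor_add_one z
    have h7 : (2:ℝ) ≤ ⌊z⌋₊ := by
      have : 2 ≤ ⌊z⌋₊ := Nat.le_floor (by exact_mod_cast hz)
      exact_mod_cast this
    rw [inv_eq_one_div, div_le_div_iff₀ (by linarith) (by linarith)]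
    linarith
  linarith

theorem sum_rpow_le : ∃ C : ℝ, 0 ≤ C ∧ ∀ (z η : ℝ), 3 ≤ z → 0 ≤ η →
    ∑ p ∈ PR z, (p:ℝ) ^ (-(1 - η)) ≤
      Real.log (Real.log z) + C + C * Real.exp (2 * (η * Real.log z)) := by
  obtain ⟨M, hM0, hM⟩ := mertens_real
  obtain ⟨M2, hM2⟩ := Pool.Agent.Helper256.KM.mertens_inv
  refine ⟨|M2| + (1 + M), by positivity, ?_⟩
  intro z η hz hη
  have hlog1 : 1 ≤ Real.log z := by
    have h1 : Real.exp 1 ≤ z := by
      have := Real.exp_one_lt_d9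
      linarith
    have := Real.log_le_log (Real.exp_pos 1) h1
    rwa [Real.log_exp] at this
  set ν : ℝ := η * Real.log z with hν
  have hν0 : 0 ≤ ν := by positivity
  have h1 : ∀ p ∈ PR z, (p:ℝ) ^ (-(1 - η)) ≤ 1 / (p:ℝ) +
      η * Real.exp ν * (Real.log p / p) := by
    intro p hp
    rw [mem_PR] at hp
    have hp1 : (1:ℝ) ≤ p := by exact_mod_cast hp.1.one_lt.le
    have hp0 : (0:ℝ) < p := by linarith
    have hlp : 0 ≤ Real.log p := Real.log_nonneg hp1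
    set u : ℝ := η * Real.log p with hu
    have hu0 : 0 ≤ u := by positivity
    have huν : u ≤ ν := mul_le_mul_of_nonneg_left (Real.log_le_log hp0 hp.2) hη
    have e1 : (p:ℝ) ^ (-(1 - η)) = 1 / p * Real.exp u := by
      rw [Real.rpow_def_of_pos hp0,
        show Real.log p * -(1 - η) = -Real.log p + η * Real.log p by ring, Real.exp_add,
        Real.exp_neg, Real.exp_log hp0, one_div]
    have e2 : Real.exp u ≤ 1 + u * Real.exp u := by
      have h2 := Real.add_one_le_exp (-u)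
      have h3 : Real.exp u * Real.exp (-u) = 1 := by
        rw [← Real.exp_add, add_neg_cancel, Real.exp_zero]
      nlinarith [Real.exp_pos u]
    rw [e1]
    calc 1 / (p:ℝ) * Real.exp u ≤ 1 / (p:ℝ) * (1 + u * Real.exp ν) := by
          apply mul_le_mul_of_nonneg_left _ (by positivity)
          have : u * Real.exp u ≤ u * Real.exp ν :=
            mul_le_mul_of_nonneg_left (Real.exp_le_exp.2 huν) hu0
          linarith
      _ = _ := by rw [hu]; ring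
  have h2 := Finset.sum_le_sum h1
  rw [Finset.sum_add_distrib, ← Finset.mul_sum] at h2
  obtain ⟨hN3, hNlow, hNlog⟩ := P1_floor hz
  have h3 : ∑ p ∈ PR z, 1 / (p:ℝ) ≤ Real.log (Real.log z) + |M2| := by
    have h4 := (abs_le.1 (hM2 ⌊z⌋₊ hN3)).2
    have e5 : ∑ p ∈ PR z, (1 : ℝ) / p = ∑ p ∈ (Finset.Icc 1 ⌊z⌋₊).filter Nat.Prime, (1 : ℝ) / p :=
      rfl
    rw [← e5] at h4
    have h5 : Real.log (Real.log ⌊z⌋₊) ≤ Real.log (Real.log z) := by
      apply Real.log_le_log _ hNlog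
      apply Real.log_pos
      exact_mod_cast (by omega : 1 < ⌊z⌋₊)
    have := le_abs_self M2
    linarith
  have h4 := (abs_le.1 (hM z (by linarith))).2
  have h5 : η * Real.exp ν * ∑ p ∈ PR z, Real.log p / p ≤ (1 + M) * Real.exp (2 * ν) := by
    have h6 : ∑ p ∈ PR z, Real.log p / p ≤ (1 + M) * Real.log z := by nlinarith
    calc η * Real.exp ν * ∑ p ∈ PR z, Real.log p / p
        ≤ η * Real.exp ν * ((1 + M) * Real.log z) := mul_le_mul_of_nonneg_left h6 (by positivity)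
      _ = (1 + M) * (ν * Real.exp ν) := by rw [hν]; ring
      _ ≤ (1 + M) * (Real.exp ν * Real.exp ν) := by
          apply mul_le_mul_of_nonneg_left _ (by linarith)
          apply mul_le_mul_of_nonneg_right _ (Real.exp_pos _).le
          linarith [Real.add_one_le_exp ν]
      _ = (1 + M) * Real.exp (2 * ν) := by rw [← Real.exp_add]; ring_nf
  have h7 : 0 ≤ |M2| * Real.exp (2 * ν) := by positivity
  nlinarith

end Pool.Agent.H525.NF
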