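import Pool.Agent.H525.NF.Smooth
import Pool.Agent.H525.NF.Pint
import Pool.Agent.H525.AC.Greedy

set_option autoImplicit false
set_option linter.unusedSectionVars false

/-! # The first stage of the sieve -/

namespace Pool.Agent.H525.NF

open Finset NumberField Filter
open Pool.Agent.H474R2.PG

open scoped Classical

variable {K : Type} [Field K] [NumberField K] {ι : Type} [Fintype ι]

/-- the points of a box where an embedding is small -/
theorem emb_slab [Nonempty ι] (α : ι → 𝓞 K) (σ : K →ₐ[ℚ] ℂ) (δ : ℝ) (hδ : 0 < δ)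
    (h : ∀ i, δ ≤ ‖σ (α i : K)‖) (a : ι → ℤ) (W : ℕ) (c : 𝓞 K) (m : ℕ) (hm : 0 < m) (ρ : ℝ)
    (hρ : 0 ≤ ρ) (S : Finset (ι → ℤ)) (hS : S ⊆ Box a W)
    (hSρ : ∀ w ∈ S, ‖σ ((c + (m : ℤ) • th α w : 𝓞 K) : K)‖ ≤ ρ) :
    (S.card : ℝ) ≤ (2 * ρ / (m * δ) + 1) * (W : ℝ) ^ (Fintype.card ι - 1) := by
  obtain ⟨j⟩ := (inferInstance : Nonempty ι)
  have hm0 : (0:ℝ) < m := by exact_mod_cast hm
  set q : ℝ := 2 * ρ / (m * δ) with hq
  have hq0 : 0 ≤ q := by positivity
  have h1 := slab a W ⌊q⌋₊ j S hS (by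
    intro w hw w' hw' hww
    have h2 : th α w - th α w' = (w j - w' j) • α j := by
      rw [th_apply, th_apply, ← Finset.sum_sub_distrib]
      rw [Finset.sum_eq_single j]
      · rw [sub_smul]
      · intro i _ hi
        rw [hww i hi, sub_self]
      · intro h; exact absurd (mem_univ j) h
    have h3 : σ ((c + (m : ℤ) • th α w : 𝓞 K) : K) - σ ((c + (m : ℤ) • th α w' : 𝓞 K) : K) =
        (m : ℂ) * (((w j - w' j : ℤ) : ℂ) * σ (α j : K)) := by
      rw [← map_sub]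
      have h4 : ((c + (m : ℤ) • th α w : 𝓞 K) : K) - ((c + (m : ℤ) • th α w' : 𝓞 K) : K) =
          (((m : ℤ) • ((w j - w' j) • α j) : 𝓞 K) : K) := by
        rw [← h2, smul_sub]
        push_cast
        ring
      rw [h4]
      simp
    have h5 := norm_sub_le (σ ((c + (m : ℤ) • th α w : 𝓞 K) : K))
      (σ ((c + (m : ℤ) • th α w' : 𝓞 K) : K))
    rw [h3, norm_mul, norm_mul, Complex.norm_natCast, Complex.norm_intCast] at h5
    have h6 := hSρ w hw
    have h7 := hSρ w' hw'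
    have h8 : |((w j - w' j : ℤ) : ℝ)| ≤ q := by
      rw [hq, le_div_iff₀ (by positivity)]
      have h9 : |((w j - w' j : ℤ) : ℝ)| * (m * δ) ≤
          (m:ℝ) * (|((w j - w' j : ℤ) : ℝ)| * ‖σ (α j : K)‖) := by
        have h10 := mul_le_mul_of_nonneg_left (h j)
          (mul_nonneg hm0.le (abs_nonneg ((w j - w' j : ℤ) : ℝ)))
        calc |((w j - w' j : ℤ) : ℝ)| * (m * δ) = (m:ℝ) * |((w j - w' j : ℤ) : ℝ)| * δ := by ring
          _ ≤ _ := h10
          _ = _ := by ring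
      linarith
    have h9 : ((w j - w' j).natAbs : ℝ) ≤ q := by
      rw [Nat.cast_natAbs]
      push_cast at h8 ⊢
      exact h8
    have h10 := Nat.le_floor h9
    rw [Int.abs_eq_natAbs]
    exact_mod_cast h10)
  have h2 : (S.card : ℝ) ≤ ((⌊q⌋₊ + 1 : ℕ) : ℝ) * (W : ℝ) ^ (Fintype.card ι - 1) := by
    exact_mod_cast h1
  refine h2.trans ?_
  apply mul_le_mul_of_nonneg_right _ (by positivity)
  push_cast
  linarith [Nat.floor_le hq0]

/-- the points in the ideals of a family -/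
theorem U_card {α : ι → 𝓞 K} {C R : ℝ} {Rn : ℕ} (T : Finset (ι → ℤ)) (hR : R = Rn)
    (hT : ∀ w ∈ T, ∀ i, |w i| ≤ Rn)
    (hC : ∀ (I : Ideal (𝓞 K)), I ≠ ⊥ → ∀ S : Finset (ι → ℤ),
      (∀ w ∈ S, (∀ i, |w i| ≤ Rn) ∧ w ≠ 0 ∧ th α w ∈ I) →
      (S.card : ℝ) ≤ C * (R ^ Fintype.card ι / Ideal.absNorm I))
    (Q : Finset (Ideal (𝓞 K))) (hQ : ∀ P ∈ Q, P ≠ ⊥) :
    ((Q.biUnion (fun P => T.filter (fun h => h ≠ 0 ∧ th α h ∈ P))).card : ℝ) ≤
      C * R ^ Fintype.card ι * ∑ P ∈ Q, 1 / (Ideal.absNorm P : ℝ) := by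
  have h1 : ((Q.biUnion (fun P => T.filter (fun h => h ≠ 0 ∧ th α h ∈ P))).card : ℝ) ≤
      ∑ P ∈ Q, ((T.filter (fun h => h ≠ 0 ∧ th α h ∈ P)).card : ℝ) := by
    exact_mod_cast Finset.card_biUnion_le
  refine h1.trans ?_
  rw [Finset.mul_sum]
  apply Finset.sum_le_sum
  intro P hP
  have h2 := hC P (hQ P hP) (T.filter (fun h => h ≠ 0 ∧ th α h ∈ P)) (by
    intro w hw
    rw [mem_filter] at hw
    exact ⟨hT w hw.1, hw.2.1, hw.2.2⟩)
  refine h2.trans (le_of_eq ?_)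
  ring

/-- the primes of degree at least two -/
theorem sum_deg_two (X : ℕ) (z : ℝ) (hz : 2 ≤ z) :
    ∑ P ∈ (Id K X).filter (fun P => P.IsPrime ∧ z < ((Ideal.absNorm P).minFac : ℝ) ∧
      ¬ (Ideal.absNorm P).Prime), 1 / (Ideal.absNorm P : ℝ) ≤ Module.finrank ℚ K * (2 / z) := by
  set Q := (Id K X).filter (fun P => P.IsPrime ∧ z < ((Ideal.absNorm P).minFac : ℝ) ∧
      ¬ (Ideal.absNorm P).Prime) with hQ
  have hmem : ∀ P ∈ Q, ∃ p : ℕ, p.Prime ∧ ((p : ℕ) : 𝓞 K) ∈ P ∧ (Ideal.absNorm P).minFac = p ∧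
      z < (p:ℝ) ∧ (p:ℝ) ^ 2 ≤ Ideal.absNorm P ∧ p ≤ X ∧ P.IsPrime := by
    intro P hP
    rw [hQ, mem_filter, mem_Id] at hP
    obtain ⟨⟨h1, h2⟩, h3, h4, h5⟩ := hP
    obtain ⟨p, hp, hpP, hmin, n, hn, hnorm⟩ := below h3 h2
    rw [hmin] at h4
    have hn2 : 2 ≤ n := by
      by_contra hcon
      have : n = 1 := by omega
      rw [this, pow_one] at hnorm
      rw [hnorm] at h5
      exact h5 hp
    have h6 : p ^ 2 ≤ Ideal.absNorm P := by
      rw [hnorm]
      exact Nat.pow_le_pow_right hp.pos hn2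
    refine ⟨p, hp, hpP, hmin, h4, by exact_mod_cast h6, ?_, h3⟩
    have : p ≤ p ^ 2 := Nat.le_self_pow (by norm_num) p
    omega
  have hmaps : ∀ P ∈ Q, (Ideal.absNorm P).minFac ∈ (PR X).filter (fun p : ℕ => z < p) := by
    intro P hP
    obtain ⟨p, hp, -, hmin, hz', -, hX, -⟩ := hmem P hP
    rw [mem_filter, mem_PR, hmin]
    exact ⟨⟨hp, by exact_mod_cast hX⟩, hz'⟩
  rw [← Finset.sum_fiberwise_of_maps_to hmaps]
  have h1 : ∀ p ∈ (PR X).filter (fun p : ℕ => z < p),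
      ∑ P ∈ Q.filter (fun P => (Ideal.absNorm P).minFac = p), 1 / (Ideal.absNorm P : ℝ) ≤
      Module.finrank ℚ K * (1 / (p:ℝ) ^ 2) := by
    intro p hp
    rw [mem_filter, mem_PR] at hp
    have hp0 : (0:ℝ) < p := by exact_mod_cast hp.1.1.pos
    have h2 : ∀ P ∈ Q.filter (fun P => (Ideal.absNorm P).minFac = p),
        1 / (Ideal.absNorm P : ℝ) ≤ 1 / (p:ℝ) ^ 2 := by
      intro P hP
      rw [mem_filter] at hP
      obtain ⟨p', hp', -, hmin, -, hsq, -, -⟩ := hmem P hP.1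
      rw [hP.2] at hmin
      rw [← hmin] at hsq
      exact one_div_le_one_div_of_le (by positivity) hsq
    have h3 : (Q.filter (fun P => (Ideal.absNorm P).minFac = p)).card ≤ Module.finrank ℚ K := by
      apply card_over p hp.1.1
      intro P hP
      rw [mem_filter] at hP
      obtain ⟨p', hp', hpP, hmin, -, -, -, hprime⟩ := hmem P hP.1
      rw [hP.2] at hmin
      rw [← hmin] at hpP
      exact ⟨hprime, hpP⟩
    have h4 := Finset.sum_le_card_nsmul _ _ _ h2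
    rw [nsmul_eq_mul] at h4
    exact h4.trans (mul_le_mul_of_nonneg_right (by exact_mod_cast h3) (by positivity))
  refine (Finset.sum_le_sum h1).trans ?_
  rw [← Finset.mul_sum]
  exact mul_le_mul_of_nonneg_left (sum_sq_le z X hz) (Nat.cast_nonneg _)

/-- the points left after the medium primes -/
theorem T_card (α : ι → 𝓞 K) (hα : LinearIndependent ℤ α)
    (hc : Fintype.card ι = Module.finrank ℚ K) : ∃ C A₀ B : ℝ, 0 < C ∧ 1 ≤ A₀ ∧
    ∀ (y l1 l2 l3 : ℝ) (R : ℕ), 3 ≤ y → l1 = Real.log y → l2 = Real.log l1 → l3 = Real.log l2 →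
      1 ≤ l3 → l3 ≤ l2 → B ≤ l2 → B * l2 ^ 2 ≤ l1 →
      y ≤ (R : ℝ) ^ Fintype.card ι → (R : ℝ) ^ Fintype.card ι ≤ y * l1 ^ 3 →
      ∀ T : Finset (ι → ℤ), (∀ w ∈ T, ∀ i, |w i| ≤ R) →
        (∀ w ∈ T, ∀ P ∈ PI K (Real.exp (l1 * l3 / (A₀ * l2))) y, th α w ∉ P) →
        (T.card : ℝ) ≤ C * ((R : ℝ) ^ Fintype.card ι * l2 / l1) := by
  obtain ⟨C₂, hC₂, hideal⟩ := ideal_count hα hc
  obtain ⟨C₁, hC₁, hemb⟩ := emb_bound α
  obtain ⟨δ, hδ, hδ2⟩ := emb_ne hα
  obtain ⟨M, hM0, hM⟩ := sum_inv_le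
  obtain ⟨C₃, hC₃0, hC₃⟩ := sum_rpow_le
  set dn := Fintype.card ι with hdn
  set d : ℝ := (dn : ℝ) with hd
  have hfin : (Module.finrank ℚ K : ℝ) = d := by rw [hd, hc]
  have hdn0 : 0 < dn := by rw [hc]; exact Module.finrank_pos
  have hd1 : 1 ≤ d := by rw [hd]; exact_mod_cast hdn0
  have hne : Nonempty ι := Fintype.card_pos_iff.1 hdn0
  set A₀ : ℝ := 4 * (4 * d * (1 + 2 * C₃) + 1) with hA₀
  have hA₀4 : 4 ≤ A₀ := by
    rw [hA₀]
    have : 0 ≤ 4 * d * (1 + 2 * C₃) := by positivity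
    linarith
  set C₄ : ℝ := d * ((2 / δ + 1) * 3 ^ dn) with hC₄
  set B : ℝ := max (max (A₀) (d * Real.log C₁ + M)) (max (2 * d) 1) with hB
  have hB1 : A₀ ≤ B := (le_max_left _ _).trans (le_max_left _ _)
  have hB2 : d * Real.log C₁ + M ≤ B := (le_max_right _ _).trans (le_max_left _ _)
  have hB3 : 2 * d ≤ B := (le_max_left _ _).trans (le_max_right _ _)
  have hB4 : 1 ≤ B := (le_max_right _ _).trans (le_max_right _ _)
  refine ⟨1 + C₂ * (4 * d) + C₂ * (2 * d) + C₂ + C₄, A₀, B, by positivity, by linarith, ?_⟩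
  intro y l1 l2 l3 R hy hl1 hl2 hl3 h1l3 hl32 hBl2 hBl1 hyR hRy T hTR hTP
  have h1l2 : 1 ≤ l2 := by linarith
  have hl2sq : l2 ≤ l2 ^ 2 := by nlinarith only [h1l2]
  have hl12 : B * l2 ≤ l1 := by nlinarith only [hl2sq, hB4, hBl1]
  have hl21 : l2 ≤ l1 := by nlinarith only [hl12, hB4, h1l2]
  have h1l1 : 1 ≤ l1 := by linarith
  have hy0 : 0 < y := by linarith
  have hl10 : 0 < l1 := by linarith
  have hl20 : 0 < l2 := by linarith
  set z : ℝ := Real.exp (l1 * l3 / (A₀ * l2)) with hz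
  have hlz : Real.log z = l1 * l3 / (A₀ * l2) := by rw [hz, Real.log_exp]
  have hA₀0 : 0 < A₀ := by linarith
  have hlz1 : l2 ≤ Real.log z := by
    rw [hlz, le_div_iff₀ (by positivity)]
    have h1 : A₀ * l2 ^ 2 ≤ l1 := le_trans (mul_le_mul_of_nonneg_right hB1 (by positivity)) hBl1
    nlinarith only [h1, h1l3, hl10]
  have hlzy : Real.log z ≤ l1 := by
    rw [hlz, div_le_iff₀ (by positivity)]
    have : l3 ≤ A₀ * l2 := by nlinarith only [hl32, hA₀4, hl20]
    nlinarith only [this, hl10]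
  have hz1 : l1 ≤ z := by
    have h1 : l1 = Real.exp l2 := by rw [hl2, Real.exp_log hl10]
    rw [h1, hz, Real.exp_le_exp, ← hlz]
    exact hlz1
  have hzy : z ≤ y := by
    have h1 : y = Real.exp l1 := by rw [hl1, Real.exp_log hy0]
    rw [h1, hz, Real.exp_le_exp, ← hlz]
    exact hlzy
  -- `R`
  set Rr : ℝ := (R : ℝ) with hRr
  have hR1 : 1 ≤ Rr := by
    by_contra hcon
    push Not at hcon
    have h1 : R = 0 := by
      rw [hRr] at hcon
      have : R < 1 := by exact_mod_cast hcon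
      omega
    rw [hRr, h1, Nat.cast_zero, zero_pow hdn0.ne'] at hyR
    linarith
  have hR0 : 0 < Rr := by linarith
  have hlogR : l1 ≤ d * Real.log Rr := by
    rw [hl1, hd, ← Real.log_pow]
    exact Real.log_le_log hy0 hyR
  set ρ : ℝ := Real.sqrt Rr with hρ
  have hρ0 : 0 < ρ := Real.sqrt_pos.2 hR0
  have hρ1 : 1 ≤ ρ := by rw [hρ]; exact Real.one_le_sqrt.2 hR1
  have hρρ : ρ * ρ = Rr := Real.mul_self_sqrt hR0.le
  have hlogρ : Real.log ρ = Real.log Rr / 2 := by rw [hρ, Real.log_sqrt hR0.le]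
  have hρl1 : l1 ≤ ρ := by
    have h1 : l1 = Real.exp l2 := by rw [hl2, Real.exp_log hl10]
    rw [h1, ← Real.exp_log hρ0, Real.exp_le_exp, hlogρ]
    have h2 : 2 * d * l2 ≤ d * Real.log Rr :=
      (mul_le_mul_of_nonneg_right hB3 hl20.le).trans (hl12.trans hlogR)
    have h3 : 2 * l2 ≤ Real.log Rr := by
      have h4 : d * (2 * l2) ≤ d * Real.log Rr := by linarith
      exact le_of_mul_le_mul_left h4 (by linarith)
    linarith
  have hexp : Real.exp 1 ≤ z := by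
    rw [hz, Real.exp_le_exp, ← hlz]; linarith
  have hz2' : 2 ≤ z := by
    have := Real.exp_one_gt_d9
    linarith
  set X₀ : ℝ := (C₁ * Rr) ^ dn with hX₀
  have hX₀y : y ≤ X₀ := by
    refine hyR.trans ?_
    rw [hX₀]
    exact pow_le_pow_left₀ hR0.le (by nlinarith only [hR0, hC₁]) _
  set X : ℕ := ⌊X₀⌋₊ with hX
  set Rd : ℝ := Rr ^ dn with hRd
  have hRd0 : 0 < Rd := by positivity
  have hC : ∀ (I : Ideal (𝓞 K)), I ≠ ⊥ → ∀ S : Finset (ι → ℤ),
      (∀ w ∈ S, (∀ i, |w i| ≤ R) ∧ w ≠ 0 ∧ th α w ∈ I) →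
      (S.card : ℝ) ≤ C₂ * (Rr ^ Fintype.card ι / Ideal.absNorm I) :=
    fun I hI S hS => hideal I R hI S hS
  -- the families
  set Q₁ := PI K y X₀ with hQ₁
  set Q₂ := (Id K X).filter (fun P => P.IsPrime ∧ z < ((Ideal.absNorm P).minFac : ℝ) ∧
      ¬ (Ideal.absNorm P).Prime) with hQ₂
  set V : ℝ := ρ ^ dn with hV
  have hV1 : 1 ≤ V := one_le_pow₀ hρ1
  set Q₃ := (SmI X (PZ K X z)).filter (fun I => V ≤ (Ideal.absNorm I : ℝ)) with hQ₃
  set U : Finset (Ideal (𝓞 K)) → Finset (ι → ℤ) :=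
    fun Q => Q.biUnion (fun P => T.filter (fun h => h ≠ 0 ∧ th α h ∈ P)) with hU
  set BS : Finset (ι → ℤ) := (Finset.univ : Finset (K →ₐ[ℚ] ℂ)).biUnion
    (fun σ => T.filter (fun h => ‖σ (th α h : 𝓞 K)‖ ≤ ρ)) with hBS
  have hcover : T ⊆ {0} ∪ U Q₁ ∪ U Q₂ ∪ U Q₃ ∪ BS := by
    intro h hh
    simp only [mem_union, Finset.mem_singleton]
    by_cases h0 : h = 0
    · exact Or.inl (Or.inl (Or.inl (Or.inl h0)))
    have ht0 : th α h ≠ 0 := fun h1 => h0 (th_inj hα (by rw [h1, map_zero]))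
    have hnorm : |((Algebra.norm ℤ (th α h) : ℤ) : ℝ)| ≤ X₀ := by
      apply norm_le hc hemb h Rr hR0.le
      intro i
      have := hTR h hh i
      rw [hRr]
      exact_mod_cast this
    have hNle : ∀ P : Ideal (𝓞 K), th α h ∈ P → (Ideal.absNorm P : ℝ) ≤ X₀ :=
      fun P hP => (absNorm_le_of_mem hP ht0).trans hnorm
    by_cases hA : ∃ P ∈ Q₁, th α h ∈ P
    · obtain ⟨P, hP1, hP2⟩ := hA
      refine Or.inl (Or.inl (Or.inl (Or.inr ?_)))
      rw [hU]
      exact Finset.mem_biUnion.2 ⟨P, hP1, Finset.mem_filter.2 ⟨hh, h0, hP2⟩⟩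
    by_cases hB1 : ∃ P ∈ Q₂, th α h ∈ P
    · obtain ⟨P, hP1, hP2⟩ := hB1
      refine Or.inl (Or.inl (Or.inr ?_))
      rw [hU]
      exact Finset.mem_biUnion.2 ⟨P, hP1, Finset.mem_filter.2 ⟨hh, h0, hP2⟩⟩
    -- all prime factors are small
    have hsm : ∀ P : Ideal (𝓞 K), P.IsPrime → P ≠ ⊥ → th α h ∈ P → P ∈ PZ K X z := by
      intro P hP hP0 hhP
      unfold PZ
      rw [mem_filter, mem_Id]
      have hN := hNle P hhP
      refine ⟨⟨Nat.le_floor hN, hP0⟩, hP, ?_⟩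
      by_contra hcon
      push Not at hcon
      by_cases hpr : (Ideal.absNorm P).Prime
      · have h3 : (Ideal.absNorm P).minFac = Ideal.absNorm P := hpr.minFac_eq
        rw [h3] at hcon
        rcases le_or_gt ((Ideal.absNorm P : ℕ) : ℝ) y with h4 | h4
        · exact hTP h hh P (mem_PI.2 ⟨hpr, hcon, h4⟩) hhP
        · exact hA ⟨P, mem_PI.2 ⟨hpr, h4, hN⟩, hhP⟩
      · exact hB1 ⟨P, by
          rw [hQ₂, mem_filter, mem_Id]
          exact ⟨⟨Nat.le_floor hN, hP0⟩, hP, hcon, hpr⟩, hhP⟩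
    set I : Ideal (𝓞 K) := Ideal.span {th α h} with hI
    have hI0 : I ≠ ⊥ := by
      rw [hI, Ne, Ideal.span_singleton_eq_bot]
      exact ht0
    have hhI : th α h ∈ I := Ideal.mem_span_singleton_self _
    have hIN : (Ideal.absNorm I : ℝ) = |((Algebra.norm ℤ (th α h) : ℤ) : ℝ)| := by
      rw [hI, Ideal.absNorm_span_singleton, Nat.cast_natAbs, Int.cast_abs]
    rcases le_or_gt V (Ideal.absNorm I : ℝ) with hVI | hVI
    · refine Or.inl (Or.inr ?_)
      rw [hU]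
      refine Finset.mem_biUnion.2 ⟨I, ?_, Finset.mem_filter.2 ⟨hh, h0, hhI⟩⟩
      rw [hQ₃, mem_filter, mem_SmI]
      refine ⟨⟨⟨Nat.le_floor (hNle I hhI), hI0⟩, fun P hP hIP => ?_⟩, hVI⟩
      have hP0 : P ≠ ⊥ := by
        rintro rfl
        exact hI0 (le_bot_iff.1 hIP)
      exact hsm P hP hP0 (hIP hhI)
    · refine Or.inr ?_
      rw [hBS, Finset.mem_biUnion]
      by_contra hcon
      push Not at hcon
      have h3 : V ≤ |((Algebra.norm ℤ (th α h) : ℤ) : ℝ)| := by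
        rw [norm_eq, hV, hc, ← card_emb (K := K), ← Finset.card_univ, ← Finset.prod_const]
        apply Finset.prod_le_prod (fun _ _ => hρ0.le)
        intro σ _
        have h4 := hcon σ (mem_univ σ)
        rw [Finset.mem_filter, not_and] at h4
        exact (not_le.1 (h4 hh)).le
      rw [hIN] at hVI
      linarith
  have hcard : (T.card : ℝ) ≤ 1 + ((U Q₁).card : ℝ) + ((U Q₂).card : ℝ) + ((U Q₃).card : ℝ) +
      (BS.card : ℝ) := by
    have h1 := Finset.card_le_card hcover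
    have h2 := Finset.card_union_le ({0} ∪ U Q₁ ∪ U Q₂ ∪ U Q₃) BS
    have h3 := Finset.card_union_le ({0} ∪ U Q₁ ∪ U Q₂) (U Q₃)
    have h4 := Finset.card_union_le ({0} ∪ U Q₁) (U Q₂)
    have h5 := Finset.card_union_le ({0} : Finset (ι → ℤ)) (U Q₁)
    have h6 : ({0} : Finset (ι → ℤ)).card = 1 := Finset.card_singleton _
    have h7 : T.card ≤ 1 + (U Q₁).card + (U Q₂).card + (U Q₃).card + BS.card := by omega
    exact_mod_cast h7
  -- the bounds
  have hb0 : (1:ℝ) ≤ Rd * l2 / l1 := by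
    rw [le_div_iff₀ hl10, one_mul]
    have h1 : l1 ≤ y := by
      rw [hl1]; linarith only [Real.log_le_sub_one_of_pos hy0]
    nlinarith only [h1, hyR, h1l2, hy0]
  have hb1 : ((U Q₁).card : ℝ) ≤ C₂ * (4 * d) * (Rd * l2 / l1) := by
    have h1 := U_card T hRr hTR hC Q₁ (fun P hP => by
      rw [hQ₁, mem_PI] at hP
      exact ne_bot_of hP.1)
    have h2 := sum_PI_le (K := K) (a := y) (b := X₀) (φ := fun p => 1 / (p:ℝ))
      (fun p => by positivity)
    have h3 := hM y X₀ (by linarith) hX₀y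
    have h4 : Real.log X₀ ≤ d * Real.log C₁ + l1 + 3 * l2 := by
      have h5 : X₀ = C₁ ^ dn * Rd := by rw [hX₀, mul_pow]
      rw [h5, Real.log_mul (by positivity) hRd0.ne', Real.log_pow]
      have h6 : Real.log Rd ≤ l1 + 3 * l2 := by
        refine (Real.log_le_log hRd0 hRy).trans (le_of_eq ?_)
        rw [Real.log_mul hy0.ne' (by positivity), ← hl1, Real.log_pow, ← hl2]
        push_cast
        ring
      linarith only [h6, hd]
    have h5 : (Real.log X₀ - Real.log y + M) / Real.log y ≤ 4 * l2 / l1 := by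
      rw [← hl1]
      apply div_le_div_of_nonneg_right _ hl10.le
      linarith
    have h6 : ∑ P ∈ Q₁, 1 / (Ideal.absNorm P : ℝ) ≤ d * (4 * l2 / l1) := by
      refine h2.trans ?_
      rw [hfin]
      exact mul_le_mul_of_nonneg_left (h3.trans h5) (by linarith)
    refine h1.trans ?_
    calc C₂ * Rd * ∑ P ∈ Q₁, 1 / (Ideal.absNorm P : ℝ) ≤ C₂ * Rd * (d * (4 * l2 / l1)) :=
          mul_le_mul_of_nonneg_left h6 (by positivity)
      _ = _ := by ring
  have hb2 : ((U Q₂).card : ℝ) ≤ C₂ * (2 * d) * (Rd * l2 / l1) := by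
    have h1 := U_card T hRr hTR hC Q₂ (fun P hP => by
      rw [hQ₂, mem_filter, mem_Id] at hP
      exact hP.1.2)
    have h2 := sum_deg_two (K := K) X z hz2'
    rw [hfin] at h2
    have h3 : d * (2 / z) ≤ 2 * d * (l2 / l1) := by
      have h4 : 2 / z ≤ 2 / l1 := div_le_div_of_nonneg_left (by norm_num) hl10 hz1
      have h5 : 2 / l1 ≤ 2 * (l2 / l1) := by
        rw [← mul_div_assoc]
        apply div_le_div_of_nonneg_right _ hl10.le
        linarith
      have h6 : d * (2 / z) ≤ d * (2 * (l2 / l1)) :=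
        mul_le_mul_of_nonneg_left (h4.trans h5) (by linarith)
      linarith
    refine h1.trans ?_
    calc C₂ * Rd * ∑ P ∈ Q₂, 1 / (Ideal.absNorm P : ℝ) ≤ C₂ * Rd * (2 * d * (l2 / l1)) :=
          mul_le_mul_of_nonneg_left (h2.trans h3) (by positivity)
      _ = _ := by ring
  have hb3 : ((U Q₃).card : ℝ) ≤ C₂ * (Rd * l2 / l1) := by
    have h1 := U_card T hRr hTR hC Q₃ (fun P hP => by
      rw [hQ₃, mem_filter, mem_SmI] at hP
      exact hP.1.1.2)
    set η : ℝ := A₀ * l2 / (2 * l1) with hη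
    have hη0 : 0 ≤ η := by positivity
    have hη2 : η ≤ 1 / 2 := by
      rw [hη, div_le_div_iff₀ (by positivity) (by norm_num)]
      have : A₀ * l2 ≤ l1 := le_trans (mul_le_mul_of_nonneg_right hB1 hl20.le) hl12
      linarith
    have h2 := smooth_tail (K := K) X z V (1 - η) (by linarith) (by linarith) hV1
    have h2' := hC₃ z η (by
      -- `3 ≤ z`
      have h3 : Real.exp 4 ≤ z := by
        rw [hz, Real.exp_le_exp, ← hlz]
        have h4 : 4 ≤ l2 := by linarith only [hA₀4, hB1, hBl2]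
        linarith only [h4, hlz1]
      have h4 := Real.add_one_le_exp (4:ℝ)
      linarith) hη0
    have h3 : 2 * (η * Real.log z) = l3 := by
      rw [hlz, hη]
      field_simp
    rw [h3, hl3, Real.exp_log hl20] at h2'
    have h4 : Real.log (Real.log z) ≤ l2 := by
      rw [hl2]
      exact Real.log_le_log (by linarith) hlzy
    have h5 : ∑ p ∈ PR z, (p : ℝ) ^ (-(1 - η)) ≤ (1 + 2 * C₃) * l2 := by
      nlinarith only [h2', h4, hC₃0, h1l2]
    have h6 : V ^ (-(1 - (1 - η))) ≤ Real.exp (-(A₀ / 4 * l2)) := by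
      have h7 : -(1 - (1 - η)) = -η := by ring
      rw [h7, Real.rpow_def_of_pos (by linarith)]
      apply Real.exp_le_exp.2
      have h8 : Real.log V = d * (Real.log Rr / 2) := by rw [hV, Real.log_pow, hlogρ]
      rw [h8]
      have h9 : l1 / 2 ≤ d * (Real.log Rr / 2) := by linarith
      have h10 : l1 / 2 * η ≤ d * (Real.log Rr / 2) * η := mul_le_mul_of_nonneg_right h9 hη0
      have h11 : l1 / 2 * η = A₀ / 4 * l2 := by rw [hη]; field_simp; norm_num
      linarith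
    have h7 : ∑ I ∈ Q₃, 1 / (Ideal.absNorm I : ℝ) ≤ l2 / l1 := by
      refine h2.trans ?_
      rw [hfin]
      have h8 : Real.exp (4 * (d * ∑ p ∈ PR z, (p : ℝ) ^ (-(1 - η)))) ≤
          Real.exp (4 * (d * ((1 + 2 * C₃) * l2))) := by
        apply Real.exp_le_exp.2
        have := mul_le_mul_of_nonneg_left h5 (by linarith : (0:ℝ) ≤ d)
        linarith
      have h9 := mul_le_mul h6 h8 (Real.exp_pos _).le (Real.exp_pos _).le
      refine h9.trans ?_
      rw [← Real.exp_add]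
      have h10 : -(A₀ / 4 * l2) + 4 * (d * ((1 + 2 * C₃) * l2)) = -l2 := by rw [hA₀]; ring
      rw [h10, Real.exp_neg]
      have h11 : Real.exp l2 = l1 := by rw [hl2, Real.exp_log hl10]
      rw [h11, inv_eq_one_div]
      exact div_le_div_of_nonneg_right h1l2 hl10.le
    refine h1.trans ?_
    calc C₂ * Rd * ∑ P ∈ Q₃, 1 / (Ideal.absNorm P : ℝ) ≤ C₂ * Rd * (l2 / l1) :=
          mul_le_mul_of_nonneg_left h7 (by positivity)
      _ = _ := by ring
  have hb4 : (BS.card : ℝ) ≤ C₄ * (Rd * l2 / l1) := by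
    have h1 : (BS.card : ℝ) ≤ ∑ σ : K →ₐ[ℚ] ℂ,
        ((T.filter (fun h => ‖σ (th α h : 𝓞 K)‖ ≤ ρ)).card : ℝ) := by
      exact_mod_cast Finset.card_biUnion_le
    have h2 : ∀ σ : K →ₐ[ℚ] ℂ, ((T.filter (fun h => ‖σ (th α h : 𝓞 K)‖ ≤ ρ)).card : ℝ) ≤
        (2 / δ + 1) * 3 ^ dn * (Rd * l2 / l1) := by
      intro σ
      have h3 := emb_slab α σ δ hδ (hδ2 σ) (fun _ => -(R:ℤ)) (2 * R + 1) 0 1 one_pos ρ hρ0.le
        (T.filter (fun h => ‖σ (th α h : 𝓞 K)‖ ≤ ρ)) (by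
          intro w hw
          rw [mem_filter] at hw
          rw [mem_Box]
          intro i
          have := hTR w hw.1 i
          rw [abs_le] at this
          push_cast
          omega) (by
          intro w hw
          rw [mem_filter] at hw
          simpa using hw.2)
      refine h3.trans ?_
      have h4 : 2 * ρ / (((1:ℕ):ℝ) * δ) + 1 ≤ (2 / δ + 1) * ρ := by
        have : 2 * ρ / (((1:ℕ):ℝ) * δ) = 2 / δ * ρ := by rw [Nat.cast_one, one_mul]; ring
        rw [this]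
        nlinarith only [hρ1]
      have h5 : (((2 * R + 1 : ℕ) : ℝ)) ^ (dn - 1) ≤ 3 ^ dn * Rr ^ (dn - 1) := by
        have h6 : (((2 * R + 1 : ℕ) : ℝ)) ≤ 3 * Rr := by push_cast; linarith
        calc (((2 * R + 1 : ℕ) : ℝ)) ^ (dn - 1) ≤ (3 * Rr) ^ (dn - 1) :=
              pow_le_pow_left₀ (Nat.cast_nonneg _) h6 _
          _ = 3 ^ (dn - 1) * Rr ^ (dn - 1) := mul_pow _ _ _
          _ ≤ 3 ^ dn * Rr ^ (dn - 1) := by
              apply mul_le_mul_of_nonneg_right _ (by positivity)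
              exact pow_le_pow_right₀ (by norm_num) (Nat.sub_le _ _)
      have h7 : ρ * Rr ^ (dn - 1) ≤ Rd * l2 / l1 := by
        have h8 : Rd = Rr ^ (dn - 1) * (ρ * ρ) := by
          rw [hρρ, hRd, ← pow_succ]
          congr 1
          omega
        rw [h8, le_div_iff₀ hl10]
        have h9 : l1 ≤ ρ * l2 := by nlinarith only [hρl1, h1l2, hρ0]
        calc ρ * Rr ^ (dn - 1) * l1 ≤ ρ * Rr ^ (dn - 1) * (ρ * l2) :=
              mul_le_mul_of_nonneg_left h9 (by positivity)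
          _ = _ := by ring
      calc (2 * ρ / (((1:ℕ):ℝ) * δ) + 1) * (((2 * R + 1 : ℕ) : ℝ)) ^ (dn - 1)
          ≤ ((2 / δ + 1) * ρ) * (3 ^ dn * Rr ^ (dn - 1)) :=
            mul_le_mul h4 h5 (by positivity) (by positivity)
        _ = (2 / δ + 1) * 3 ^ dn * (ρ * Rr ^ (dn - 1)) := by ring
        _ ≤ _ := mul_le_mul_of_nonneg_left h7 (by positivity)
    refine h1.trans ((Finset.sum_le_sum (fun σ _ => h2 σ)).trans ?_)
    rw [Finset.sum_const, nsmul_eq_mul, Finset.card_univ, card_emb, hfin, hC₄]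
    apply le_of_eq
    ring
  have htot : (1 + C₂ * (4 * d) + C₂ * (2 * d) + C₂ + C₄) * (Rd * l2 / l1) =
      (Rd * l2 / l1) + C₂ * (4 * d) * (Rd * l2 / l1) + C₂ * (2 * d) * (Rd * l2 / l1) +
      C₂ * (Rd * l2 / l1) + C₄ * (Rd * l2 / l1) := by ring
  rw [htot]
  linarith

/-- numerical facts -/
theorem ev_sieve (B : ℝ) : ∃ y₀ : ℝ, ∀ y : ℝ, y₀ ≤ y → ∀ l1 l2 l3 : ℝ, l1 = Real.log y →
    l2 = Real.log l1 → l3 = Real.log l2 → B ≤ l3 ∧ 1 ≤ l3 ∧ l3 ≤ l2 ∧ B * l2 ^ 2 ≤ l1 ∧ 3 ≤ y := by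
  have t2 : Tendsto (fun y : ℝ => Real.log y) atTop atTop := Real.tendsto_log_atTop
  have t3 := Real.tendsto_log_atTop.comp t2
  have t4 := Real.tendsto_log_atTop.comp t3
  have a1 := t4.eventually_ge_atTop (max B 1)
  have a4 : ∀ᶠ y : ℝ in atTop, B * (Real.log y) ^ 2 ≤ y := by
    have e1 : (fun L : ℝ => (Real.log L) ^ (2:ℝ)) =o[atTop] (fun L : ℝ => L ^ (1 : ℝ)) :=
      isLittleO_log_rpow_rpow_atTop 2 (by norm_num)
    have e2 := e1.def (show (0:ℝ) < 1 / (|B| + 1) by positivity)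
    filter_upwards [e2, eventually_ge_atTop (1:ℝ)] with L hL hL2
    rw [Real.norm_eq_abs, Real.norm_eq_abs,
      abs_of_nonneg (Real.rpow_nonneg (Real.log_nonneg hL2) _),
      abs_of_nonneg (Real.rpow_nonneg (by linarith) _), Real.rpow_one] at hL
    have e3 : (Real.log L) ^ (2:ℝ) = (Real.log L) ^ 2 := by
      rw [← Real.rpow_natCast]; norm_num
    rw [e3, one_div, inv_mul_eq_div, le_div_iff₀ (by positivity)] at hL
    have h1 : B ≤ |B| + 1 := by linarith [le_abs_self B]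
    have h2 : 0 ≤ (Real.log L) ^ 2 := sq_nonneg _
    nlinarith
  have b4 := t2.eventually a4
  have h := (a1.and b4).and (eventually_ge_atTop (3:ℝ))
  obtain ⟨y₀, hy₀⟩ := Filter.eventually_atTop.mp h
  refine ⟨y₀, ?_⟩
  rintro y hy l1 l2 l3 rfl rfl rfl
  obtain ⟨⟨c1, c2⟩, c3⟩ := hy₀ y hy
  simp only [Function.comp] at c1 c2
  have c1' := (le_max_right _ _).trans c1
  refine ⟨(le_max_left _ _).trans c1, c1', ?_, c2, c3⟩
  have h5 : 0 < Real.log (Real.log y) := by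
    by_contra hcon
    push Not at hcon
    rcases eq_or_lt_of_le hcon with h | h
    · rw [h, Real.log_zero] at c1'
      linarith
    · have h6 := Real.log_le_sub_one_of_pos (x := -Real.log (Real.log y)) (by linarith)
      rw [Real.log_neg_eq_log] at h6
      -- `log |u| ≥ 1` forces `|u| ≥ 2`, so `log y < 1`
      have h7 : Real.log (Real.log y) ≤ -2 := by linarith
      have h8 : 1 ≤ Real.log y := by
        rw [Real.le_log_iff_exp_le (by linarith)]
        have := Real.exp_one_lt_d9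
        linarith
      have h9 := Real.log_nonneg h8
      linarith
  linarith [Real.log_le_sub_one_of_pos h5]

end Pool.Agent.H525.NF
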