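import Pool.Agent.H525.NF.Mert

set_option autoImplicit false
set_option linter.unusedSectionVars false

/-! # Smooth ideals -/

namespace Pool.Agent.H525.NF

open Finset NumberField
open Pool.Agent.H474R2.PG

open scoped Classical

variable {K : Type} [Field K] [NumberField K]

section

variable (K)

/-- the nonzero ideals of norm at most `X` -/
noncomputable def Id (X : ℕ) : Finset (Ideal (𝓞 K)) :=
  ((Ideal.finite_setOfPred_absNorm_le (S := 𝓞 K) X).toFinset).filter (fun I => I ≠ ⊥)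

end

theorem mem_Id {X : ℕ} {I : Ideal (𝓞 K)} : I ∈ Id K X ↔ Ideal.absNorm I ≤ X ∧ I ≠ ⊥ := by
  unfold Id
  rw [mem_filter, Set.Finite.mem_toFinset]
  rfl

theorem absNorm_pos {I : Ideal (𝓞 K)} (h : I ≠ ⊥) : 0 < Ideal.absNorm I := by
  apply Nat.pos_of_ne_zero
  rwa [Ne, Ideal.absNorm_eq_zero_iff]

/-- the prime below -/
theorem below {P : Ideal (𝓞 K)} (h1 : P.IsPrime) (h2 : P ≠ ⊥) : ∃ p : ℕ, p.Prime ∧
    ((p : ℕ) : 𝓞 K) ∈ P ∧ (Ideal.absNorm P).minFac = p ∧ ∃ n, 0 < n ∧ Ideal.absNorm P = p ^ n := by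
  have := h1.isMaximal h2
  obtain ⟨p, n, hn, hp1, hp2, hp3⟩ := Ideal.exists_prime_and_absNorm_eq_pow P
  refine ⟨p, hp2, hp1, ?_, n, hn, hp3⟩
  rw [hp3, hp2.pow_minFac hn.ne']

/-- `N I ^ (-σ)` -/
noncomputable def nr (σ : ℝ) (I : Ideal (𝓞 K)) : ℝ := (Ideal.absNorm I : ℝ) ^ (-σ)

theorem nr_nonneg (σ : ℝ) (I : Ideal (𝓞 K)) : 0 ≤ nr σ I := by unfold nr; positivity

theorem nr_mul (σ : ℝ) (I J : Ideal (𝓞 K)) : nr σ (I * J) = nr σ I * nr σ J := by
  unfold nr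
  rw [map_mul, Nat.cast_mul, Real.mul_rpow (Nat.cast_nonneg _) (Nat.cast_nonneg _)]

/-- the ideals whose prime factors are in `S` -/
noncomputable def SmI (X : ℕ) (S : Finset (Ideal (𝓞 K))) : Finset (Ideal (𝓞 K)) :=
  (Id K X).filter (fun I => ∀ P : Ideal (𝓞 K), P.IsPrime → I ≤ P → P ∈ S)

theorem mem_SmI {X : ℕ} {S : Finset (Ideal (𝓞 K))} {I : Ideal (𝓞 K)} : I ∈ SmI X S ↔
    (Ideal.absNorm I ≤ X ∧ I ≠ ⊥) ∧ ∀ P : Ideal (𝓞 K), P.IsPrime → I ≤ P → P ∈ S := by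
  unfold SmI
  rw [mem_filter, mem_Id]

theorem sm_rec (X : ℕ) (S : Finset (Ideal (𝓞 K))) (P : Ideal (𝓞 K)) (hP : P.IsPrime)
    (hP0 : P ≠ ⊥) (σ : ℝ) :
    ∑ I ∈ SmI X (insert P S), nr σ I ≤ ∑ I ∈ SmI X S, nr σ I +
      nr σ P * ∑ I ∈ SmI X (insert P S), nr σ I := by
  have h0 := Finset.sum_filter_add_sum_filter_not (SmI X (insert P S)) (fun I => ¬ I ≤ P) (nr σ)
  have h1 : ∑ I ∈ (SmI X (insert P S)).filter (fun I => ¬ I ≤ P), nr σ I ≤
      ∑ I ∈ SmI X S, nr σ I := by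
    apply Finset.sum_le_sum_of_subset_of_nonneg
    · intro I hI
      rw [mem_filter, mem_SmI] at hI
      rw [mem_SmI]
      refine ⟨hI.1.1, fun Q hQ hIQ => ?_⟩
      rcases Finset.mem_insert.1 (hI.1.2 Q hQ hIQ) with h | h
      · rw [h] at hIQ
        exact absurd hIQ hI.2
      · exact h
    · intro I _ _
      exact nr_nonneg _ _
  have h2 : ∑ I ∈ (SmI X (insert P S)).filter (fun I => ¬ ¬ I ≤ P), nr σ I ≤
      nr σ P * ∑ I ∈ SmI X (insert P S), nr σ I := by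
    rw [Finset.mul_sum]
    have h3 : ∀ I ∈ (SmI X (insert P S)).filter (fun I => ¬ ¬ I ≤ P), ∃ J, I = P * J := by
      intro I hI
      rw [mem_filter, not_not] at hI
      obtain ⟨J, hJ⟩ := Ideal.dvd_iff_le.2 hI.2
      exact ⟨J, hJ⟩
    choose! f hf using h3
    rw [Finset.sum_congr rfl (fun I hI => by
      conv_lhs => rw [hf I hI, nr_mul] :
      ∀ I ∈ (SmI X (insert P S)).filter (fun I => ¬ ¬ I ≤ P), nr σ I = nr σ P * nr σ (f I))]
    rw [← Finset.sum_image (s := (SmI X (insert P S)).filter (fun I => ¬ ¬ I ≤ P)) (g := f)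
      (f := fun J => nr σ P * nr σ J)]
    · apply Finset.sum_le_sum_of_subset_of_nonneg
      · intro J hJ
        rw [mem_image] at hJ
        obtain ⟨I, hI, rfl⟩ := hJ
        have h4 := hf I hI
        rw [mem_filter, mem_SmI] at hI
        rw [mem_SmI]
        have h5 : f I ≠ ⊥ := by
          intro h
          rw [h, Ideal.mul_bot] at h4
          exact hI.1.1.2 h4
        refine ⟨⟨?_, h5⟩, fun Q hQ hJQ => hI.1.2 Q hQ ?_⟩
        · have h6 : Ideal.absNorm I = Ideal.absNorm P * Ideal.absNorm (f I) := by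
            conv_lhs => rw [h4, map_mul]
          have h7 : 1 ≤ Ideal.absNorm P := absNorm_pos hP0
          have h8 := hI.1.1.1
          rw [h6] at h8
          nlinarith
        · rw [h4]
          exact Ideal.mul_le_right.trans hJQ
      · intro J _ _
        exact mul_nonneg (nr_nonneg _ _) (nr_nonneg _ _)
    · intro I hI J hJ hIJ
      rw [Finset.mem_coe] at hI hJ
      rw [hf I hI, hf J hJ, hIJ]
  linarith

theorem nr_le {P : Ideal (𝓞 K)} (hP : P.IsPrime) (hP0 : P ≠ ⊥) {σ : ℝ} (hσ : 1 / 2 ≤ σ) :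
    nr σ P ≤ ((Ideal.absNorm P).minFac : ℝ) ^ (-σ) ∧ nr σ P ≤ 3 / 4 := by
  obtain ⟨p, hp, -, hmin, n, hn, hnorm⟩ := below hP hP0
  have hp2 : (2:ℝ) ≤ p := by exact_mod_cast hp.two_le
  have h1 : (p:ℝ) ≤ (Ideal.absNorm P : ℝ) := by
    rw [hnorm]
    have : p ^ 1 ≤ p ^ n := Nat.pow_le_pow_right hp.pos hn
    rw [pow_one] at this
    exact_mod_cast this
  have h2 : nr σ P ≤ (p : ℝ) ^ (-σ) := by
    unfold nr
    exact Real.rpow_le_rpow_of_nonpos (by linarith) h1 (by linarith)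
  refine ⟨by rw [hmin]; exact h2, h2.trans ?_⟩
  have h3 : (p : ℝ) ^ (-σ) ≤ (2:ℝ) ^ (-σ) :=
    Real.rpow_le_rpow_of_nonpos (by norm_num) hp2 (by linarith)
  have h4 : (2:ℝ) ^ (-σ) ≤ (2:ℝ) ^ (-(1/2) : ℝ) :=
    Real.rpow_le_rpow_of_exponent_le (by norm_num) (by linarith)
  have h5 : (2:ℝ) ^ (-(1/2) : ℝ) ≤ 3 / 4 := by
    rw [Real.rpow_neg zero_le_two, ← Real.sqrt_eq_rpow]
    rw [inv_le_comm₀ (by positivity) (by norm_num)]
    apply Real.le_sqrt_of_sq_le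
    norm_num
  linarith

theorem sm_le (X : ℕ) (S : Finset (Ideal (𝓞 K))) (hS : ∀ P ∈ S, P.IsPrime ∧ P ≠ ⊥) (σ : ℝ)
    (hσ : 1 / 2 ≤ σ) :
    ∑ I ∈ SmI X S, nr σ I ≤ Real.exp (4 * ∑ P ∈ S, nr σ P) := by
  induction S using Finset.induction_on with
  | empty =>
    rw [Finset.sum_empty, mul_zero, Real.exp_zero]
    have h1 : SmI X (∅ : Finset (Ideal (𝓞 K))) ⊆ {⊤} := by
      intro I hI
      rw [mem_SmI] at hI
      rw [Finset.mem_singleton]
      by_contra hne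
      obtain ⟨P, hP1, hP2⟩ := Ideal.exists_le_maximal I hne
      exact absurd (hI.2 P hP1.isPrime hP2) (Finset.notMem_empty _)
    calc ∑ I ∈ SmI X ∅, nr σ I ≤ ∑ I ∈ ({⊤} : Finset (Ideal (𝓞 K))), nr σ I :=
          Finset.sum_le_sum_of_subset_of_nonneg h1 (fun _ _ _ => nr_nonneg _ _)
      _ = 1 := by
          rw [Finset.sum_singleton]
          unfold nr
          rw [Ideal.absNorm_top, Nat.cast_one, Real.one_rpow]
  | insert P S hPS ih =>
    have hP := hS P (Finset.mem_insert_self _ _)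
    have ih' := ih (fun Q hQ => hS Q (Finset.mem_insert_of_mem hQ))
    have h1 := sm_rec X S P hP.1 hP.2 σ
    obtain ⟨-, h2⟩ := nr_le hP.1 hP.2 hσ
    have h0 := nr_nonneg σ P
    rw [Finset.sum_insert hPS, mul_add, Real.exp_add]
    set Wn := ∑ I ∈ SmI X (insert P S), nr σ I with hWn
    have h3 : (1 - nr σ P) * Wn ≤ Real.exp (4 * ∑ P ∈ S, nr σ P) := by linarith
    have h4 : 1 ≤ Real.exp (4 * nr σ P) * (1 - nr σ P) := by
      have h5 := Real.add_one_le_exp (nr σ P / (1 - nr σ P))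
      have h6 : 0 < 1 - nr σ P := by linarith
      have h7 : nr σ P / (1 - nr σ P) ≤ 4 * nr σ P := by
        rw [div_le_iff₀ h6]
        nlinarith
      have h8 := Real.exp_le_exp.2 h7
      have h9 : (nr σ P / (1 - nr σ P) + 1) * (1 - nr σ P) = 1 := by
        field_simp
        ring
      calc (1:ℝ) = (nr σ P / (1 - nr σ P) + 1) * (1 - nr σ P) := h9.symm
        _ ≤ Real.exp (4 * nr σ P) * (1 - nr σ P) :=
            mul_le_mul_of_nonneg_right (h5.trans h8) h6.le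
    have h10 : 0 ≤ Wn := Finset.sum_nonneg (fun _ _ => nr_nonneg _ _)
    calc Wn = 1 * Wn := (one_mul _).symm
      _ ≤ (Real.exp (4 * nr σ P) * (1 - nr σ P)) * Wn := mul_le_mul_of_nonneg_right h4 h10
      _ = Real.exp (4 * nr σ P) * ((1 - nr σ P) * Wn) := by ring
      _ ≤ _ := mul_le_mul_of_nonneg_left h3 (Real.exp_pos _).le

/-- the prime ideals over the primes up to `z` -/
noncomputable def PZ (K : Type) [Field K] [NumberField K] (X : ℕ) (z : ℝ) :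
    Finset (Ideal (𝓞 K)) :=
  (Id K X).filter (fun P => P.IsPrime ∧ ((Ideal.absNorm P).minFac : ℝ) ≤ z)

theorem sum_PZ_le (X : ℕ) (z : ℝ) (σ : ℝ) (hσ : 1 / 2 ≤ σ) :
    ∑ P ∈ PZ K X z, nr σ P ≤ Module.finrank ℚ K * ∑ p ∈ PR z, (p : ℝ) ^ (-σ) := by
  have hmaps : ∀ P ∈ PZ K X z, (Ideal.absNorm P).minFac ∈ PR z := by
    intro P hP
    unfold PZ at hP
    rw [mem_filter, mem_Id] at hP
    rw [mem_PR]
    obtain ⟨p, hp, -, hmin, -⟩ := below hP.2.1 hP.1.2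
    rw [hmin] at hP ⊢
    exact ⟨hp, hP.2.2⟩
  rw [← Finset.sum_fiberwise_of_maps_to hmaps, Finset.mul_sum]
  apply Finset.sum_le_sum
  intro p hp
  rw [mem_PR] at hp
  have h1 : ∀ P ∈ (PZ K X z).filter (fun P => (Ideal.absNorm P).minFac = p),
      nr σ P ≤ (p : ℝ) ^ (-σ) := by
    intro P hP
    rw [mem_filter] at hP
    unfold PZ at hP
    rw [mem_filter, mem_Id] at hP
    have h2 := (nr_le hP.1.2.1 hP.1.1.2 hσ).1
    rwa [hP.2] at h2
  have h3 : ((PZ K X z).filter (fun P => (Ideal.absNorm P).minFac = p)).card ≤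
      Module.finrank ℚ K := by
    apply card_over p hp.1
    intro P hP
    rw [mem_filter] at hP
    unfold PZ at hP
    rw [mem_filter, mem_Id] at hP
    obtain ⟨q, hq, hqP, hmin, -⟩ := below hP.1.2.1 hP.1.1.2
    refine ⟨hP.1.2.1, ?_⟩
    rw [← hP.2, hmin]
    exact hqP
  have h4 := Finset.sum_le_card_nsmul _ _ _ h1
  rw [nsmul_eq_mul] at h4
  refine h4.trans ?_
  exact mul_le_mul_of_nonneg_right (by exact_mod_cast h3) (by positivity)

/-- Rankin's bound: the smooth ideals of norm more than `V` -/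
theorem smooth_tail (X : ℕ) (z V σ : ℝ) (hσ : 1 / 2 ≤ σ) (hσ1 : σ ≤ 1) (hV : 1 ≤ V) :
    ∑ I ∈ (SmI X (PZ K X z)).filter (fun I => V ≤ (Ideal.absNorm I : ℝ)),
      1 / (Ideal.absNorm I : ℝ) ≤
      V ^ (-(1 - σ)) * Real.exp (4 * (Module.finrank ℚ K * ∑ p ∈ PR z, (p : ℝ) ^ (-σ))) := by
  have hPZ : ∀ P ∈ PZ K X z, P.IsPrime ∧ P ≠ ⊥ := by
    intro P hP
    unfold PZ at hP
    rw [mem_filter, mem_Id] at hP
    exact ⟨hP.2.1, hP.1.2⟩
  have h1 := sm_le X (PZ K X z) hPZ σ hσ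
  have h2 := sum_PZ_le (K := K) X z σ hσ
  have h3 : Real.exp (4 * ∑ P ∈ PZ K X z, nr σ P) ≤
      Real.exp (4 * (Module.finrank ℚ K * ∑ p ∈ PR z, (p : ℝ) ^ (-σ))) :=
    Real.exp_le_exp.2 (by linarith)
  have h4 : ∑ I ∈ (SmI X (PZ K X z)).filter (fun I => V ≤ (Ideal.absNorm I : ℝ)),
      1 / (Ideal.absNorm I : ℝ) ≤ ∑ I ∈ (SmI X (PZ K X z)).filter
        (fun I => V ≤ (Ideal.absNorm I : ℝ)), V ^ (-(1 - σ)) * nr σ I := by
    apply Finset.sum_le_sum
    intro I hI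
    rw [mem_filter] at hI
    have h5 : (0:ℝ) < Ideal.absNorm I := by linarith [hI.2]
    have h6 : 1 / (Ideal.absNorm I : ℝ) = (Ideal.absNorm I : ℝ) ^ (-(1 - σ)) * nr σ I := by
      unfold nr
      rw [← Real.rpow_add h5, one_div, ← Real.rpow_neg_one]
      congr 1
      ring
    rw [h6]
    apply mul_le_mul_of_nonneg_right _ (nr_nonneg _ _)
    exact Real.rpow_le_rpow_of_nonpos (by linarith) hI.2 (by linarith)
  rw [← Finset.mul_sum] at h4
  refine h4.trans ?_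
  apply mul_le_mul_of_nonneg_left _ (by positivity)
  refine le_trans ?_ (h1.trans h3)
  exact Finset.sum_le_sum_of_subset_of_nonneg (Finset.filter_subset _ _)
    (fun _ _ _ => nr_nonneg _ _)

end Pool.Agent.H525.NF
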